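import Pool.Agent.H567.PP.All
import Pool.Agent.H567.PP.X.Gmb
import Pool.Agent.H567.PP.X.FrRad

set_option autoImplicit false

/-! The sums of the minorant over characters to a modulus with a small radical (helper567). -/

namespace Pool.Agent.H579.R

theorem gmb_allR : Pool.Agent.H567.PP.S_GMB := Pool.Agent.H376.PP.gmb Pool.Agent.H567.PP.pint_all

end Pool.Agent.H579.R
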