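import Pool.Agent.H579.D.AsmF
import Pool.Agent.H579.R.MainFR

set_option autoImplicit false

/-! The exceptional integers have a large radical: the version of `D/AsmF`. -/

namespace Pool.Agent.H579.R


open Finset
open Pool.Agent.T6.H3.FF
open Pool.Agent.R460.GS (tiMaj2)
open Pool.Agent.R460.GH (bilMaj3 countK)
open Pool.Agent.H373R2.T7 (lamz Vz pz)
open Pool.Agent.H579.Dk
open Pool.Agent.H567.PP (rad)

theorem errPF_allR : ErrPFStmR :=
  errPFR gmb_allR (core5P Pool.Agent.Y697.GJ.liftC Pool.Agent.Y708.GJ.lift Pool.Agent.Y697.GJ.parsC Pool.Agent.Y872.GJ.pars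
      Pool.Agent.Y297.GJ.orth Pool.Agent.Y812.GJ.nonU)
    Pool.Agent.Y812.GJ.l2
    (bilMaj3 Pool.Agent.Y812.GJ.l2 (countK Pool.Agent.Y812.GJ.l2))
    Pool.Agent.Y909.GJ.bilMin (tiMaj2 Pool.Agent.Y812.GJ.l2) Pool.Agent.Y412.GJ.tiMin
    Pool.Agent.Y812.GJ.lsh_le Pool.Agent.Y883.GJ.model_all

end Pool.Agent.H579.R
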