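import Pool.Agent.H579.D.PairMain
import Pool.Agent.H579.R.AsmFR

set_option autoImplicit false

/-! The exceptional integers have a large radical: the version of `D/PairMain`. -/

namespace Pool.Agent.H579.R


open Finset
open Pool.Agent.R460.GP (choose_z gcd_neg_val cntP)
open Pool.Agent.R460.GS (bd_LA one_le_sing mod_iff' gcd_toNat real_log)
open Pool.Agent.H373R2.T7 (lamz Vz pz lamI lamzI Vz_pos)
open Pool.Agent.Y883.GJ
open Pool.Agent.H560R3.GB (sing)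
open Pool.Agent.Y614.GJ.Core (ev_log)
open Pool.Agent.H579.Dk
open Pool.Agent.H567.PP (rad)

theorem gpr4_mainR (hErr : ErrPFStmR) (ρ : ℝ) (hρ : 0 < ρ) (A : ℕ) :
    ∃ c : ℕ, ∀ A₀ : ℕ, ∃ N₀ : ℕ, ∀ N : ℕ, N₀ ≤ N → ∃ D : Finset ℕ, (D.card : ℝ) ≤ Real.log N ^ c ∧
      (∀ d ∈ D, Real.log N ^ A₀ < (rad d : ℝ)) ∧
      ∀ q : ℕ, 1 ≤ q → (q : ℝ) ≤ (N : ℝ) ^ (4 / 5 - ρ) → (∀ d ∈ D, ¬ d ∣ q) → ∀ a : ℕ,
        ((badP4 A N q a).card : ℝ) ≤ (N : ℝ) / (q * Real.log N ^ A) := by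
  obtain ⟨c, hB⟩ := hErr (A + 3 * (2 * A + 4) + 8) (2 * A + 4 + 6) ρ hρ
  refine ⟨c, fun A₀ => ?_⟩
  obtain ⟨B, hB⟩ := hB A₀
  obtain ⟨E1, hE1⟩ : ∃ E1, E1 = max B ((2 * A + 4) + 8) := ⟨_, rfl⟩
  obtain ⟨N₁, h1⟩ := hB (E1 + 1)
  obtain ⟨N₂, h2⟩ := grid_lowerP4 (2 * A + 4) E1 (by rw [hE1]; exact le_max_right _ _)
  obtain ⟨N₃, h3⟩ := count_bad4 A
  obtain ⟨N₄, h4⟩ := Filter.eventually_atTop.1 (ev_log 1 (s := 3 / 10) (by norm_num) 100)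
  refine ⟨N₁ + N₂ + N₃ + N₄ + 3, fun N hN => ?_⟩
  obtain ⟨hL100, -⟩ := h4 N (by omega)
  obtain ⟨D, hDc, hDl, c1⟩ := h1 N (by omega)
  refine ⟨D, hDc, hDl, fun q hq1 hqN hqD a => ?_⟩
  have : NeZero q := ⟨by omega⟩
  obtain ⟨z1, z2, z3⟩ := choose_z hL100 B E1 (by rw [hE1]; exact le_max_left _ _)
  obtain ⟨r, hPar, hsum, hms⟩ := c1 ⌈Real.log N ^ E1⌉₊ z1 z3
  have c2 := h2 N (by omega) ⌈Real.log N ^ E1⌉₊ r z2 z3 hsum
  refine h3 N (by omega) ⌈Real.log N ^ E1⌉₊ r q a c2 ?_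
  intro y₁ y₂ hy1 hy2
  exact hms LA (bd_LA (by linarith)) q hqN hqD _ y₁ y₂ hy1 hy2

/-- the theorem on prime pairs -/
theorem pairs_fewR (ρ : ℝ) (hρ : 0 < ρ) (A T : ℕ) :
    ∃ c : ℕ, ∀ B : ℕ, ∃ x₀ : ℝ, ∀ x : ℝ, x₀ ≤ x → ∃ D : Finset ℕ, (D.card : ℝ) ≤ Real.log x ^ c ∧
      (∀ d ∈ D, Real.log x ^ B < (rad d : ℝ)) ∧
      ∀ q : ℕ, 1 ≤ q → (q : ℝ) ≤ x ^ (4 / 5 - ρ) → ∀ a : ℤ,
        ((Int.gcd a q : ℝ) ≤ Real.log x ^ T ∨ ∀ d ∈ D, ¬ d ∣ q) →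
          (exceptional A x q a).Finite ∧ ((exceptional A x q a).ncard : ℝ) ≤ x / (q * Real.log x ^ A) := by
  classical
  obtain ⟨N₁, h1⟩ := gp4_main errPT_all ρ hρ (A + 1) T
  obtain ⟨c, h2⟩ := gpr4_mainR errPF_allR ρ hρ (A + 1)
  refine ⟨c + 1, fun B => ?_⟩
  obtain ⟨N₂, h2⟩ := h2 B
  obtain ⟨x₁, hx₁⟩ := allWindows_of A (A + 1) le_rfl
  obtain ⟨x₂, hx₂⟩ := Filter.eventually_atTop.1
    (Real.tendsto_log_atTop.eventually_ge_atTop (2 ^ c + 4 : ℝ))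
  refine ⟨max (max x₁ x₂) (N₁ + N₂ + 4), fun x hx => ?_⟩
  have hw := hx₁ x ((le_max_left _ _).trans ((le_max_left _ _).trans hx))
  have hl := hx₂ x ((le_max_right _ _).trans ((le_max_left _ _).trans hx))
  have hxN : (N₁ : ℝ) + N₂ + 4 ≤ x := (le_max_right _ _).trans hx
  have hN1r : (0 : ℝ) ≤ N₁ := Nat.cast_nonneg _
  have hN2r : (0 : ℝ) ≤ N₂ := Nat.cast_nonneg _
  have hx4 : 4 ≤ x := by linarith
  have hx0 : 0 < x := by linarith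
  obtain ⟨N, hN⟩ : ∃ N, N = 2 * ⌊x⌋₊ := ⟨_, rfl⟩
  have hNr : (N : ℝ) = 2 * (⌊x⌋₊ : ℝ) := by rw [hN]; push_cast; ring
  have hf1 : (⌊x⌋₊ : ℝ) ≤ x := Nat.floor_le hx0.le
  have hf2 : x < (⌊x⌋₊ : ℝ) + 1 := Nat.lt_floor_add_one x
  have hxNr : x ≤ N := by linarith
  have hN2 : (N : ℝ) ≤ 2 * x := by linarith
  have hNN : N₁ + N₂ ≤ N := by
    have : ((N₁ + N₂ : ℕ) : ℝ) ≤ N := by push_cast; linarith
    exact_mod_cast this
  rw [← hN] at hw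
  obtain ⟨l, hld⟩ : ∃ l, l = Real.log x := ⟨_, rfl⟩
  obtain ⟨L, hLd⟩ : ∃ L, L = Real.log (N : ℝ) := ⟨_, rfl⟩
  have h2c : (0 : ℝ) < 2 ^ c := by positivity
  have hlL : l ≤ L := by rw [hld, hLd]; exact Real.log_le_log hx0 hxNr
  rw [← hld] at hl
  have hl4 : 4 ≤ l := by linarith
  have hLl : L ≤ 2 * l := by
    have h1 : L ≤ Real.log (2 * x) := by rw [hLd]; exact Real.log_le_log (by linarith) hN2
    rw [Real.log_mul (by norm_num) hx0.ne', ← hld] at h1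
    have := Real.log_two_lt_d9
    linarith
  have hl0 : 0 < l := by linarith
  have hL0 : 0 < L := by linarith
  obtain ⟨D, hDc, hDl, h2⟩ := h2 N (by omega)
  rw [← hLd] at hDc hDl h2
  refine ⟨D, ?_, ?_, ?_⟩
  · rw [← hld]
    calc (D.card : ℝ) ≤ L ^ c := hDc
      _ ≤ (2 * l) ^ c := pow_le_pow_left₀ hL0.le hLl _
      _ = 2 ^ c * l ^ c := mul_pow _ _ _
      _ ≤ l * l ^ c := mul_le_mul_of_nonneg_right (by linarith) (by positivity)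
      _ = l ^ (c + 1) := by ring
  · intro d hd
    refine lt_of_le_of_lt ?_ (hDl d hd)
    rw [← hld]
    exact pow_le_pow_left₀ hl0.le hlL _
  intro q hq hqx a hor
  have hq0 : (0 : ℝ) < q := by exact_mod_cast hq
  have hqN : (q : ℝ) ≤ (N : ℝ) ^ (4 / 5 - ρ) := by
    rcases le_or_gt 0 (4 / 5 - ρ) with hc | hc
    · exact hqx.trans (Real.rpow_le_rpow hx0.le hxNr hc)
    · exfalso
      have h3 : x ^ (4 / 5 - ρ) < 1 := Real.rpow_lt_one_of_one_lt_of_neg (by linarith) hc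
      have h4 : (1 : ℝ) ≤ q := by exact_mod_cast hq
      linarith
  obtain ⟨a', ha'⟩ : ∃ a', a' = (a % (q : ℤ)).toNat := ⟨_, rfl⟩
  obtain ⟨S, hS⟩ : ∃ S, S = badP4 (A + 1) N q a' := ⟨_, rfl⟩
  have hcard : (S.card : ℝ) ≤ (N : ℝ) / (q * L ^ (A + 1)) := by
    rw [hS]
    rcases hor with h | h
    · rw [hLd]
      refine h1 N (by omega) q hq hqN a' ?_
      rw [ha', gcd_toNat q a hq, ← hLd]
      rw [← hld] at h
      exact h.trans (pow_le_pow_left₀ hl0.le hlL _)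
    · exact h2 q hq hqN h a'
  have hsub : exceptional A x q a ⊆ ((S : Finset ℕ) : Set ℕ) := by
    rintro h ⟨a1, a2, a3, a4, a5⟩
    have hmod := mod_iff' h q a hq a4
    rw [← ha'] at hmod
    rw [mem_coe, hS]
    unfold badP4
    refine mem_filter.2 ⟨mem_Icc.2 ⟨a1, ?_⟩, a3, hmod, fun hc => a5 (hw h a2 hc)⟩
    have : (h : ℝ) ≤ N := a2.trans hxNr
    exact_mod_cast this
  refine ⟨(Finset.finite_toSet S).subset hsub, ?_⟩
  have h3 : ((exceptional A x q a).ncard : ℝ) ≤ S.card := by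
    have h4 := Set.ncard_le_ncard hsub (Finset.finite_toSet _)
    rw [Set.ncard_coe_finset] at h4
    exact_mod_cast h4
  refine h3.trans (hcard.trans ?_)
  rw [← hld, div_le_div_iff₀ (by positivity) (by positivity)]
  have h4 : 2 * l ^ A ≤ L ^ (A + 1) := by
    rw [pow_succ']
    exact mul_le_mul (by linarith) (pow_le_pow_left₀ hl0.le hlL _) (by positivity) hL0.le
  calc (N : ℝ) * (q * l ^ A) ≤ (2 * x) * (q * l ^ A) := mul_le_mul_of_nonneg_right hN2 (by positivity)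
    _ = (x * q) * (2 * l ^ A) := by ring
    _ ≤ (x * q) * L ^ (A + 1) := mul_le_mul_of_nonneg_left h4 (by positivity)
    _ = x * (q * L ^ (A + 1)) := by ring

end Pool.Agent.H579.R
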