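import Pool.Agent.H567.PP.Stm

set_option autoImplicit false

/-! Moduli with a small radical are regular. -/

namespace Pool.Agent.H579.R

open Finset
open Pool.Agent.H567.PP (rad)

lemma rad_dvd_le {d q : ℕ} (hq : q ≠ 0) (h : d ∣ q) : rad d ≤ rad q := by
  unfold rad
  refine Nat.le_of_dvd (Finset.prod_pos fun p hp => (Nat.prime_of_mem_primeFactors hp).pos) ?_
  exact Finset.prod_dvd_prod_of_subset _ _ _ (Nat.primeFactors_mono h hq)

lemma reg_of_rad {D : Finset ℕ} {R : ℝ} {q : ℕ} (hq : 1 ≤ q) (hD : ∀ d ∈ D, R < (rad d : ℝ))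
    (h : (rad q : ℝ) ≤ R ∨ ∀ d ∈ D, ¬ d ∣ q) : ∀ d ∈ D, ¬ d ∣ q := by
  rcases h with h | h
  · intro d hd hdq
    have h1 := hD d hd
    have h2 : (rad d : ℝ) ≤ rad q := by exact_mod_cast rad_dvd_le (by omega) hdq
    linarith
  · exact h

end Pool.Agent.H579.R
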