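import Pool.Agent.H579.G.PG4
import Pool.Agent.H567.PP.All

set_option autoImplicit false

/-! The square mean over all classes of a regular modulus up to `N ^ (2 / 3 - ρ)`; the exceptional integers have a large
radical. -/

namespace Pool.Agent.H579.R

open Finset
open Pool.Agent.Y883.GJ Pool.Agent.R460.GS
open Pool.Agent.R460.GR (RegAt)
open Pool.Agent.R460.GH (nLA mLA nHU mHU min_FF maj_FF ap_FF nc_FF bd_FF FF_eq countK bilMaj3)
open Pool.Agent.H373R2.T7 (lamz Vz lam_ap lamz_ap)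
open Pool.Agent.Y883.T3 (lsh)
open Pool.Agent.Y614.GJ.Core (P ev_log)
open Pool.Agent.H579.G
open Pool.Agent.H567.PP (rad)

lemma rad_pos (d : ℕ) : 0 < rad d := by
  unfold rad
  exact Finset.prod_pos fun p hp => (Nat.prime_of_mem_primeFactors hp).pos

lemma rad_le {d : ℕ} (hd : d ≠ 0) : rad d ≤ d := by
  unfold rad
  exact Nat.le_of_dvd (Nat.pos_of_ne_zero hd) (Nat.prod_primeFactors_dvd d)

lemma rad_mul_le {a b : ℕ} (ha : a ≠ 0) (hb : b ≠ 0) : rad (a * b) ≤ rad a * b := by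
  classical
  have h1 : rad (a * b) ≤ rad a * rad b := by
    unfold rad
    rw [Nat.primeFactors_mul ha hb, ← Finset.prod_union_inter]
    refine Nat.le_mul_of_pos_right _ (Finset.prod_pos fun p hp => ?_)
    rw [mem_inter] at hp
    exact (Nat.prime_of_mem_primeFactors hp.1).pos
  exact h1.trans (Nat.mul_le_mul_left _ (rad_le hb))

/-- characters to a modulus with a small radical are not bad -/
lemma not_badL (B U : ℕ) : ∃ N₀ : ℕ, ∀ N : ℕ, N₀ ≤ N → ∀ (d : ℕ) (ψ : DirichletCharacter ℂ d), ψ.IsPrimitive →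
    d ≤ N → (rad d : ℝ) ≤ Real.log N ^ B → 8 * Real.log N ^ B < d → ¬ BadL N U d ψ := by
  obtain ⟨η, hη0, hη1, h⟩ := Pool.Agent.H567.PP.ppr_all
  obtain ⟨L₀, hL₀, h⟩ := h 1 B U
  have hlim : Filter.Tendsto (fun N : ℕ => Real.log (N : ℝ)) Filter.atTop Filter.atTop :=
    Real.tendsto_log_atTop.comp tendsto_natCast_atTop_atTop
  obtain ⟨n1, hn1⟩ := Filter.eventually_atTop.1 (hlim.eventually_ge_atTop (max L₀ ((4 : ℝ) ^ (1 / η))))
  refine ⟨n1 + 1, fun N hN d ψ hψ hdN hrad hbig hbad => ?_⟩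
  obtain ⟨t, ht1, ht2, ht3⟩ := hbad
  have hN0 : (0 : ℝ) < N := by exact_mod_cast (show 0 < N by omega)
  have hL := hn1 N (by omega)
  have hLa : L₀ ≤ Real.log N := (le_max_left _ _).trans hL
  have hLb : (4 : ℝ) ^ (1 / η) ≤ Real.log N := (le_max_right _ _).trans hL
  have hL0 : 0 < Real.log N := by linarith
  have hη4 : 4 ≤ Real.log N ^ η := by
    calc (4 : ℝ) = ((4 : ℝ) ^ (1 / η)) ^ η := by
          rw [← Real.rpow_mul (by norm_num), one_div, inv_mul_cancel₀ hη0.ne', Real.rpow_one]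
      _ ≤ Real.log N ^ η := Real.rpow_le_rpow (by positivity) hLb hη0.le
  have hpow : Real.log N ^ (1 - η) ≤ Real.log N / 4 := by
    rw [Real.rpow_sub hL0, Real.rpow_one]
    exact div_le_div_of_nonneg_left hL0.le (by norm_num) hη4
  have hexp : Real.exp (Real.log N ^ (1 - η)) ≤ t := by
    refine le_trans ?_ ht2
    rw [Real.rpow_def_of_pos hN0]
    apply Real.exp_le_exp.2
    linarith
  have h1 := h (Real.log N) hLa d ψ 0 hψ hrad hbig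
    (by
      rw [Nat.cast_one, one_mul, Real.exp_log hN0]
      exact_mod_cast hdN)
    (by
      rw [abs_zero]
      exact (Real.exp_pos _).le) t hexp (by
      rw [Real.exp_log hN0]
      exact_mod_cast ht1)
  have h2 : ∑ n ∈ Icc 1 t, (ArithmeticFunction.vonMangoldt n : ℂ) * (ψ (n : ZMod d) *
      Pool.Agent.helper24_UT.tw 0 n) = ∑ m ∈ Icc 1 t, LA m * ψ (m : ZMod d) := by
    refine sum_congr rfl fun n _ => ?_
    have h3 : Pool.Agent.helper24_UT.tw 0 n = 1 := by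
      simp [Pool.Agent.helper24_UT.tw, Pool.Agent.H376R2.MR.er]
    rw [h3, mul_one]
    rfl
  rw [h2] at h1
  exact absurd h1 (not_le.2 ht3)

/-- the exceptional integers have large radicals -/
lemma E2_rad {N K C A₀ : ℕ} {E : (d : ℕ) → DirichletCharacter ℂ d → Prop} (hL : 8 ≤ Real.log N)
    (hK : K = A₀ + C + 1)
    (hE : ∀ (d : ℕ) (ψ : DirichletCharacter ℂ d), ψ.IsPrimitive → d ≤ N → (rad d : ℝ) ≤ Real.log N ^ (A₀ + C) →
      8 * Real.log N ^ (A₀ + C) < d → ¬ E d ψ) {d : ℕ} (hd : d ∈ Pool.Agent.H579.L.E2 N K C E) :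
    Real.log N ^ A₀ < (rad d : ℝ) := by
  classical
  have hL1 : 1 ≤ Real.log N := by linarith
  unfold Pool.Agent.H579.L.E2 at hd
  rw [mem_image] at hd
  obtain ⟨⟨e, j⟩, he, rfl⟩ := hd
  rw [mem_product, mem_range] at he
  obtain ⟨he, hj⟩ := he
  simp only at he hj ⊢
  unfold Pool.Agent.H579.L.E1 at he
  rw [mem_filter, mem_Icc] at he
  obtain ⟨⟨he1, heN⟩, he2, ψ, -, -, hψ, hEψ⟩ := he
  have hre : Real.log N ^ (A₀ + C) < (rad e : ℝ) := by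
    by_contra hcon
    rw [not_lt] at hcon
    refine hE e ψ hψ heN hcon ?_ hEψ
    refine lt_of_le_of_lt ?_ he2
    rw [hK, pow_succ, mul_comm]
    exact mul_le_mul_of_nonneg_left hL (by positivity)
  obtain ⟨g, hg⟩ : ∃ g, g = Nat.gcd e (j + 1) := ⟨_, rfl⟩
  rw [← hg]
  have hge : g ∣ e := by rw [hg]; exact Nat.gcd_dvd_left _ _
  have hgj : g ≤ j + 1 := by rw [hg]; exact Nat.gcd_le_right _ (Nat.succ_pos j)
  have hg0 : 0 < g := Nat.pos_of_dvd_of_pos hge he1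
  have hgr : (g : ℝ) ≤ Real.log N ^ C := by
    have h1 : j + 1 ≤ ⌊Real.log N ^ C⌋₊ := hj
    have h2 : ((j + 1 : ℕ) : ℝ) ≤ Real.log N ^ C := by
      refine le_trans ?_ (Nat.floor_le (show 0 ≤ Real.log N ^ C by positivity))
      exact_mod_cast h1
    exact le_trans (by exact_mod_cast hgj) h2
  have he3 : rad e ≤ rad (e / g) * g := by
    have h0 : e / g ≠ 0 := (Nat.div_pos (Nat.le_of_dvd he1 hge) hg0).ne'
    calc rad e = rad (e / g * g) := by rw [Nat.div_mul_cancel hge]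
      _ ≤ _ := rad_mul_le h0 hg0.ne'
  have he4 : (rad e : ℝ) ≤ (rad (e / g) : ℝ) * g := by exact_mod_cast he3
  have hLA : 0 < Real.log N ^ A₀ := by positivity
  have hLC : 0 < Real.log N ^ C := by positivity
  rw [pow_add] at hre
  by_contra hcon
  rw [not_lt] at hcon
  have : (rad (e / g) : ℝ) * g ≤ Real.log N ^ A₀ * Real.log N ^ C := by
    apply mul_le_mul hcon hgr (Nat.cast_nonneg _) hLA.le
  linarith

/-- The square mean over all classes of a regular modulus. -/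
theorem PG4R {ρ : ℝ} (hρ : 0 < ρ) (A U₀ : ℕ) :
    ∃ c : ℕ, ∀ A₀ : ℕ, ∃ B : ℕ, ∀ E : ℕ, ∃ N₀ : ℕ, ∀ N : ℕ, N₀ ≤ N → ∃ D : Finset ℕ,
    (D.card : ℝ) ≤ Real.log N ^ c ∧ (∀ d ∈ D, Real.log N ^ A₀ < (rad d : ℝ)) ∧ ∀ z : ℕ,
    Real.log N ^ B ≤ z → (z : ℝ) ≤ Real.log N ^ E → ∃ r : ℕ, Par U₀ N z r ∧
      ∑ n ∈ Icc 1 N, |lamz z n - lsh z r n| ≤ N / Real.log N ^ U₀ ∧
      BdAt N (FF z r) ∧ ∀ (q : ℕ) [NeZero q], (q : ℝ) ≤ (N : ℝ) ^ (2 / 3 - ρ) →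
      (∀ d ∈ D, ¬ d ∣ q) → ∀ β : ℝ, ∀ y : ℕ, y ≤ N →
        P q N (tr y (FF z r)) β ≤ (N : ℝ) ^ 2 / (q * Real.log N ^ A) := by
  classical
  have hTM : TiMaj2Stm := tiMaj2 Pool.Agent.Y812.GJ.l2
  have hTm : TiMinStm := Pool.Agent.Y412.GJ.tiMin
  have hLsh : LshStm := Pool.Agent.Y812.GJ.lsh_le
  have hL2S : L2Stm := Pool.Agent.Y812.GJ.l2
  have hB3 := bilMaj3 hL2S (countK hL2S)
  have hBm : BilMinStm := Pool.Agent.Y909.GJ.bilMin
  have hρ2 : 0 < ρ / 2 := by positivity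
  obtain ⟨A₁, hC1⟩ := PG A (ρ₁ := 1 / 30 + ρ) (ρ₂ := 1 / 30 + ρ / 2) (by linarith) (by linarith)
  obtain ⟨Cg, Ng, hg⟩ := nLA hL2S hBm (A₁ + 2) hρ2
  obtain ⟨Ch, Nh, hh⟩ := nHU hTm hLsh (A₁ + 2) (ρ := 1 / 30 + ρ / 2) (by positivity)
  obtain ⟨C, hC⟩ : ∃ C, C = max Cg Ch := ⟨_, rfl⟩
  obtain ⟨A₂, hC2⟩ := hC1 C
  obtain ⟨C₃, Nm1, hm1⟩ := mLA hL2S hB3 (A₂ + 2) C hρ2
  obtain ⟨Nm2, hm2⟩ := mHU hTM hLsh (A₂ + 2) C (ρ := 1 / 30 + ρ / 2) (by positivity)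
  obtain ⟨U₁, hC3⟩ := hC2 C₃
  obtain ⟨Nm3, hm3⟩ := mHU hTM hLsh (2 * (U₁ + 2)) C (ρ := 1 / 30 + ρ / 2) (by positivity)
  obtain ⟨C₄, Nl, hl⟩ := cntL (U₁ + C + 4)
  obtain ⟨Nr, hr⟩ := regA U₁ C (ρ₁ := 1 / 30 + ρ) (ρ₂ := 1 / 30 + ρ / 2) (by linarith) (by linarith)
  refine ⟨C₄ + C, fun A₀ => ?_⟩
  obtain ⟨K, hK⟩ : ∃ K, K = A₀ + C + 1 := ⟨_, rfl⟩
  obtain ⟨Nb, hNb⟩ := not_badL (A₀ + C) (U₁ + C + 4)
  obtain ⟨U, Nc, hC4⟩ := hC3 K
  obtain ⟨U₃, hU₃⟩ : ∃ U₃, U₃ = max U₀ (U + 2) := ⟨_, rfl⟩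
  obtain ⟨Bm, hBm'⟩ := Pool.Agent.Y883.GJ.model_all U₃
  refine ⟨max Bm K, fun E => ?_⟩
  obtain ⟨Nmo, hmo⟩ := hBm' E
  obtain ⟨Nlz, hlz⟩ := lamz_ap E (U + 2)
  obtain ⟨Na, ha⟩ := lam_ap K (U + 2)
  obtain ⟨Nf, hNf⟩ := Filter.eventually_atTop.1 (ev_log 1 (s := 1) (by norm_num) 10)
  refine ⟨Nl + Nr + Nc + Ng + Nh + Nm1 + Nm2 + Nm3 + Nmo + Nlz + Na + Nf + Nb + 1, fun N hN =>
    ⟨Pool.Agent.H579.L.E2 N K C (BadL N (U₁ + C + 4)), ?_, ?_, ?_⟩⟩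
  · obtain ⟨hL3, -⟩ := hNf N (by omega)
    exact Pool.Agent.H579.L.E2_card (by linarith) (Pool.Agent.H579.L.E1_card K (hl N (by omega)))
  · intro d hd
    obtain ⟨hL3, -⟩ := hNf N (by omega)
    exact E2_rad (by linarith) hK (hNb N (by omega)) hd
  · intro z hz1 hz2
    obtain ⟨hLe, -⟩ := hNf N (by omega)
    have hL1 : 1 ≤ Real.log N := by linarith
    have hL2 : 2 ≤ Real.log N := by linarith
    have hzB : Real.log N ^ Bm ≤ z := (pow_le_pow_right₀ hL1 (le_max_left _ _)).trans hz1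
    have hzK : Real.log N ^ K ≤ z := (pow_le_pow_right₀ hL1 (le_max_right _ _)).trans hz1
    have hz1' : 1 ≤ z := by
      have : (1 : ℝ) ≤ z := (one_le_pow₀ hL1).trans hz1
      exact_mod_cast this
    obtain ⟨r, hPar, hsum⟩ := hmo N (by omega) z hzB hz2
    have hdiv : ∀ V : ℕ, V ≤ U₃ → (N : ℝ) / Real.log N ^ U₃ ≤ N / Real.log N ^ V := fun V hV =>
      div_le_div_of_nonneg_left (Nat.cast_nonneg _) (by positivity) (pow_le_pow_right₀ hL1 hV)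
    have hU0 : U₀ ≤ U₃ := by rw [hU₃]; exact le_max_left _ _
    have hU2 : U + 2 ≤ U₃ := by rw [hU₃]; exact le_max_right _ _
    have hP0 := par_mono hL1 hU0 hPar
    have hP2 := par_mono hL1 hU2 hPar
    have hMin : MinAt N (1 / 30 + ρ / 2) A₁ C (FF z r) := by
      rw [hC]
      exact min_FF hL2 (hg N (by omega)) (hh N (by omega) z r hPar.hD hPar.hV)
    have hMaj : MajAt N (1 / 30 + ρ / 2) A₂ C C₃ (FF z r) :=
      maj_FF hL2 (hm1 N (by omega)) (fun q _ hq => hm2 N (by omega) q hq z r hPar.hD hPar.hV)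
    have hAp : ApAt N K U (FF z r) := by
      refine ap_FF hL2 ?_ (hsum.trans (hdiv _ hU2)) (ha N (by omega))
      intro q hq hqK c y hy
      refine hlz N (by omega) z hz1' hz2 q hq ?_ c y hy
      exact_mod_cast hqK.trans hzK
    have hNc : NcAt N U (FF z r) := nc_FF (par_mono hL1 (by omega) hP2)
    have hBd : BdAt N (FF z r) := bd_FF hPar (by linarith)
    refine ⟨r, hP0, hsum.trans (hdiv _ hU0), hBd, fun q _ hq hD β y hy => ?_⟩
    have hq' : (q : ℝ) ≤ (N : ℝ) ^ (7 / 10 - (1 / 30 + ρ)) := by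
      have e : (7 / 10 - (1 / 30 + ρ) : ℝ) = 2 / 3 - ρ := by ring
      rw [e]
      exact hq
    refine hC4 N (by omega) (FF z r) hBd hMin hMaj hAp hNc q hq' ?_ β y hy
    refine hr N (by omega) K z r ?_ q hq' hD
    intro Q _ hQ χ hχ η hη y hy
    have h5 := hm3 N (by omega) Q hQ z r hPar.hD hPar.hV η hη y hy {χ} (by
      rw [mem_singleton]
      exact fun h => hχ h.symm)
    rw [sum_singleton] at h5
    have h6 : (N : ℝ) ^ 2 / Real.log N ^ (2 * (U₁ + 2)) = (N / Real.log N ^ (U₁ + 2)) ^ 2 := by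
      rw [div_pow, ← pow_mul, mul_comm 2 (U₁ + 2)]
    rw [h6] at h5
    exact (abs_le_of_sq_le_sq' h5 (by positivity)).2

end Pool.Agent.H579.R
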