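import Pool.Agent.H579.L.PB2
import Pool.Agent.H579.R.PG4R

set_option autoImplicit false

/-! The sums over the primes of a short class are small for characters to a modulus with a small radical. -/

namespace Pool.Agent.H579.R

open Finset
open Pool.Agent.R460.GR (dl Bd)
open Pool.Agent.Y183.GJ (ci gi Yi Xi gi_pos gi_succ gi_le lt_gi ai)
open Pool.Agent.H579.L
open Pool.Agent.H567.PP (rad)

/-- constant on the primes -/
def CP (g : ℕ → ℂ) : Prop := ∀ p : ℕ, p.Prime → g p = g 2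

lemma ci_mono {δ : ℝ} (hδ : 0 < δ) {m m' : ℕ} (hm : 1 ≤ m) (h : m ≤ m') : ci δ m ≤ ci δ m' := by
  unfold ci
  refine Nat.floor_le_floor (div_le_div_of_nonneg_right ?_ hδ.le)
  exact Real.log_le_log (by exact_mod_cast hm) (by exact_mod_cast h)

/-- the sums over short classes are small -/
lemma not_bd (B K₂ K' : ℕ) {κ₁ κ₂ : ℝ} (h1 : 0 < κ₁) (h2 : κ₂ ≤ 1) : ∃ N₀ : ℕ, ∀ N : ℕ, N₀ ≤ N → ∀ g : ℕ → ℂ, Cm g →
    CP g → ∀ (d : ℕ) (ψ : DirichletCharacter ℂ d), ψ.IsPrimitive → d ≤ N → (rad d : ℝ) ≤ Real.log N ^ B →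
    8 * Real.log N ^ B < d → ¬ Bd N K₂ K' (ap N κ₁ κ₂ g 1) d ψ := by
  classical
  obtain ⟨η, hη0, hη1, h⟩ := Pool.Agent.H567.PP.pint_all
  obtain ⟨L₀, hL₀, h⟩ := h B (K' + 1)
  have hlim : Filter.Tendsto (fun N : ℕ => Real.log (N : ℝ)) Filter.atTop Filter.atTop :=
    Real.tendsto_log_atTop.comp tendsto_natCast_atTop_atTop
  obtain ⟨n1, hn1⟩ := Filter.eventually_atTop.1
    (hlim.eventually_ge_atTop (max (L₀ + 3) ((1 / κ₁ : ℝ) ^ (1 / η))))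
  refine ⟨n1 + 1, fun N hN g hg hcp d ψ hψ hdN hrad hbig hbad => ?_⟩
  have hN1 : 1 ≤ N := by omega
  have hN0 : (0 : ℝ) < N := by exact_mod_cast hN1
  have hNr1 : (1 : ℝ) ≤ N := by exact_mod_cast hN1
  have hL := hn1 N (by omega)
  obtain ⟨L, hLd⟩ : ∃ L, L = Real.log (N : ℝ) := ⟨_, rfl⟩
  rw [← hLd] at hL hrad hbig
  have hLa : L₀ + 3 ≤ L := (le_max_left _ _).trans hL
  have hLb : (1 / κ₁ : ℝ) ^ (1 / η) ≤ L := (le_max_right _ _).trans hL
  have hL0 : 0 < L := by linarith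
  have hL3 : 3 ≤ L := by linarith
  have hL1 : 1 ≤ L := by linarith
  have hN : Real.exp L = N := by rw [hLd, Real.exp_log hN0]
  have hη4 : 1 / κ₁ ≤ L ^ η := by
    calc 1 / κ₁ = ((1 / κ₁ : ℝ) ^ (1 / η)) ^ η := by
          rw [← Real.rpow_mul (by positivity), one_div_mul_cancel hη0.ne', Real.rpow_one]
      _ ≤ L ^ η := Real.rpow_le_rpow (by positivity) hLb hη0.le
  have hpow : L ^ (1 - η) ≤ κ₁ * L := by
    rw [Real.rpow_sub hL0, Real.rpow_one, div_le_iff₀ (by positivity)]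
    have : 1 ≤ κ₁ * L ^ η := by
      rw [div_le_iff₀ h1] at hη4
      linarith
    nlinarith
  obtain ⟨δ, hδd⟩ : ∃ δ, δ = dl N K₂ := ⟨_, rfl⟩
  have hδ0 : 0 < δ := by
    rw [hδd]
    unfold dl
    rw [← hLd]
    positivity
  have hδ1 : δ ≤ 1 := by
    rw [hδd]
    unfold dl
    rw [← hLd]
    exact inv_le_one_of_one_le₀ (one_le_pow₀ hL1)
  obtain ⟨i, -, hlt⟩ := hbad
  rw [← hδd, ← hLd] at hlt
  obtain ⟨J, hJ⟩ : ∃ J : Finset ℕ, J = (Icc 1 (Xi δ i)).filter (fun m : ℕ => ci δ m = i ∧ (N : ℝ) ^ κ₁ < m ∧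
    (m : ℝ) ≤ (N : ℝ) ^ κ₂) := ⟨_, rfl⟩
  have hmem : ∀ m, m ∈ J ↔ (1 ≤ m ∧ m ≤ Xi δ i) ∧ ci δ m = i ∧ (N : ℝ) ^ κ₁ < m ∧ (m : ℝ) ≤ (N : ℝ) ^ κ₂ := by
    intro m
    rw [hJ, mem_filter, mem_Icc]
  have hS : ∑ m ∈ Icc 1 (Xi δ i), ai δ (ap N κ₁ κ₂ g 1) i m * ψ (m : ZMod d) =
      g 2 * ∑ p ∈ J.filter Nat.Prime, ψ (p : ZMod d) := by
    rw [hJ, filter_filter, mul_sum, sum_filter]
    refine sum_congr rfl fun m hm => ?_
    unfold ai ap Pp
    by_cases hp : (ci δ m = i ∧ (N : ℝ) ^ κ₁ < m ∧ (m : ℝ) ≤ (N : ℝ) ^ κ₂) ∧ m.Prime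
    · rw [if_pos hp, if_pos hp.1.1, if_pos ⟨hp.2, hp.1.2.1, hp.1.2.2, fun hd => hp.2.one_lt.ne' (Nat.dvd_one.1 hd)⟩,
        hcp m hp.2]
    · rw [if_neg hp]
      by_cases hc : ci δ m = i
      · rw [if_pos hc, if_neg fun hq => hp ⟨⟨hc, hq.2.1, hq.2.2.1⟩, hq.1⟩, zero_mul]
      · rw [if_neg hc, zero_mul]
  rw [hS] at hlt
  have hgi : 0 < gi δ i := gi_pos δ i
  rcases J.eq_empty_or_nonempty with hemp | hne
  · rw [hemp, filter_empty, sum_empty, mul_zero, norm_zero] at hlt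
    have : 0 ≤ gi δ i * (L ^ K')⁻¹ := by positivity
    linarith
  obtain ⟨y, hy⟩ : ∃ y, y = J.max' hne := ⟨_, rfl⟩
  obtain ⟨x, hx⟩ : ∃ x, x = J.min' hne := ⟨_, rfl⟩
  have hyJ : y ∈ J := by rw [hy]; exact max'_mem _ _
  have hxJ : x ∈ J := by rw [hx]; exact min'_mem _ _
  have hy2 := (hmem y).1 hyJ
  have hx2 := (hmem x).1 hxJ
  have hJI : J = Ioc (x - 1) y := by
    ext m
    rw [mem_Ioc]
    constructor
    · intro hm
      have e1 : x ≤ m := by rw [hx]; exact min'_le _ _ hm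
      have e2 : m ≤ y := by rw [hy]; exact le_max' _ _ hm
      have := hx2.1.1
      omega
    · rintro ⟨e1, e2⟩
      have e3 : x ≤ m := by omega
      have e4 := ci_mono hδ0 hx2.1.1 e3
      have e5 := ci_mono hδ0 (hx2.1.1.trans e3) e2
      rw [hx2.2.1] at e4
      rw [hy2.2.1] at e5
      refine (hmem m).2 ⟨⟨hx2.1.1.trans e3, e2.trans hy2.1.2⟩, le_antisymm e5 e4, ?_, ?_⟩
      · exact lt_of_lt_of_le hx2.2.2.1 (by exact_mod_cast e3)
      · exact le_trans (by exact_mod_cast e2) hy2.2.2.2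
  have hyx : x - 1 ≤ y := by
    have : x ≤ y := by rw [hx]; exact min'_le _ _ hyJ
    omega
  have hylow : Real.exp (L ^ (1 - η)) ≤ y := by
    refine le_trans ?_ hy2.2.2.1.le
    rw [← hN, ← Real.exp_mul]
    apply Real.exp_le_exp.2
    linarith
  have hyN : (y : ℝ) ≤ Real.exp L := by
    refine hy2.2.2.2.trans ?_
    rw [hN]
    calc (N : ℝ) ^ κ₂ ≤ (N : ℝ) ^ (1 : ℝ) := Real.rpow_le_rpow_of_exponent_le hNr1 h2
      _ = N := Real.rpow_one _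
  have h3 := h L (by linarith) d ψ 0 hψ hrad hbig (by
      rw [hN]
      exact_mod_cast hdN) (by
      rw [abs_zero]
      exact (Real.exp_pos _).le) (x - 1) y hyx hylow hyN
  have h4 : ∑ p ∈ (Ioc (x - 1) y).filter Nat.Prime, ψ (p : ZMod d) * Pool.Agent.helper24_UT.tw 0 p =
      ∑ p ∈ J.filter Nat.Prime, ψ (p : ZMod d) := by
    rw [hJI]
    refine sum_congr rfl fun p _ => ?_
    have h5 : Pool.Agent.helper24_UT.tw 0 p = 1 := by
      simp [Pool.Agent.helper24_UT.tw, Pool.Agent.H376R2.MR.er]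
    rw [h5, mul_one]
  rw [h4] at h3
  have h5 : (y : ℝ) ≤ 3 * gi δ i := by
    have e1 := lt_gi hδ0 hy2.1.1
    rw [hy2.2.1, gi_succ] at e1
    have e2 : Real.exp δ ≤ 3 := by
      have := Real.exp_le_exp.2 hδ1
      have := Real.exp_one_lt_d9
      linarith
    nlinarith
  have h6 : ‖g 2 * ∑ p ∈ J.filter Nat.Prime, ψ (p : ZMod d)‖ ≤ gi δ i * (L ^ K')⁻¹ := by
    rw [norm_mul]
    calc ‖g 2‖ * ‖∑ p ∈ J.filter Nat.Prime, ψ (p : ZMod d)‖ ≤ 1 * (y / L ^ (K' + 1)) :=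
          mul_le_mul (hg.bd 2) h3 (norm_nonneg _) zero_le_one
      _ ≤ 3 * gi δ i / L ^ (K' + 1) := by
          rw [one_mul]
          gcongr
      _ = gi δ i * (L ^ K')⁻¹ * (3 / L) := by
          rw [pow_succ]
          field_simp
      _ ≤ gi δ i * (L ^ K')⁻¹ * 1 := by
          refine mul_le_mul_of_nonneg_left ?_ (by positivity)
          rw [div_le_one hL0]
          exact hL3
      _ = _ := mul_one _
  linarith

end Pool.Agent.H579.R
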