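import Pool.Agent.H579.G.Dms4
import Pool.Agent.H579.R.Wt4R

set_option autoImplicit false

/-! The exceptional integers have a large radical: the version of `G/Dms4`. -/

namespace Pool.Agent.H579.R


open Finset
open Pool.Agent.H373R2.T7
open Pool.Agent.Y614.GJ.Core (ev_log)
open Pool.Agent.H579.G
open Pool.Agent.H567.PP (rad)

/-- replacing primes by the sieve model, several bases -/
theorem wtMR (k A : ℕ) {ρ : ℝ} (hρ : 0 < ρ) :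
    ∃ c : ℕ, ∀ A₀ : ℕ, ∃ B : ℕ, ∀ E : ℕ, B ≤ E → ∃ N₀ : ℕ, ∀ N : ℕ, N₀ ≤ N →
      ∃ D : Finset ℕ, (D.card : ℝ) ≤ Real.log N ^ c ∧ (∀ d ∈ D, Real.log N ^ A₀ < (rad d : ℝ)) ∧
      ∀ q : Fin k → ℕ, (∀ i, 1 ≤ q i ∧ (q i : ℝ) ≤ (N : ℝ) ^ (2 / 3 - ρ) ∧ ∀ d ∈ D, ¬ d ∣ q i) → ∀ a : Fin k → ℤ,
      ∀ S : Finset ℕ, ∀ u : Fin k → ℕ → ℕ, (∀ i, ∀ s ∈ S, u i s ∈ Icc 1 N) → (∀ i, Set.InjOn (u i) S) →
        ∀ w : ℕ → ℝ, (∀ n ∈ S, |w n| ≤ 1) →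
        ∀ T : Finset (Fin k → ℤ), (∀ h ∈ T, ∀ i, |h i| ≤ N ∧ h i ≡ a i [ZMOD q i]) →
        (∀ h ∈ T, N / Real.log N ^ A < |∑ n ∈ S, w n * (∏ i, ex thp (h i) (u i n) -
          ∏ i, ex (lamz ⌈Real.log N ^ E⌉₊) (h i) (u i n))|) →
        (T.card : ℝ) ≤ (∏ i, ((N : ℝ) / q i)) / Real.log N ^ A := by
  classical
  obtain ⟨c, hc⟩ := wt4R hρ (A + k + 1)
  obtain ⟨ns, hs⟩ := steps k A
  refine ⟨c, fun A₀ => ?_⟩
  obtain ⟨B, hB⟩ := hc A₀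
  refine ⟨B, fun E hE => ?_⟩
  obtain ⟨n1, h1⟩ := hB E hE
  obtain ⟨n2, h2⟩ := zpar E
  obtain ⟨n4, h4⟩ := Filter.eventually_atTop.1 (ev_log 1 (s := 1 / 5) (by norm_num) 10)
  refine ⟨n1 + n2 + n4 + ns + 2, fun N hN => ?_⟩
  have hN1 : 1 ≤ N := by omega
  have hN0 : (0 : ℝ) < N := by exact_mod_cast hN1
  obtain ⟨D, hD1, hD2, hD3⟩ := h1 N (by omega)
  obtain ⟨hL10, hzlo, hzhi, hV⟩ := h2 N (by omega)
  obtain ⟨-, hL5⟩ := h4 N (by omega)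
  obtain ⟨z, hz⟩ : ∃ z, z = ⌈Real.log N ^ E⌉₊ := ⟨_, rfl⟩
  rw [← hz] at hD3 hzlo hzhi hV ⊢
  refine ⟨D, hD1, hD2, fun q hq a S u hu1 hu2 w hw T hT hT2 => ?_⟩
  have hqN : ∀ i, 1 ≤ q i ∧ q i + 1 ≤ N := fun i =>
    ⟨(hq i).1, q_add_one hN1 (by linarith) (by rw [pow_one] at hL5; linarith) (hq i).2.1⟩
  refine hs N (by omega) q a S (fun i h n => ex thp h (u i n)) (fun i h n => ex (lamz z) h (u i n)) hqN ?_ ?_ ?_ w hw T hT hT2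
  · intro i w' hw' T' hT' hT2'
    have hS : S.image (u i) ⊆ Icc 1 N := by
      intro n hn
      obtain ⟨s, hs, rfl⟩ := mem_image.1 hn
      exact hu1 i s hs
    have hinv : ∀ s ∈ S, Function.invFunOn (u i) S (u i s) = s := fun s hs =>
      (hu2 i).leftInvOn_invFunOn (mem_coe.2 hs)
    refine hD3 (q i) (hq i).1 (hq i).2.1 (hq i).2.2 (S.image (u i)) hS (fun n => w' (Function.invFunOn (u i) S n))
      (fun n hn => ?_) (a i) T' hT' (fun h hh => ?_)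
    · obtain ⟨s, hs, rfl⟩ := mem_image.1 hn
      rw [hinv s hs]
      exact hw' s hs
    · refine lt_of_lt_of_eq (hT2' h hh) ?_
      congr 1
      rw [sum_image (hu2 i)]
      refine sum_congr rfl fun s hs => ?_
      rw [hinv s hs]
  · intro i h hh n hn
    rw [abs_le] at hh
    have hnN := mem_Icc.1 (hu1 i n hn)
    exact ex_abs_le (M := 2 * N) (by linarith) hnN.2 hh.2 le_rfl
      (fun m hm => thp_le (by linarith) (mem_Icc.1 hm).2)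
  · intro i h hh n hn
    rw [abs_le] at hh
    have hnN := mem_Icc.1 (hu1 i n hn)
    exact ex_abs_le (M := 2 * N) (by linarith) hnN.2 hh.2 le_rfl
      (fun m hm => lamz_abs_le (by linarith) hV)

end Pool.Agent.H579.R
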