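import Pool.Agent.H579.G.Dsp4
import Pool.Agent.H579.R.Dsp3R

set_option autoImplicit false

/-! The exceptional integers have a large radical: the version of `G/Dsp4`. -/

namespace Pool.Agent.H579.R


open Finset
open Pool.Agent.H373R2.T7
open Pool.Agent.H579.G
open Pool.Agent.H567.PP (rad)

/-- prime shifts along arbitrary sequences: numbers -/
theorem sparse_cntR (k A : ℕ) (hk : 1 ≤ k) : ∃ C : ℝ, 1 ≤ C ∧ ∀ ρ : ℝ, 0 < ρ →
    ∃ c : ℕ, ∀ A₀ : ℕ, ∃ N₀ : ℕ, ∀ N : ℕ, N₀ ≤ N →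
      ∃ D : Finset ℕ, (D.card : ℝ) ≤ Real.log N ^ c ∧ (∀ d ∈ D, Real.log N ^ A₀ < (rad d : ℝ)) ∧
      ∀ q : Fin k → ℕ, (∀ i, 1 ≤ q i ∧ (q i : ℝ) ≤ (N : ℝ) ^ (2 / 3 - ρ) ∧ ∀ d ∈ D, ¬ d ∣ q i) →
      ∀ w : ℕ, 1 ≤ w → (w : ℝ) ≤ Real.log N → (∀ p : ℕ, p.Prime → p ≤ w → ∀ i, p ∣ q i) →
      ∀ a : Fin k → ℤ, ∀ S : Finset ℕ, ∀ u : Fin k → ℕ → ℕ, (∀ i, ∀ s ∈ S, u i s ∈ Icc 1 N) →
      (∀ i, Set.InjOn (u i) S) → ∀ Y : ℝ, (S.card : ℝ) ≤ Y → N / Real.log N ^ A ≤ Y → ∀ η : ℝ, 0 < η → η ≤ 1 →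
      ∀ T : Finset (Fin k → ℤ), (∀ h ∈ T, ∀ i, 1 ≤ h i ∧ h i ≤ N ∧ h i ≡ a i [ZMOD q i]) →
        (∀ h ∈ T, η * (∏ i, Qf' (q i)) * (Y / Real.log N ^ k) <
          |((prsM h S u).card : ℝ) - (∏ i, Qf' (q i)) * ((copM q a S u).card / Real.log N ^ k)|) →
        (T.card : ℝ) ≤ C * Real.log (Real.log N) / (η ^ 2 * w) * ∏ i, ((N : ℝ) / q i) := by
  classical
  obtain ⟨C, hC, h1⟩ := sparseWR k A hk
  have h2k : (1 : ℝ) ≤ 2 ^ k := one_le_pow₀ (by norm_num)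
  have hCk : C ≤ 2 ^ k * C := by nlinarith
  have hCk2 : (2 : ℝ) ^ k ≤ 2 ^ k * C := by nlinarith
  refine ⟨16 * (2 ^ k * C), by nlinarith, fun ρ hρ => ?_⟩
  obtain ⟨c, h2⟩ := h1 ρ hρ
  refine ⟨c, fun A₀ => ?_⟩
  obtain ⟨n1, h3⟩ := h2 A₀
  obtain ⟨n2, h4⟩ := cnt_of_sumR k A
  obtain ⟨n3, h5⟩ := Filter.eventually_atTop.1 (Pool.Agent.Y614.GJ.Core.ev_log 1 (s := 1) (by norm_num) (3 : ℝ))
  refine ⟨n1 + n2 + n3 + 3, fun N hN => ?_⟩
  obtain ⟨D, hD1, hD2, hD3⟩ := h3 N (by omega)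
  refine ⟨D, hD1, hD2, fun q hq w hw1 hwL hwq a S u hu1 hu2 Y hSY hYN η hη0 hη1 T hT hT2 => ?_⟩
  obtain ⟨hL3, -⟩ := h5 N (by omega)
  have hN0 : (0 : ℝ) < N := by exact_mod_cast (by omega : 0 < N)
  have hN1 : (1 : ℝ) ≤ N := by exact_mod_cast (by omega : 1 ≤ N)
  have hw0 : (0 : ℝ) < w := by exact_mod_cast hw1
  have hL0 : 0 < Real.log N := by linarith
  obtain ⟨l, hl⟩ : ∃ l, l = Real.log (Real.log N) := ⟨_, rfl⟩
  have hl1 : 1 ≤ l := by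
    rw [hl]
    have h7 : Real.exp 1 ≤ Real.log N := by
      have := Real.exp_one_lt_d9
      linarith
    have := Real.log_le_log (Real.exp_pos 1) h7
    rwa [Real.log_exp] at this
  have hq0 : ∀ i, (0 : ℝ) < q i := fun i => by exact_mod_cast (hq i).1
  have hqN1 : ∀ i, (q i : ℝ) ≤ N := fun i => by
    refine (hq i).2.1.trans ?_
    calc (N : ℝ) ^ (2 / 3 - ρ) ≤ (N : ℝ) ^ (1 : ℝ) := Real.rpow_le_rpow_of_exponent_le hN1 (by linarith)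
      _ = N := Real.rpow_one _
  have hTb := box_card (fun i => ⟨(hq i).1, by exact_mod_cast hqN1 i⟩) hT
  have hPi0 : 0 < ∏ i, ((N : ℝ) / q i) := prod_pos fun i _ => div_pos hN0 (hq0 i)
  have htriv : (2 : ℝ) ^ k ≤ 16 * (2 ^ k * C) * Real.log (Real.log N) / (η ^ 2 * w) →
      (T.card : ℝ) ≤ 16 * (2 ^ k * C) * Real.log (Real.log N) / (η ^ 2 * w) * ∏ i, ((N : ℝ) / q i) := fun h6 =>
    hTb.trans (mul_le_mul_of_nonneg_right h6 hPi0.le)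
  rw [← hl] at htriv ⊢
  have hη2 : η ^ 2 ≤ 1 := by nlinarith
  by_cases hηw : η ^ 2 * w ≤ l
  · refine htriv ?_
    rw [le_div_iff₀ (by positivity)]
    calc (2 : ℝ) ^ k * (η ^ 2 * w) ≤ 2 ^ k * l := by gcongr
      _ ≤ 16 * (2 ^ k * C) * l := by
          refine mul_le_mul_of_nonneg_right ?_ (by linarith)
          linarith
  by_cases hwl : (w : ℝ) < C * l
  · refine htriv ?_
    rw [le_div_iff₀ (by positivity)]
    calc (2 : ℝ) ^ k * (η ^ 2 * w) ≤ 2 ^ k * (1 * (C * l)) := by gcongr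
      _ ≤ 16 * (2 ^ k * (1 * (C * l))) := by
          have : 0 ≤ 2 ^ k * (1 * (C * l)) := by positivity
          linarith
      _ = 16 * (2 ^ k * C) * l := by ring
  rw [not_lt] at hwl
  rw [not_le] at hηw
  have hηL : 1 / Real.sqrt (Real.log N) ≤ η := by
    rw [div_le_iff₀ (Real.sqrt_pos.2 hL0)]
    have e1 : 1 ≤ (η * Real.sqrt (Real.log N)) ^ 2 := by
      rw [mul_pow, Real.sq_sqrt hL0.le]
      have : η ^ 2 * w ≤ η ^ 2 * Real.log N := by gcongr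
      linarith
    have e2 : 0 ≤ η * Real.sqrt (Real.log N) := by positivity
    nlinarith
  have hΘ1 : 1 ≤ ∏ i, Qf' (q i) := by
    calc (1 : ℝ) = ∏ _i : Fin k, (1 : ℝ) := by simp
      _ ≤ _ := prod_le_prod (fun _ _ => zero_le_one) fun i _ =>
        (Qz_bd 1 (q i)).1.trans (Qf'_bd le_rfl (hq i).1).1
  have h6 := hD3 q hq w (by rw [← hl]; exact hwl) hwL hwq a S u hu1 hu2 Y hSY hYN (η / 4) (by linarith) (by linarith) T hT
    (fun h hh => by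
      by_contra hcon
      rw [not_lt] at hcon
      have e1 : ((copM q a S u).card : ℝ) ≤ Y := by
        refine le_trans ?_ hSY
        have : (copM q a S u).card ≤ S.card := by
          unfold copM
          exact card_le_card (filter_subset _ _)
        exact_mod_cast this
      have e2 := h4 N (by omega) h (fun i => ⟨(hT h hh i).1, (hT h hh i).2.1⟩) S u hu1 hu2 (∏ i, Qf' (q i))
        (copM q a S u).card η Y hΘ1 (Nat.cast_nonneg _) e1 hYN hηL hη1 hcon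
      linarith [hT2 h hh])
  rw [← hl] at h6
  refine h6.trans (mul_le_mul_of_nonneg_right ?_ hPi0.le)
  have e3 : C * l / ((η / 4) ^ 2 * w) = 16 * C * l / (η ^ 2 * w) := by
    field_simp
    ring
  rw [e3]
  refine div_le_div_of_nonneg_right ?_ (by positivity)
  calc 16 * C * l ≤ 16 * (2 ^ k * C) * l := by gcongr
    _ = _ := rfl

end Pool.Agent.H579.R
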