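import Pool.Agent.H579.G.Dsp5
import Pool.Agent.H579.R.Dsp4R

set_option autoImplicit false

/-! The exceptional integers have a large radical: the version of `G/Dsp5`. -/

namespace Pool.Agent.H579.R


open Finset
open Pool.Agent.H373R2.T7
open Pool.Agent.H579.G
open Pool.Agent.H567.PP (rad)

/-- prime shifts along arbitrary sequences: natural numbers -/
theorem sparse_natR (k A : ℕ) (hk : 1 ≤ k) : ∃ C : ℝ, 1 ≤ C ∧ ∀ ρ : ℝ, 0 < ρ →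
    ∃ c : ℕ, ∀ B : ℕ, ∃ N₀ : ℕ, ∀ N : ℕ, N₀ ≤ N →
      ∃ D : Finset ℕ, (D.card : ℝ) ≤ Real.log N ^ c ∧ (∀ d ∈ D, Real.log N ^ B < (rad d : ℝ)) ∧
      ∀ q : Fin k → ℕ, (∀ i, 1 ≤ q i ∧ (q i : ℝ) ≤ (N : ℝ) ^ (2 / 3 - ρ) ∧ ∀ d ∈ D, ¬ d ∣ q i) →
      ∀ w : ℕ, 1 ≤ w → (w : ℝ) ≤ Real.log N → (∀ p : ℕ, p.Prime → p ≤ w → ∀ i, p ∣ q i) →
      ∀ a : Fin k → ℕ, ∀ S : Finset ℕ, ∀ u : Fin k → ℕ → ℕ, (∀ i, ∀ s ∈ S, u i s ∈ Icc 1 N) →
      (∀ i, Set.InjOn (u i) S) → ∀ Y : ℝ, (S.card : ℝ) ≤ Y → N / Real.log N ^ A ≤ Y → ∀ η : ℝ, 0 < η → η ≤ 1 →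
        ((excN η Y N S u q a).card : ℝ) ≤ C * Real.log (Real.log N) / (η ^ 2 * w) * ∏ i, ((N : ℝ) / q i) := by
  classical
  obtain ⟨C, hC, h1⟩ := sparse_cntR k A hk
  refine ⟨C, hC, fun ρ hρ => ?_⟩
  obtain ⟨c, h2⟩ := h1 ρ hρ
  refine ⟨c, fun B => ?_⟩
  obtain ⟨N₀, h3⟩ := h2 B
  refine ⟨N₀, fun N hN => ?_⟩
  obtain ⟨D, hD1, hD2, hD3⟩ := h3 N hN
  refine ⟨D, hD1, hD2, fun q hq w hw1 hwL hwq a S u hu1 hu2 Y hSY hYN η hη0 hη1 => ?_⟩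
  have hinj : Function.Injective (fun (h : Fin k → ℕ) (i : Fin k) => ((h i : ℕ) : ℤ)) := by
    intro h h' e
    funext i
    have := congrFun e i
    dsimp only at this
    exact_mod_cast this
  have h4 := hD3 q hq w hw1 hwL hwq (fun i => (a i : ℤ)) S u hu1 hu2 Y hSY hYN η hη0 hη1
    ((excN η Y N S u q a).image (fun (h : Fin k → ℕ) (i : Fin k) => ((h i : ℕ) : ℤ)))
    (by
      intro h hh i
      obtain ⟨g, hg, rfl⟩ := mem_image.1 hh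
      unfold excN at hg
      rw [mem_filter, Fintype.mem_piFinset] at hg
      have e1 := mem_Icc.1 (hg.1 i)
      dsimp only
      refine ⟨by exact_mod_cast e1.1, by exact_mod_cast e1.2, ?_⟩
      exact Int.natCast_modEq_iff.2 (hg.2.1 i))
    (by
      intro h hh
      obtain ⟨g, hg, rfl⟩ := mem_image.1 hh
      unfold excN at hg
      rw [mem_filter] at hg
      have e1 : (∏ i, Qf' (q i)) = den q := rfl
      rw [prsM_nat, copM_nat, e1]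
      exact hg.2.2)
  rwa [card_image_of_injective _ hinj] at h4

end Pool.Agent.H579.R
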