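import Pool.Agent.H579.G.Dsp6
import Pool.Agent.H579.R.Dsp5R

set_option autoImplicit false

/-! The exceptional integers have a large radical: the version of `G/Dsp6`. -/

namespace Pool.Agent.H579.R


open Finset
open Pool.Agent.H373R2.T7
open Pool.Agent.H579.G
open Pool.Agent.H567.PP (rad)

/-- common summands from arbitrary sets: numbers -/
theorem common_natR (k A : ℕ) (hk : 1 ≤ k) : ∃ C : ℝ, 1 ≤ C ∧ ∀ ρ : ℝ, 0 < ρ →
    ∃ c : ℕ, ∀ B : ℕ, ∃ x₀ : ℕ, ∀ x : ℕ, x₀ ≤ x →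
      ∃ D : Finset ℕ, (D.card : ℝ) ≤ Real.log x ^ c ∧ (∀ d ∈ D, Real.log x ^ B < (rad d : ℝ)) ∧
      ∀ q : Fin k → ℕ, (∀ i, 1 ≤ q i ∧ (q i : ℝ) ≤ (x : ℝ) ^ (2 / 3 - ρ) ∧ ∀ d ∈ D, ¬ d ∣ q i) →
      ∀ w : ℕ, 1 ≤ w → (w : ℝ) ≤ Real.log x → (∀ p : ℕ, p.Prime → p ≤ w → ∀ i, p ∣ q i) →
      ∀ r : Fin k → ℕ, ∀ S ⊆ Icc 1 x, ∀ Y : ℝ, (S.card : ℝ) ≤ Y → x / Real.log x ^ A ≤ Y → ∀ η : ℝ, 0 < η → η ≤ 1 →
        ((excG (den q * ((lcs S q r).card / Real.log x ^ k)) (η * den q * (Y / Real.log x ^ k)) x S q r).card : ℝ) ≤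
          C * Real.log (Real.log x) / (η ^ 2 * w) * ∏ i, ((x : ℝ) / q i) := by
  classical
  obtain ⟨C, hC, h1⟩ := sparse_natR k A hk
  refine ⟨C, hC, fun ρ hρ => ?_⟩
  obtain ⟨c, h2⟩ := h1 ρ hρ
  refine ⟨c, fun B => ?_⟩
  obtain ⟨x₀, h3⟩ := h2 B
  refine ⟨x₀, fun x hx => ?_⟩
  obtain ⟨D, hD1, hD2, hD3⟩ := h3 x hx
  refine ⟨D, hD1, hD2, fun q hq w hw1 hwL hwq r S hS Y hSY hYN η hη0 hη1 => ?_⟩
  have hq1 : ∀ i, 1 ≤ q i := fun i => (hq i).1
  have h4 := hD3 q hq w hw1 hwL hwq (cls x q r) S (refl k x)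
    (by
      intro i s hs
      have := mem_Icc.1 (hS hs)
      unfold Pool.Agent.H579.G.refl
      exact mem_Icc.2 ⟨by omega, by omega⟩)
    (by
      intro i s hs t ht e
      have k1 := mem_Icc.1 (hS (mem_coe.1 hs))
      have k2 := mem_Icc.1 (hS (mem_coe.1 ht))
      unfold Pool.Agent.H579.G.refl at e
      omega) Y hSY hYN η hη0 hη1
  refine le_trans ?_ h4
  apply Nat.cast_le.2
  refine card_le_card_of_injOn (fun N i => N i - (x + 1)) (fun N hN => ?_) (fun N hN N' hN' e => ?_)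
  · rw [mem_coe] at hN
    unfold excG at hN
    rw [mem_filter, Fintype.mem_piFinset] at hN
    obtain ⟨e1, e2, e3⟩ := hN
    have e4 : ∀ i, x + 2 ≤ N i ∧ N i ≤ 2 * x + 1 := fun i => mem_Icc.1 (e1 i)
    rw [mem_coe]
    unfold excN
    rw [mem_filter, Fintype.mem_piFinset]
    refine ⟨fun i => ?_, fun i => cls_mod hq1 (fun i => (e4 i).1) i (e2 i), ?_⟩
    · have := e4 i
      dsimp only
      exact mem_Icc.2 ⟨by omega, by omega⟩
    rw [cls_cop hq1 S hS]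
    have e5 : prN S (refl k x) (fun i => N i - (x + 1)) = cmn S N := by
      unfold prN cmn
      refine filter_congr fun s hs => forall_congr' fun i => ?_
      have k1 := mem_Icc.1 (hS hs)
      have e6 : refl k x i s + (N i - (x + 1)) = N i - s := by
        unfold Pool.Agent.H579.G.refl
        have := e4 i
        omega
      rw [e6]
    rw [e5]
    exact e3
  · rw [mem_coe] at hN hN'
    unfold excG at hN hN'
    rw [mem_filter, Fintype.mem_piFinset] at hN hN'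
    funext i
    have k1 := mem_Icc.1 (hN.1 i)
    have k2 := mem_Icc.1 (hN'.1 i)
    have k3 := congrFun e i
    dsimp only at k3
    omega

end Pool.Agent.H579.R
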