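import Pool.Agent.H579.G.FormsF
import Pool.Agent.H579.R.PFR

set_option autoImplicit false

/-! The exceptional integers have a large radical: the version of `G/FormsF`. -/

namespace Pool.Agent.H579.R


open Finset
open Pool.Agent.T6.H3.FF
open Pool.Agent.H373R2.T7 (lamz Vz pz Vz_pos Vz_inv_small)
open Pool.Agent.Y883.T3 (lsh)
open Pool.Agent.Y883.GJ
open Pool.Agent.R460.GS (tr cl_tr)
open Pool.Agent.W93.PG (lamz_nn)
open Pool.Agent.Y614.GJ.Core (P ev_log)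
open Pool.Agent.H579.L (cor ms2 wt2 cor_wt2 wt2_sq wt2_dvd)
open Pool.Agent.H579.G
open Pool.Agent.H567.PP (rad)

theorem formsPR {ρ : ℝ} (hρ : 0 < ρ) (hρ5 : ρ < 1 / 5) (A : ℕ) :
    ∃ c : ℕ, ∀ A₀ : ℕ, ∃ B : ℕ, ∀ E : ℕ, ∃ N₀ : ℕ, ∀ N : ℕ, N₀ ≤ N →
      ∃ D : Finset ℕ, (D.card : ℝ) ≤ Real.log N ^ c ∧ (∀ d ∈ D, Real.log N ^ A₀ < (rad d : ℝ)) ∧
      ∀ z : ℕ, Real.log N ^ B ≤ z → (z : ℝ) ≤ Real.log N ^ E →
      ∀ q M : ℕ, 1 ≤ q → 1 ≤ M → N = 2 * q * M → (q : ℝ) ≤ (N : ℝ) ^ (4 / 5 - ρ) → (∀ d ∈ D, ¬ d ∣ q) →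
      ∀ S : Finset ℕ, S ⊆ Icc 1 M →
        (((Icc 1 (q * M)).filter (fun b => Real.log N * ((S.filter (fun m => (q * m + b).Prime)).card : ℝ) <
          138 / 1000 * ∑ m ∈ S, lamz z (q * m + b) - M / Real.log N ^ A)).card : ℝ) ≤
            ((q * M : ℕ) : ℝ) / Real.log N ^ A := by
  classical
  obtain ⟨V, hV⟩ : ∃ V, V = 2 * A + 3 := ⟨_, rfl⟩
  obtain ⟨c, hc⟩ := PF_allR (3 * A + 3) (V + 6) ρ hρ hρ5
  refine ⟨c, fun A₀ => ?_⟩
  obtain ⟨B, hB⟩ := hc A₀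
  refine ⟨B, fun E => ?_⟩
  obtain ⟨N₁, h1⟩ := hB E
  obtain ⟨N₂, h2⟩ := pt_lower V E
  obtain ⟨N₃, h3⟩ := Filter.eventually_atTop.1 (ev_log 1 (s := 1) (by norm_num) 100)
  refine ⟨N₁ + N₂ + N₃ + 1, fun N hN => ?_⟩
  obtain ⟨D, hD1, hD2, hD3⟩ := h1 N (by omega)
  obtain ⟨hL100, -⟩ := h3 N (by omega)
  refine ⟨D, hD1, hD2, fun z hz1 hz2 q M hq1 hM1 hNqM hqN hqD S hS => ?_⟩
  obtain ⟨r, hPar, hsum, hP⟩ := hD3 z hz1 hz2
  have hLL1 : 1 ≤ Real.log N := by linarith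
  have hz1' : 1 ≤ z := by
    have : (1 : ℝ) ≤ z := (one_le_pow₀ hLL1).trans hz1
    exact_mod_cast this
  obtain ⟨err, he0, hes, hept⟩ := h2 N (by omega) z r hz1' hz2 hsum
  have : NeZero q := ⟨by omega⟩
  have hN1 : 1 ≤ N := by omega
  obtain ⟨L, hL⟩ : ∃ L, L = Real.log (N : ℝ) := ⟨_, rfl⟩
  rw [← hL] at hL100 hLL1 hes hept ⊢
  have hL0 : 0 < L := by linarith
  obtain ⟨X, hX⟩ : ∃ X : ℝ, X = (N : ℝ) ^ 2 / (q * L ^ (3 * A + 3)) := ⟨_, rfl⟩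
  have hPX : ∀ β : ℝ, P q N (fm N z r) β ≤ X := by
    intro β
    have := hP q hqN hqD β N le_rfl
    rw [P_tr le_rfl, ← hL, ← hX] at this
    exact this
  have hq0 : (0 : ℝ) < q := by exact_mod_cast hq1
  have hM0 : (0 : ℝ) < M := by exact_mod_cast hM1
  have hNr : (N : ℝ) = 2 * (q * M) := by rw [hNqM]; push_cast; ring
  -- the weight
  obtain ⟨w, hw⟩ : ∃ w : ℕ → ℂ, w = fun m => if m ∈ S then 1 else 0 := ⟨_, rfl⟩
  have hw1 : ∀ n, ‖w n‖ ≤ 1 := by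
    intro n
    rw [hw]
    simp only
    split_ifs <;> simp
  have hX0 : 0 ≤ X := by rw [hX]; positivity
  have hms := ms2 (q := q) hN1 (fm N z r) (wt2 w q M) hPX (fun n hn => wt2_dvd hn)
  have hms2 : ∑ b ∈ Icc 1 (q * M), ‖∑ m ∈ Icc 1 M, w m * fm N z r (q * m + b)‖ ^ 2 ≤ X * M := by
    have e1 : ∀ b ∈ Icc 1 (q * M), ‖∑ m ∈ Icc 1 M, w m * fm N z r (q * m + b)‖ ^ 2 =
        ‖cor N (fm N z r) (wt2 w q M) (b : ℤ)‖ ^ 2 := by
      intro b hb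
      rw [mem_Icc] at hb
      rw [cor_wt2 (fm N z r) w hq1 (by rw [hNqM]; linarith [hb.2])]
    rw [sum_congr rfl e1]
    have e2 : ∑ b ∈ Icc 1 (q * M), ‖cor N (fm N z r) (wt2 w q M) (b : ℤ)‖ ^ 2 ≤
        ∑ k ∈ Icc (-(N : ℤ)) N, ‖cor N (fm N z r) (wt2 w q M) k‖ ^ 2 := by
      rw [← sum_image (f := fun k : ℤ => ‖cor N (fm N z r) (wt2 w q M) k‖ ^ 2) (g := fun b : ℕ => (b : ℤ))
        (s := Icc 1 (q * M)) (fun x _ y _ hxy => by
          simp only at hxy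
          exact_mod_cast hxy)]
      refine sum_le_sum_of_subset_of_nonneg (fun k hk => ?_) fun k _ _ => by positivity
      rw [mem_image] at hk
      obtain ⟨b, hb, rfl⟩ := hk
      rw [mem_Icc] at hb ⊢
      have : 2 * q * M = q * M + q * M := by ring
      omega
    refine e2.trans (hms.trans ?_)
    exact mul_le_mul_of_nonneg_left (wt2_sq hw1 N M hq1) hX0
  -- the sums over `S`
  obtain ⟨Φ, hΦ⟩ : ∃ Φ : ℕ → ℝ, Φ = fun b => ∑ m ∈ S, gR N z r (q * m + b) := ⟨_, rfl⟩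
  have hΦe : ∀ b, ∑ m ∈ Icc 1 M, w m * fm N z r (q * m + b) = ((Φ b : ℝ) : ℂ) := by
    intro b
    rw [hΦ, hw]
    simp only [ite_mul, one_mul, zero_mul]
    rw [← sum_filter]
    have : (Icc 1 M).filter (fun m => m ∈ S) = S := by
      ext m
      rw [mem_filter]
      exact ⟨fun h => h.2, fun h => ⟨hS h, h⟩⟩
    rw [this]
    push_cast
    exact sum_congr rfl fun m _ => fm_eq _ _ _ _
  obtain ⟨Er, hEr⟩ : ∃ Er : ℕ → ℝ, Er = fun b => ∑ m ∈ S, err (q * m + b) := ⟨_, rfl⟩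
  have hErs : ∑ b ∈ Icc 1 (q * M), Er b ≤ M * (N / L ^ V) := by
    rw [hEr]
    refine (sum_forms hS he0).trans ?_
    rw [← hNqM]
    exact mul_le_mul_of_nonneg_left hes hM0.le
  obtain ⟨t, ht⟩ : ∃ t : ℝ, t = M / L ^ A / 2 := ⟨_, rfl⟩
  have ht0 : 0 < t := by rw [ht]; positivity
  have hsub : (Icc 1 (q * M)).filter (fun b => L * ((S.filter (fun m => (q * m + b).Prime)).card : ℝ) <
      138 / 1000 * ∑ m ∈ S, lamz z (q * m + b) - M / L ^ A) ⊆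
      (Icc 1 (q * M)).filter (fun b => t ≤ Er b) ∪
        (Icc 1 (q * M)).filter (fun b => t ^ 2 ≤ ‖∑ m ∈ Icc 1 M, w m * fm N z r (q * m + b)‖ ^ 2) := by
    intro b hb
    rw [mem_filter] at hb
    obtain ⟨hb1, hb2⟩ := hb
    rw [mem_union, mem_filter, mem_filter]
    by_contra hcon
    push Not at hcon
    have c1 := hcon.1 hb1
    have c2 := hcon.2 hb1
    rw [hΦe, Complex.norm_real, Real.norm_eq_abs] at c2
    have c3 : |Φ b| < t := lt_of_pow_lt_pow_left₀ 2 ht0.le c2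
    have c4 := (abs_lt.1 c3).1
    have hbI := mem_Icc.1 hb1
    have k1 : ∑ m ∈ S, (139 / 1000 * lamz z (q * m + b) + 999 / 1000 * gR N z r (q * m + b) - err (q * m + b)) ≤
        ∑ m ∈ S, if (q * m + b).Prime then L else 0 := by
      refine sum_le_sum fun m hm => hept _ ?_
      have hmM := mem_Icc.1 (hS hm)
      have k2 : q * m ≤ q * M := Nat.mul_le_mul_left q hmM.2
      have k3 : 2 * q * M = q * M + q * M := by ring
      rw [mem_Icc]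
      omega
    rw [sum_sub_distrib, sum_add_distrib, ← mul_sum, ← mul_sum, ← sum_filter, sum_const, nsmul_eq_mul] at k1
    have k4 : Φ b = ∑ m ∈ S, gR N z r (q * m + b) := by rw [hΦ]
    have k5 : Er b = ∑ m ∈ S, err (q * m + b) := by rw [hEr]
    rw [← k4, ← k5] at k1
    have k6 : 0 ≤ ∑ m ∈ S, lamz z (q * m + b) := sum_nonneg fun m _ => lamz_nn z _
    have k7 : 2 * t = M / L ^ A := by rw [ht]; ring
    rw [← k7] at hb2
    linarith
  have hc1 : (((Icc 1 (q * M)).filter (fun b => t ≤ Er b)).card : ℝ) ≤ M * (N / L ^ V) / t :=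
    card_big ht0 hErs (fun b _ => by
      rw [hEr]
      exact sum_nonneg fun m _ => he0 _)
  have hc2 : (((Icc 1 (q * M)).filter (fun b => t ^ 2 ≤ ‖∑ m ∈ Icc 1 M, w m * fm N z r (q * m + b)‖ ^ 2)).card : ℝ) ≤
      X * M / t ^ 2 :=
    card_big (f := fun b => ‖∑ m ∈ Icc 1 M, w m * fm N z r (q * m + b)‖ ^ 2) (by positivity) hms2
      (fun b _ => by positivity)
  have hc3 : ((((Icc 1 (q * M)).filter (fun b => L * ((S.filter (fun m => (q * m + b).Prime)).card : ℝ) <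
      138 / 1000 * ∑ m ∈ S, lamz z (q * m + b) - M / L ^ A)).card : ℕ) : ℝ) ≤
      M * (N / L ^ V) / t + X * M / t ^ 2 := by
    have := (card_le_card hsub).trans (card_union_le _ _)
    have h' : ((((Icc 1 (q * M)).filter (fun b => L * ((S.filter (fun m => (q * m + b).Prime)).card : ℝ) <
      138 / 1000 * ∑ m ∈ S, lamz z (q * m + b) - M / L ^ A)).card : ℕ) : ℝ) ≤
        (((Icc 1 (q * M)).filter (fun b => t ≤ Er b)).card : ℝ) +
        (((Icc 1 (q * M)).filter (fun b => t ^ 2 ≤ ‖∑ m ∈ Icc 1 M, w m * fm N z r (q * m + b)‖ ^ 2)).card : ℝ) := by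
      exact_mod_cast this
    linarith
  refine hc3.trans ?_
  have e1 : (M : ℝ) * (N / L ^ V) / t = (q * M) / L ^ A * (4 / L ^ 3) := by
    rw [ht, hNr, hV, show 2 * A + 3 = A + A + 3 by ring, pow_add, pow_add]
    field_simp
    ring
  have e2 : X * M / t ^ 2 = (q * M) / L ^ A * (16 / L ^ 3) := by
    rw [ht, hX, hNr, show 3 * A + 3 = A + A + A + 3 by ring, pow_add, pow_add, pow_add]
    field_simp
    ring
  rw [e1, e2]
  have e3 : 4 / L ^ 3 + 16 / L ^ 3 ≤ 1 := by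
    rw [← add_div, div_le_one (by positivity)]
    calc (4 + 16 : ℝ) ≤ L := by linarith
      _ ≤ L ^ 3 := le_self_pow₀ hLL1 (by norm_num)
  push_cast
  have e4 : 0 ≤ ((q : ℝ) * M) / L ^ A := by positivity
  nlinarith

end Pool.Agent.H579.R
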