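import Pool.Agent.H579.L.Liou
import Pool.Agent.H579.R.BdR

set_option autoImplicit false

/-! The Liouville function is constant on the primes. -/

namespace Pool.Agent.H579.R

open Pool.Agent.H579.L

lemma cp_lio : CP lio := by
  intro p hp
  rw [lio_eq hp.ne_zero, lio_eq (by norm_num), ArithmeticFunction.cardFactors_apply_prime hp,
    ArithmeticFunction.cardFactors_apply_prime Nat.prime_two]

end Pool.Agent.H579.R
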