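import Pool.Agent.H579.L.PB2
import Pool.Agent.H579.R.BdR

set_option autoImplicit false

/-! The exceptional integers have a large radical: the version of `L/PB2`. -/

namespace Pool.Agent.H579.R


open Finset
open Pool.Agent.Y883.GJ
open Pool.Agent.H807R2.Dav (ee)
open Pool.Agent.Y614.GJ.Core (P P_nonneg ev_log dirich)
open Pool.Agent.R460.GR (dl Bd)
open Pool.Agent.H579.L
open Pool.Agent.H567.PP (rad)

/-- the main estimate -/
theorem PBndR (A : ℕ) {ρ κ₁ κ₂ : ℝ} (hρ : 0 < ρ) (hρ1 : ρ < 1) (h1 : 0 < κ₁) (h2 : κ₁ ≤ κ₂) (h3 : κ₂ ≤ ρ / 8) :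
    ∃ c : ℕ, ∀ A₀ : ℕ, ∃ K U' N₀ : ℕ, ∀ N : ℕ, N₀ ≤ N → ∀ g : ℕ → ℂ, Cm g → CP g → SwAt N K U' g →
    ∃ D : Finset ℕ, (D.card : ℝ) ≤ Real.log N ^ c ∧ (∀ d ∈ D, Real.log N ^ A₀ < (rad d : ℝ)) ∧
    ∀ (q : ℕ) [NeZero q], (q : ℝ) ≤ (N : ℝ) ^ (1 - ρ) → (∀ d ∈ D, ¬ d ∣ q) → ∀ β : ℝ,
      P q N (cnv (ap N κ₁ κ₂ g q) g) β ≤ (N : ℝ) ^ 2 / (q * Real.log N ^ A) := by
  have h0 : 0 ≤ κ₂ := by linarith
  obtain ⟨σ, hσd⟩ : ∃ σ : ℝ, σ = κ₁ / 16 := ⟨_, rfl⟩
  have hσ : 0 < σ := by rw [hσd]; positivity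
  have hσ4 : 4 * σ ≤ κ₁ := by rw [hσd]; linarith
  have hσ5 : 4 * σ ≤ 1 / 4 := by rw [hσd]; linarith
  obtain ⟨C₁, N₁, hmin⟩ := minU (A + 4) (κ₁ := κ₁) (κ₂ := 2 * κ₂) (θ := 1 - ρ / 2) h1 (by linarith) (by linarith)
  obtain ⟨C, hC⟩ : ∃ C, C = C₁ + 1 := ⟨_, rfl⟩
  obtain ⟨C₃, N₂, hmaj⟩ := majU (A + 5) (C + 1) (κ₁ := κ₁) (κ₂ := 2 * κ₂) (θ := 1 - ρ / 2) h1 (by linarith)
    (by linarith) (by linarith)
  obtain ⟨U₁, hU₁⟩ : ∃ U₁, U₁ = C₃ + A + 4 := ⟨_, rfl⟩
  obtain ⟨K₂, K', U', N₃, hreg⟩ := regC U₁ C (κ₁ := κ₁) (κ₂ := κ₂) (σ := σ) h1 h0 (by linarith) hσ hσ4 hσ5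
  obtain ⟨C₄, N₄, hcnt⟩ := countJ K₂ K' (κ₁ := κ₁) (κ₂ := κ₂) h1 (by linarith)
  obtain ⟨N₅, hPs⟩ := Psum A (δ := σ / 2) (by positivity)
  obtain ⟨N₆, hN₆⟩ := Filter.eventually_atTop.1 (ev_log (C + 1) (s := ρ / 2) (by positivity) (16 + 2 ^ (A + 6) + 2 ^ (C + 1)))
  obtain ⟨N₇, hN₇⟩ := Filter.eventually_atTop.1 (ev_log C (s := κ₁) h1 1)
  obtain ⟨N₈, hN₈⟩ := Filter.eventually_atTop.1 (ev_log 1 (s := σ / 2) (by positivity) 1)
  refine ⟨C₄ + C, fun A₀ => ?_⟩
  obtain ⟨Nb, hNb⟩ := not_bd (A₀ + C) K₂ K' (κ₁ := κ₁) (κ₂ := κ₂) h1 (by linarith)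
  refine ⟨A₀ + C + 1, U', (max (max ((N₁ + 1) ^ 2) ((N₂ + 1) ^ 2)) (max (max N₃ N₄) (max (max N₅ N₆)
    (max N₇ (max N₈ 1))))) + Nb, ?_⟩
  intro N hN₀ g hg hcp hSw
  have hN := le_trans (Nat.le_add_right _ Nb) hN₀
  have hNNb : Nb ≤ N := le_trans (Nat.le_add_left _ _) hN₀
  have hNN₁ : (N₁ + 1) ^ 2 ≤ N := le_trans (le_trans (le_max_left _ _) (le_max_left _ _)) hN
  have hNN₂ : (N₂ + 1) ^ 2 ≤ N := le_trans (le_trans (le_max_right _ _) (le_max_left _ _)) hN
  have hN' := le_trans (le_max_right _ _) hN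
  have hNN₃ : N₃ ≤ N := le_trans (le_trans (le_max_left _ _) (le_max_left _ _)) hN'
  have hNN₄ : N₄ ≤ N := le_trans (le_trans (le_max_right _ _) (le_max_left _ _)) hN'
  have hN'' := le_trans (le_max_right _ _) hN'
  have hNN₅ : N₅ ≤ N := le_trans (le_trans (le_max_left _ _) (le_max_left _ _)) hN''
  have hNN₆ : N₆ ≤ N := le_trans (le_trans (le_max_right _ _) (le_max_left _ _)) hN''
  have hN''' := le_trans (le_max_right _ _) hN''
  have hNN₇ : N₇ ≤ N := le_trans (le_max_left _ _) hN'''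
  have hNN₈ : N₈ ≤ N := le_trans (le_trans (le_max_left _ _) (le_max_right _ _)) hN'''
  have hN1 : 1 ≤ N := le_trans (le_trans (le_max_right _ _) (le_max_right _ _)) hN'''
  obtain ⟨hLbig, hLC⟩ := hN₆ N hNN₆
  obtain ⟨-, hLκ⟩ := hN₇ N hNN₇
  obtain ⟨-, hLσ⟩ := hN₈ N hNN₈
  rw [pow_one] at hLσ
  have hN0 : (0 : ℝ) < N := by exact_mod_cast hN1
  have hNr1 : (1 : ℝ) ≤ N := by exact_mod_cast hN1
  have hpA : (0 : ℝ) < 2 ^ (A + 6) := by positivity
  have hpC : (0 : ℝ) < 2 ^ (C + 1) := by positivity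
  have hL16 : 16 ≤ Real.log N := by linarith
  have hL1 : 1 ≤ Real.log N := by linarith
  refine ⟨E2 N (A₀ + C + 1) C (fun d ψ => Bd N K₂ K' (ap N κ₁ κ₂ g 1) d ψ), ?_,
    fun d hd => E2_rad (by linarith) rfl (hNb N hNNb g hg hcp) hd, ?_⟩
  · refine E2_card hL1 (E1_card _ fun Ψ hΨ => ?_)
    exact hcnt N hNN₄ _ g (cf_ap hg N κ₁ κ₂ 1) Ψ hΨ
  intro q _ hq hqD β
  have hq1 : 1 ≤ q := NeZero.pos q
  have hq0 : (0 : ℝ) < q := by exact_mod_cast hq1
  have hcf := cf_ap hg N κ₁ κ₂ q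
  obtain ⟨F, hFd⟩ : ∃ F, F = cnv (ap N κ₁ κ₂ g q) g := ⟨_, rfl⟩
  obtain ⟨L, hLd⟩ : ∃ L, L = Real.log (N : ℝ) := ⟨_, rfl⟩
  have hFle : ∀ n, ‖F n‖ ≤ (n.divisors.card : ℝ) := fun n => by
    rw [hFd]
    exact F_le hg N κ₁ κ₂ q n
  have hscale : ∀ e : ℕ, 1 ≤ e → (e : ℝ) ≤ (N : ℝ) ^ (σ / 2) → Scale N e (N / e) L σ := fun e he heN =>
    scale_mk hLd hσ (by linarith) he hN1 heN (by linarith)
  have hcop : ∀ p, Pp N κ₁ κ₂ q p → ∀ k : ℕ, 1 ≤ k → (k : ℝ) ≤ Real.log N ^ C → ¬ p ∣ k * q := by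
    intro p hp k hk1 hk hdvd
    rcases hp.1.dvd_mul.1 hdvd with h | h
    · have h4 : (p : ℝ) ≤ k := by exact_mod_cast Nat.le_of_dvd hk1 h
      have h5 := hp.2.1
      linarith
    · exact hp.2.2.2 h
  rw [← hFd]
  have hlogM : ∀ {e : ℕ}, Scale N e (N / e) L σ → ∀ B : ℕ, (2 : ℝ) ^ (B + 1) ≤ L → L ^ B ≤ Real.log ((N / e : ℕ) : ℝ) ^ (B + 1) := by
    intro e hs B hB
    have hL0 : 0 < L := by
      rw [hLd]
      linarith
    calc L ^ B = L ^ (B + 1) / L := by
          rw [pow_succ]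
          field_simp
      _ ≤ L ^ (B + 1) / 2 ^ (B + 1) := by
          apply div_le_div_of_nonneg_left (by positivity) (by positivity) hB
      _ = (L / 2) ^ (B + 1) := by rw [div_pow]
      _ ≤ _ := pow_le_pow_left₀ (by positivity) hs.log1 _
  have hbigM : ∀ {e : ℕ}, Scale N e (N / e) L σ → ∀ n : ℕ, (n + 1) ^ 2 ≤ N → n ≤ N / e := by
    intro e hs n hn
    have h4 : ((n + 1 : ℕ) : ℝ) ≤ (N : ℝ) ^ (1 / 2 : ℝ) := by
      rw [← Real.sqrt_eq_rpow]
      apply Real.le_sqrt_of_sq_le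
      exact_mod_cast hn
    have h5 := h4.trans hs.half
    have h6 : n + 1 ≤ N / e := by exact_mod_cast h5
    omega
  have hlev : ∀ (q' : ℕ), (q' : ℝ) ≤ (N : ℝ) ^ (1 - ρ) * L ^ C → ∀ e : ℕ, e ∣ q' → 1 ≤ e →
      Scale N e (N / e) L σ → ((q' / e : ℕ) : ℝ) ≤ ((N / e : ℕ) : ℝ) ^ (1 - ρ / 2) := by
    intro q' hq' e hdvd he hs
    have he0 : (0 : ℝ) < e := by exact_mod_cast he
    have hM0 : (0 : ℝ) < ((N / e : ℕ) : ℝ) := by exact_mod_cast hs.one
    rw [Nat.cast_div_charZero hdvd]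
    have h4 : (N : ℝ) ^ (-(ρ / 2)) ≤ ((N / e : ℕ) : ℝ) ^ (-(ρ / 2)) :=
      Real.rpow_le_rpow_of_nonpos hM0 (by exact_mod_cast hs.le) (by linarith)
    have h5 : 2 * L ^ C ≤ (N : ℝ) ^ (ρ / 2) := by
      calc 2 * L ^ C ≤ L * L ^ C := by
            rw [hLd]
            gcongr
            linarith
        _ = L ^ (C + 1) := by ring
        _ ≤ _ := by rw [hLd]; exact hLC
    calc (q' : ℝ) / e ≤ ((N : ℝ) ^ (1 - ρ) * L ^ C) / e := by gcongr
      _ ≤ ((N : ℝ) ^ (1 - ρ) * ((N : ℝ) ^ (ρ / 2) / 2)) / e := by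
          gcongr
          linarith
      _ = ((N : ℝ) / e) / 2 * (N : ℝ) ^ (-(ρ / 2)) := by
          have e1 : (N : ℝ) ^ (1 - ρ) * (N : ℝ) ^ (ρ / 2) = (N : ℝ) * (N : ℝ) ^ (-(ρ / 2)) := by
            rw [← Real.rpow_add hN0]
            nth_rewrite 2 [← Real.rpow_one (N : ℝ)]
            rw [← Real.rpow_add hN0]
            congr 1
            ring
          calc ((N : ℝ) ^ (1 - ρ) * ((N : ℝ) ^ (ρ / 2) / 2)) / e =
              ((N : ℝ) ^ (1 - ρ) * (N : ℝ) ^ (ρ / 2)) / 2 / e := by ring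
            _ = _ := by
                rw [e1]
                ring
      _ ≤ ((N / e : ℕ) : ℝ) * ((N / e : ℕ) : ℝ) ^ (-(ρ / 2)) := by
          have := hs.low
          gcongr
          linarith
      _ = ((N / e : ℕ) : ℝ) ^ (1 - ρ / 2) := by
          nth_rewrite 1 [← Real.rpow_one ((N / e : ℕ) : ℝ)]
          rw [← Real.rpow_add hM0]
          congr 1
  have hL0 : 0 < L := by
    rw [hLd]
    linarith
  have hLC1 : 1 ≤ L ^ C := by
    rw [hLd]
    exact one_le_pow₀ hL1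
  have hqLC : (q : ℝ) * L ^ C ≤ (N : ℝ) ^ (1 - ρ) * L ^ C := by gcongr
  have hlevN : (N : ℝ) ^ (1 - ρ) * L ^ C ≤ N := by
    calc (N : ℝ) ^ (1 - ρ) * L ^ C ≤ (N : ℝ) ^ (1 - ρ) * (N : ℝ) ^ (ρ / 2) := by
          gcongr
          refine le_trans ?_ hLC
          rw [hLd]
          exact pow_le_pow_right₀ hL1 (by omega)
      _ = (N : ℝ) ^ (1 - ρ / 2) := by
          rw [← Real.rpow_add hN0]
          congr 1
          ring
      _ ≤ (N : ℝ) ^ (1 : ℝ) := Real.rpow_le_rpow_of_exponent_le hNr1 (by linarith)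
      _ = N := Real.rpow_one _
  -- Dirichlet
  set n := ⌊(N : ℝ) / (q * L ^ C)⌋₊ with hn
  have hn0 : 0 < n := by
    rw [hn, Nat.floor_pos, le_div_iff₀ (by positivity), one_mul]
    exact hqLC.trans hlevN
  have hn1 : (n : ℝ) ≤ (N : ℝ) / (q * L ^ C) := Nat.floor_le (by positivity)
  have hn2 : (N : ℝ) / (q * L ^ C) < n + 1 := Nat.lt_floor_add_one _
  obtain ⟨j, h, hj, hjc, hx⟩ := dirich ((q : ℝ) * β) hn0
  have hjn : ((j + 1 : ℕ) : ℝ) ≤ n := by exact_mod_cast hj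
  have hk0 : (0 : ℝ) < ((j + 1 : ℕ) : ℝ) := by positivity
  have hk1 : (1 : ℝ) ≤ ((j + 1 : ℕ) : ℝ) := by exact_mod_cast Nat.succ_pos j
  have hqN : q ≤ N := by
    have : (q : ℝ) ≤ N := by
      refine le_trans ?_ (hqLC.trans hlevN)
      exact le_mul_of_one_le_right hq0.le hLC1
    exact_mod_cast this
  by_cases hkC : L ^ C ≤ ((j + 1 : ℕ) : ℝ)
  · -- minor arcs
    have e1 : (q : ℝ) * ((j + 1 : ℕ) : ℝ) * L ^ C ≤ N := by
      have := (le_div_iff₀ (by positivity)).1 (hjn.trans hn1)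
      linarith
    have e2 : |(q : ℝ) * β - h / ((j + 1 : ℕ) : ℝ)| ≤ 1 / ((j + 1 : ℕ) : ℝ) ^ 2 := by
      refine hx.trans ?_
      rw [sq]
      apply one_div_le_one_div_of_le (by positivity)
      apply mul_le_mul_of_nonneg_right _ hk0.le
      linarith
    refine hPs N hNN₅ q hqN F hFle g (fun e _ => hg.bd e) (fun e he m => ?_) β ?_
    · rw [hFd]
      refine F_mul hg (fun h => ?_) (fun p hp hpe => hp.2.2.2 (hpe.trans he)) m
      rw [h, zero_dvd_iff] at he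
      omega
    · intro e he heN _
      have he1 : 1 ≤ e := Nat.pos_of_dvd_of_pos he hq1
      have he0 : (0 : ℝ) < e := by exact_mod_cast he1
      have hs := hscale e he1 heN
      have hcast : ((q / e : ℕ) : ℝ) = (q : ℝ) / e := Nat.cast_div_charZero he
      have hM0 : (0 : ℝ) < ((N / e : ℕ) : ℝ) := by exact_mod_cast hs.one
      have hlog0 : 0 ≤ Real.log ((N / e : ℕ) : ℝ) := le_trans (by positivity) hs.log1
      have f1 := hmin (N / e) (hbigM hs N₁ hNN₁) (q / e) (hlev q (by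
        calc (q : ℝ) ≤ (N : ℝ) ^ (1 - ρ) := hq
          _ ≤ (N : ℝ) ^ (1 - ρ) * L ^ C := le_mul_of_one_le_right (by positivity) hLC1) e he he1 hs)
        (ap N κ₁ κ₂ g q) g (cf_scale hN1 hcf hs h1 h0) (j + 1) h (e * β) (by
          calc Real.log ((N / e : ℕ) : ℝ) ^ C₁ ≤ L ^ C₁ := pow_le_pow_left₀ hlog0 hs.log2 _
            _ ≤ L ^ C := by
                rw [hC, hLd]
                exact pow_le_pow_right₀ hL1 (by omega)
            _ ≤ _ := hkC) (by
          have g1 : (2 : ℝ) ≤ L := by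
            rw [hLd]
            linarith
          have g2 : (q : ℝ) / e * ((j + 1 : ℕ) : ℝ) * L ^ C₁ * L ≤ ((N / e : ℕ) : ℝ) * L := by
            calc (q : ℝ) / e * ((j + 1 : ℕ) : ℝ) * L ^ C₁ * L = ((q : ℝ) * ((j + 1 : ℕ) : ℝ) * L ^ C) / e := by
                  rw [hC, pow_succ]
                  ring
              _ ≤ (N : ℝ) / e := by gcongr
              _ ≤ 2 * ((N / e : ℕ) : ℝ) := hs.low
              _ ≤ ((N / e : ℕ) : ℝ) * L := by nlinarith
          have g3 : (q : ℝ) / e * ((j + 1 : ℕ) : ℝ) * L ^ C₁ ≤ ((N / e : ℕ) : ℝ) := le_of_mul_le_mul_right g2 hL0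
          rw [hcast]
          refine le_trans ?_ g3
          have := hs.log2
          gcongr) hjc (by
          rw [hcast]
          have : (q : ℝ) / e * (e * β) = q * β := by field_simp
          rw [this]
          exact e2) (N / e) le_rfl
      rw [← hFd] at f1
      refine f1.trans ?_
      apply div_le_div_of_nonneg_left (by positivity)
      · positivity
      · rw [← hLd]
        refine hlogM hs (A + 3) ?_
        calc (2 : ℝ) ^ (A + 3 + 1) ≤ 2 ^ (A + 6) := pow_le_pow_right₀ (by norm_num) (by omega)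
          _ ≤ L := by
              rw [hLd]
              linarith
  · -- major arcs
    rw [not_le] at hkC
    have hηle : |β - h / (((j + 1) * q : ℕ) : ℝ)| ≤ L ^ C / N := by
      have e1 : β - h / (((j + 1) * q : ℕ) : ℝ) = ((q : ℝ) * β - h / ((j + 1 : ℕ) : ℝ)) / q := by
        rw [Nat.cast_mul]
        field_simp
      rw [e1, abs_div, abs_of_pos hq0, div_le_div_iff₀ hq0 hN0]
      have e2 : (N : ℝ) ≤ (n + 1) * (q * L ^ C) := by
        have := (div_lt_iff₀ (by positivity)).1 hn2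
        linarith
      have hn3 : (0 : ℝ) < n + 1 := by positivity
      calc |(q : ℝ) * β - h / ((j + 1 : ℕ) : ℝ)| * N ≤ 1 / (((n : ℝ) + 1) * ((j + 1 : ℕ) : ℝ)) * N := by gcongr
        _ ≤ 1 / ((n : ℝ) + 1) * N := by
            apply mul_le_mul_of_nonneg_right _ hN0.le
            apply one_div_le_one_div_of_le hn3
            nlinarith
        _ ≤ 1 / ((n : ℝ) + 1) * ((n + 1) * (q * L ^ C)) := by gcongr
        _ = L ^ C * q := by field_simp
    obtain ⟨η, hη⟩ : ∃ η, η = β - h / (((j + 1) * q : ℕ) : ℝ) := ⟨_, rfl⟩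
    rw [← hη] at hηle
    have hkq : (((j + 1) * q : ℕ) : ℝ) ≤ (N : ℝ) ^ (1 - ρ) * L ^ C := by
      rw [Nat.cast_mul, mul_comm]
      exact mul_le_mul hq hkC.le hk0.le (by positivity)
    have hkqN : (j + 1) * q ≤ N := by exact_mod_cast hkq.trans hlevN
    have hkL : ((j + 1 : ℕ) : ℝ) ≤ Real.log N ^ C := by
      rw [← hLd]
      exact hkC.le
    have hmain : P ((j + 1) * q) N F η ≤ (N : ℝ) ^ 2 / ((((j + 1) * q : ℕ) : ℝ) * Real.log N ^ A) := by
      refine hPs N hNN₅ ((j + 1) * q) hkqN F hFle g (fun e _ => hg.bd e) (fun e he m => ?_) η ?_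
      · rw [hFd]
        refine F_mul hg (fun h => ?_) (fun p hp hpe => hcop p hp (j + 1) (by omega) hkL (hpe.trans he)) m
        rw [h, zero_dvd_iff] at he
        exact NeZero.ne ((j + 1) * q) he
      · intro e he heN _
        have he1 : 1 ≤ e := Nat.pos_of_dvd_of_pos he (NeZero.pos ((j + 1) * q))
        have he0 : (0 : ℝ) < e := by exact_mod_cast he1
        have hs := hscale e he1 heN
        have hM0 : (0 : ℝ) < ((N / e : ℕ) : ℝ) := by exact_mod_cast hs.one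
        have hlog0 : 0 < Real.log ((N / e : ℕ) : ℝ) := lt_of_lt_of_le (by positivity) hs.log1
        have heη : |(e : ℝ) * η| ≤ L ^ C / ((N / e : ℕ) : ℝ) := by
          rw [abs_mul, Nat.abs_cast]
          calc (e : ℝ) * |η| ≤ e * (L ^ C / N) := by gcongr
            _ = L ^ C / ((N : ℝ) / e) := by field_simp
            _ ≤ L ^ C / ((N / e : ℕ) : ℝ) := by
                apply div_le_div_of_nonneg_left (by positivity) hM0 hs.up
        have hQN : (j + 1) * q / e ≤ N := (Nat.div_le_self _ _).trans hkqN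
        have hQdvd : (j + 1) * q / e ∣ (j + 1) * q := Nat.div_dvd_of_dvd he
        obtain ⟨B, hBc, hB⟩ := hmaj (N / e) (hbigM hs N₂ hNN₂) ((j + 1) * q / e) (hlev _ hkq e he he1 hs)
          (ap N κ₁ κ₂ g q) g (cf_scale hN1 hcf hs h1 h0)
        have hBr := hreg N hNN₃ g hg (A₀ + C + 1) hSw q hq1 hqN ((j + 1) * q / e) hQN
          (fun p hp hpd => hcop p hp (j + 1) (by omega) hkL (hpd.trans hQdvd))
          (fun χ hχ => by
            have k1 : χ.conductor ∣ (j + 1) * q / e := DirichletCharacter.conductor_dvd_level χ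
            have k2 := E2_reg hqD hkL (k1.trans hQdvd)
            refine E1_good k2 hχ ?_ ?_ χ.primitiveCharacter (DirichletCharacter.primitiveCharacter_isPrimitive χ)
            · exact Nat.pos_of_dvd_of_pos k1 (NeZero.pos _)
            · exact (Nat.le_of_dvd (NeZero.pos _) k1).trans hQN)
          (N / e) hs.le hs.big (e * η) (by rw [← hLd]; exact heη) (N / e) le_rfl
        rw [← hFd] at hBr hB
        rw [← hLd] at hBr ⊢
        have hM2 : (0 : ℝ) ≤ ((N / e : ℕ) : ℝ) ^ 2 := by positivity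
        rw [← sum_filter_add_sum_filter_not univ (fun χ => χ ∈ B)]
        have t1 : ∑ χ ∈ univ.filter (fun χ : DirichletCharacter ℂ ((j + 1) * q / e) => ¬ χ ∈ B),
            ‖cs ((j + 1) * q / e) (N / e) F (e * η) χ‖ ^ 2 ≤ ((N / e : ℕ) : ℝ) ^ 2 / L ^ (A + 3) * (1 / 2) := by
          have t2 := hB (e * η) (heη.trans (by
              apply div_le_div_of_nonneg_right _ hM0.le
              refine hlogM hs C ?_
              rw [hLd]
              linarith)) (N / e) le_rfl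
            (univ.filter (fun χ : DirichletCharacter ℂ ((j + 1) * q / e) => ¬ χ ∈ B)) (by
              rw [disjoint_left]
              intro χ k1 k2
              exact (mem_filter.1 k1).2 k2)
          refine t2.trans ?_
          rw [div_mul_div_comm, mul_one]
          apply div_le_div_of_nonneg_left hM2 (by positivity)
          calc L ^ (A + 3) * 2 ≤ L ^ (A + 3) * L := by
                gcongr
                rw [hLd]
                linarith
            _ = L ^ (A + 4) := by ring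
            _ ≤ _ := by
                refine hlogM hs (A + 4) ?_
                calc (2 : ℝ) ^ (A + 4 + 1) ≤ 2 ^ (A + 6) := pow_le_pow_right₀ (by norm_num) (by omega)
                  _ ≤ L := by
                      rw [hLd]
                      linarith
        have t3 : ∑ χ ∈ univ.filter (fun χ : DirichletCharacter ℂ ((j + 1) * q / e) => χ ∈ B),
            ‖cs ((j + 1) * q / e) (N / e) F (e * η) χ‖ ^ 2 ≤ ((N / e : ℕ) : ℝ) ^ 2 / L ^ (A + 3) * (1 / 2) := by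
          have t4 : ∀ χ ∈ univ.filter (fun χ : DirichletCharacter ℂ ((j + 1) * q / e) => χ ∈ B),
              ‖cs ((j + 1) * q / e) (N / e) F (e * η) χ‖ ^ 2 ≤ (((N / e : ℕ) : ℝ) / L ^ U₁) ^ 2 := fun χ _ =>
            pow_le_pow_left₀ (norm_nonneg _) (hBr χ) 2
          refine (sum_le_sum t4).trans ?_
          rw [sum_const, nsmul_eq_mul]
          have t5 : ((univ.filter (fun χ : DirichletCharacter ℂ ((j + 1) * q / e) => χ ∈ B)).card : ℝ) ≤ L ^ C₃ := by
            have : univ.filter (fun χ : DirichletCharacter ℂ ((j + 1) * q / e) => χ ∈ B) = B := by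
              ext χ
              simp
            rw [this]
            exact hBc.trans (pow_le_pow_left₀ hlog0.le hs.log2 _)
          calc ((univ.filter (fun χ : DirichletCharacter ℂ ((j + 1) * q / e) => χ ∈ B)).card : ℝ) *
                (((N / e : ℕ) : ℝ) / L ^ U₁) ^ 2 ≤ L ^ C₃ * (((N / e : ℕ) : ℝ) / L ^ U₁) ^ 2 := by gcongr
            _ = ((N / e : ℕ) : ℝ) ^ 2 * (L ^ C₃ / L ^ (2 * U₁)) := by
                rw [div_pow, ← pow_mul, mul_comm U₁ 2]
                ring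
            _ ≤ ((N / e : ℕ) : ℝ) ^ 2 * (1 / (L ^ (A + 3) * 2)) := by
                have g1 : L ^ C₃ / L ^ (2 * U₁) ≤ 1 / (L ^ (A + 3) * 2) := by
                  rw [div_le_div_iff₀ (by positivity) (by positivity), one_mul]
                  calc L ^ C₃ * (L ^ (A + 3) * 2) ≤ L ^ C₃ * (L ^ (A + 3) * L) := by
                        gcongr
                        rw [hLd]
                        linarith
                    _ = L ^ (C₃ + A + 4) := by ring
                    _ ≤ L ^ (2 * U₁) := by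
                        rw [hLd]
                        exact pow_le_pow_right₀ hL1 (by omega)
                gcongr
            _ = _ := by ring
        linarith
    have hne : NeZero ((j + 1) * q) := inferInstance
    calc P q N F β ≤ ((j + 1 : ℕ) : ℝ) * P ((j + 1) * q) N F β := P_above F β
      _ = ((j + 1 : ℕ) : ℝ) * P ((j + 1) * q) N F η := by
          rw [P_lift F (h := h) (β := β) (η := η) (by rw [hη]; ring)]
      _ ≤ ((j + 1 : ℕ) : ℝ) * ((N : ℝ) ^ 2 / ((((j + 1) * q : ℕ) : ℝ) * Real.log N ^ A)) := by gcongr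
      _ = (N : ℝ) ^ 2 / (q * Real.log N ^ A) := by
          rw [Nat.cast_mul]
          field_simp

end Pool.Agent.H579.R
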