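import Pool.Agent.H579.G.PG2
import Pool.Agent.H579.R.PG4R

set_option autoImplicit false

/-! The exceptional integers have a large radical: the version of `G/PG2`. -/

namespace Pool.Agent.H579.R


open Finset
open Pool.Agent.H579.E
open Pool.Agent.Y883.GJ Pool.Agent.R460.GS
open Pool.Agent.R460.GR (RegAt)
open Pool.Agent.H373R2.T7 (lamz Vz)
open Pool.Agent.Y883.T3 (lsh)
open Pool.Agent.Y614.GJ.Core (P ev_log)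
open Pool.Agent.H579.G
open Pool.Agent.H567.PP (rad)

/-- The square mean over all classes of a regular modulus. -/
theorem PG2R {κ₁ κ₂ ρ : ℝ} (h0 : 0 < κ₁) (h01 : κ₁ ≤ κ₂) (h1 : κ₂ < ρ) (h2 : ρ ≤ 1 / 5) (A U₀ : ℕ) :
    ∃ c : ℕ, ∀ A₀ : ℕ, ∃ B : ℕ, ∀ E : ℕ, ∃ N₀ : ℕ, ∀ N : ℕ, N₀ ≤ N → ∃ D : Finset ℕ,
    (D.card : ℝ) ≤ Real.log N ^ c ∧ (∀ d ∈ D, Real.log N ^ A₀ < (rad d : ℝ)) ∧ ∀ z : ℕ,
    Real.log N ^ B ≤ z → (z : ℝ) ≤ Real.log N ^ E → ∃ r : ℕ, Par U₀ N z r ∧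
      ∑ n ∈ Icc 1 N, |lamz z n - lsh z r n| ≤ N / Real.log N ^ U₀ ∧
      ∀ α : ℕ → ℝ, Al N κ₁ κ₂ α → BdAt N (G2 N α z r) ∧ ∀ (q : ℕ) [NeZero q], (q : ℝ) ≤ (N : ℝ) ^ (1 - ρ) →
      (∀ d ∈ D, ¬ d ∣ q) → ∀ β : ℝ, ∀ y : ℕ, y ≤ N →
        P q N (tr y (G2 N α z r)) β ≤ (N : ℝ) ^ 2 / (q * Real.log N ^ A) := by
  classical
  obtain ⟨κ, hκ, hκ1, k1, k2⟩ := mid (lt_of_lt_of_le h0 h01) h1 h2
  have hTM : TiMaj2Stm := tiMaj2 Pool.Agent.Y812.GJ.l2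
  have hTm : TiMinStm := Pool.Agent.Y412.GJ.tiMin
  have hLsh : LshStm := Pool.Agent.Y812.GJ.lsh_le
  obtain ⟨A₁, hC1⟩ := PG A (ρ₁ := -(3 / 10) + ρ) (ρ₂ := -(3 / 10) + 4 * κ) (by linarith) (by linarith)
  obtain ⟨C, hE1⟩ := goodR hTM hTm hLsh h0 h01 k1 hκ (by linarith) A₁
  obtain ⟨A₂, hC2⟩ := hC1 C
  obtain ⟨C₃, hE2⟩ := hE1 A₂
  obtain ⟨U₁, hC3⟩ := hC2 C₃
  obtain ⟨C₄, Nl, hl⟩ := cntL (U₁ + C + 4 + 3)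
  obtain ⟨Nr, hr⟩ := regE (κ := κ) U₁ C h0 h01 hκ (by linarith) k2
  refine ⟨C₄ + C, fun A₀ => ?_⟩
  obtain ⟨K, hK⟩ : ∃ K, K = A₀ + C + 1 := ⟨_, rfl⟩
  obtain ⟨Nb, hNb⟩ := not_badL (A₀ + C) (U₁ + C + 4 + 3)
  obtain ⟨U, Nc, hC4⟩ := hC3 K
  obtain ⟨B, hE3⟩ := hE2 K U U₀ (U₁ + 2)
  refine ⟨B, fun E => ?_⟩
  obtain ⟨Ne, hE4⟩ := hE3 E
  obtain ⟨Nf, hNf⟩ := Filter.eventually_atTop.1 (ev_log 1 (s := 1) (by norm_num) 10)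
  refine ⟨Nl + Nr + Nc + Ne + Nf + Nb + 1, fun N hN => ⟨Pool.Agent.H579.L.E2 N K C (BadL N (U₁ + C + 4 + 3)), ?_, ?_, ?_⟩⟩
  · obtain ⟨hL3, -⟩ := hNf N (by omega)
    exact Pool.Agent.H579.L.E2_card (by linarith) (Pool.Agent.H579.L.E1_card K (hl N (by omega)))
  · intro d hd
    obtain ⟨hL3, -⟩ := hNf N (by omega)
    exact E2_rad (by linarith) hK (hNb N (by omega)) hd
  · intro z hz1 hz2
    obtain ⟨r, hP, hsum, hls, hg⟩ := hE4 N (by omega) z hz1 hz2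
    refine ⟨r, hP, hsum, fun α hα => ?_⟩
    obtain ⟨g1, g2, g3, g4, g5⟩ := hg α hα
    refine ⟨g1, fun q _ hq hD β y hy => ?_⟩
    exact hC4 N (by omega) (G2 N α z r) g1 g2 g3 g4 g5 q (by rw [e711]; exact hq)
      (hr N (by omega) α hα K z r hls q hq hD) β y hy

end Pool.Agent.H579.R
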