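import Pool.Agent.H579.G.Tup4
import Pool.Agent.H579.R.Wt4R

set_option autoImplicit false

/-! The exceptional integers have a large radical: the version of `G/Tup4`. -/

namespace Pool.Agent.H579.R


open Finset
open Pool.Agent.H373R2.T7 (lamz Vz pz Vz_pos Vz_inv_small mem_pz)
open Pool.Agent.Y614.GJ.Core (ev_log)
open Pool.Agent.H579.G
open Pool.Agent.H567.PP (rad)

/-- the asymptotic formula for almost all tuples of shifts -/
theorem tup4R (k : ℕ) (hk : 1 ≤ k) {ρ : ℝ} (hρ : 0 < ρ) (A : ℕ) :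
    ∃ c : ℕ, ∀ A₀ : ℕ, ∃ B : ℕ, ∀ E : ℕ, B ≤ E → ∃ N₀ : ℕ, ∀ N : ℕ, N₀ ≤ N →
      ∃ D : Finset ℕ, (D.card : ℝ) ≤ Real.log N ^ c ∧ (∀ d ∈ D, Real.log N ^ A₀ < (rad d : ℝ)) ∧
      (∀ q : ℕ, 1 ≤ q → (q : ℝ) ≤ (N : ℝ) ^ (2 / 3 - ρ) → (∀ d ∈ D, ¬ d ∣ q) → ∀ a : ℤ, ∀ S : Finset ℕ, S ⊆ Icc 1 N →
        Step N A q a S (ex thp) (ex (lamz ⌈Real.log N ^ E⌉₊))) ∧
      ∀ q : Fin k → ℕ, (∀ i, 1 ≤ q i ∧ (q i : ℝ) ≤ (N : ℝ) ^ (2 / 3 - ρ) ∧ ∀ d ∈ D, ¬ d ∣ q i) → ∀ a : Fin k → ℤ,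
      (∀ S : Finset ℕ, S ⊆ Icc 1 N → ∀ w : ℕ → ℝ, (∀ n ∈ S, |w n| ≤ 1) →
        ∀ T : Finset (Fin k → ℤ), (∀ h ∈ T, ∀ i, |h i| ≤ N ∧ h i ≡ a i [ZMOD q i]) →
        (∀ h ∈ T, N / Real.log N ^ A <
          |∑ n ∈ S, w n * (∏ i, ex thp (h i) n - ∏ i, ex (lamz ⌈Real.log N ^ E⌉₊) (h i) n)|) →
        (T.card : ℝ) ≤ (∏ i, ((N : ℝ) / q i)) / Real.log N ^ A) ∧
      ∀ T : Finset (Fin k → ℤ), (∀ h ∈ T, Function.Injective h ∧ ∀ i, 0 ≤ h i ∧ h i ≤ N ∧ h i ≡ a i [ZMOD q i]) →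
        (∀ h ∈ T, N / Real.log N ^ A < |∑ n ∈ Icc 1 N, ∏ i, ex thp (h i) n - sing (fun _ => 1) h * N|) →
        (T.card : ℝ) ≤ (∏ i, ((N : ℝ) / q i)) / Real.log N ^ A := by
  classical
  obtain ⟨c, hc⟩ := wt4R hρ (A + 1 + k + 1)
  obtain ⟨ns, hs⟩ := steps k (A + 1)
  obtain ⟨Br, hBr⟩ := rough_asym k hk (A + k + 1) 1
  refine ⟨c, fun A₀ => ?_⟩
  obtain ⟨B, hB⟩ := hc A₀
  refine ⟨B + Br, fun E hE => ?_⟩
  obtain ⟨n1, h1⟩ := hB E (by omega)
  obtain ⟨n2, h2⟩ := zpar E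
  obtain ⟨n3, h3⟩ := hBr (E + 1)
  obtain ⟨n4, h4⟩ := Filter.eventually_atTop.1 (ev_log 1 (s := 1 / 5) (by norm_num) 10)
  refine ⟨n1 + n2 + n3 + n4 + ns + 2, fun N hN => ?_⟩
  have hN1 : 1 ≤ N := by omega
  have hN0 : (0 : ℝ) < N := by exact_mod_cast hN1
  obtain ⟨D, hD1, hD2, hD3⟩ := h1 N (by omega)
  obtain ⟨hL10, hzlo, hzhi, hV⟩ := h2 N (by omega)
  obtain ⟨-, hL5⟩ := h4 N (by omega)
  obtain ⟨z, hz⟩ : ∃ z, z = ⌈Real.log N ^ E⌉₊ := ⟨_, rfl⟩
  rw [← hz] at hD3 hzlo hzhi hV ⊢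
  have hL0 : 0 < Real.log N := by linarith
  have hL1 : 1 ≤ Real.log N := by linarith
  refine ⟨D, hD1, hD2, ?_, fun q hq a => ?_⟩
  · intro q hq1 hq2 hq3 a S hS w hw T hT hT2
    refine (hD3 q hq1 hq2 hq3 S hS w hw a T hT (fun h hh => lt_of_le_of_lt ?_ (hT2 h hh))).trans ?_
    · exact div_le_div_of_nonneg_left hN0.le (by positivity) (pow_le_pow_right₀ hL1 (by omega))
    · apply div_le_div_of_nonneg_left hN0.le
      · have : (0 : ℝ) < q := by exact_mod_cast hq1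
        positivity
      · have : (0 : ℝ) < q := by exact_mod_cast hq1
        gcongr
        · omega
  have hPr : 0 ≤ ∏ i : Fin k, ((N : ℝ) / q i) := prod_nonneg fun i _ => by positivity
  have hqN : ∀ i, 1 ≤ q i ∧ q i + 1 ≤ N := fun i =>
    ⟨(hq i).1, q_add_one hN1 (by linarith) (by rw [pow_one] at hL5; linarith) (hq i).2.1⟩
  have hmain : ∀ S : Finset ℕ, S ⊆ Icc 1 N → ∀ w : ℕ → ℝ, (∀ n ∈ S, |w n| ≤ 1) →
        ∀ T : Finset (Fin k → ℤ), (∀ h ∈ T, ∀ i, |h i| ≤ N ∧ h i ≡ a i [ZMOD q i]) →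
        (∀ h ∈ T, N / Real.log N ^ (A + 1) <
          |∑ n ∈ S, w n * (∏ i, ex thp (h i) n - ∏ i, ex (lamz z) (h i) n)|) →
        (T.card : ℝ) ≤ (∏ i, ((N : ℝ) / q i)) / Real.log N ^ (A + 1) := by
    intro S hS w hw T hT hT2
    refine hs N (by omega) q a S (fun _ => ex thp) (fun _ => ex (lamz z)) hqN ?_ ?_ ?_ w hw T hT hT2
    · intro i w' hw' T' hT' hT2'
      exact hD3 (q i) (hq i).1 (hq i).2.1 (hq i).2.2 S hS w' hw' (a i) T' hT' hT2'
    · intro i h hh n hn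
      rw [abs_le] at hh
      have hnN := mem_Icc.1 (hS hn)
      exact ex_abs_le (M := 2 * N) (by linarith) hnN.2 hh.2 le_rfl
        (fun m hm => thp_le (by linarith) (mem_Icc.1 hm).2)
    · intro i h hh n hn
      rw [abs_le] at hh
      have hnN := mem_Icc.1 (hS hn)
      exact ex_abs_le (M := 2 * N) (by linarith) hnN.2 hh.2 le_rfl
        (fun m hm => lamz_abs_le (by linarith) hV)
  have hle : (∏ i, ((N : ℝ) / q i)) / Real.log N ^ (A + 1) ≤ (∏ i, ((N : ℝ) / q i)) / Real.log N ^ A :=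
    div_le_div_of_nonneg_left hPr (by positivity) (pow_le_pow_right₀ hL1 (by omega))
  refine ⟨fun S hS w hw T hT hT2 => ?_, fun T hT hT2 => ?_⟩
  · refine (hmain S hS w hw T hT fun h hh => lt_of_le_of_lt ?_ (hT2 h hh)).trans hle
    exact div_le_div_of_nonneg_left hN0.le (by positivity) (pow_le_pow_right₀ hL1 (by omega))
  · refine (hmain (Icc 1 N) (Subset.refl _) (fun _ => 1) (fun _ _ => by simp) T (fun h hh i => ?_)
      (fun h hh => ?_)).trans hle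
    · obtain ⟨e1, e2, e3⟩ := (hT h hh).2 i
      exact ⟨abs_le.2 ⟨by linarith, e2⟩, e3⟩
    · obtain ⟨hinj, hh0⟩ := hT h hh
      have e1 := hT2 h hh
      have e2 := h3 N (by omega) z ((pow_le_pow_right₀ hL1 (by omega)).trans hzlo) hzhi (fun _ => 1) h
        (fun _ => one_ne_zero) (fun i j hij e => hij (hinj (by linarith)).symm)
        (fun _ => by
          rw [Int.natAbs_one]
          exact Nat.one_le_pow _ _ hN1)
        (fun i => by
          have := (hh0 i).1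
          have := (hh0 i).2.1
          rw [pow_one]
          omega)
        (fun p hp _ i hpi => by
          have := Int.le_of_dvd one_pos hpi.1
          have := hp.two_le
          omega)
      have e3 := model_prod (N := N) (z := z) (fun i => (hh0 i).1)
      have hVp := Vz_pos z
      obtain ⟨R, hR⟩ : ∃ R : ℝ, R = (((Icc 1 N).filter (fun m => ∀ p ∈ pz z, ¬ Qf (fun _ => 1) h p m)).card : ℝ) := ⟨_, rfl⟩
      rw [← hR] at e2 e3
      have e4 : |((Vz z)⁻¹) ^ k * R - sing (fun _ => 1) h * N| ≤ N / Real.log N ^ (A + 1) := by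
        have e5 : ((Vz z)⁻¹) ^ k * R - sing (fun _ => 1) h * N =
            ((Vz z)⁻¹) ^ k * (R - sing (fun _ => 1) h * Vz z ^ k * N) := by
          have : ((Vz z)⁻¹) ^ k * Vz z ^ k = 1 := by rw [← mul_pow, inv_mul_cancel₀ hVp.ne', one_pow]
          linear_combination (sing (fun _ => 1) h * N) * this
        rw [e5, abs_mul, abs_of_nonneg (by positivity)]
        calc ((Vz z)⁻¹) ^ k * |R - sing (fun _ => 1) h * Vz z ^ k * N| ≤
            Real.log N ^ k * (N / Real.log N ^ (A + k + 1)) := by gcongr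
          _ = N / Real.log N ^ (A + 1) := by
              rw [show A + k + 1 = (A + 1) + k by ring, pow_add]
              field_simp
      have e6 : ∑ n ∈ Icc 1 N, (fun _ => (1 : ℝ)) n * (∏ i, ex thp (h i) n - ∏ i, ex (lamz z) (h i) n) =
          ∑ n ∈ Icc 1 N, ∏ i, ex thp (h i) n - ((Vz z)⁻¹) ^ k * R := by
        rw [← e3, ← sum_sub_distrib]
        refine sum_congr rfl fun n _ => ?_
        simp
      rw [e6]
      have e7 := abs_sub_le (∑ n ∈ Icc 1 N, ∏ i, ex thp (h i) n) (((Vz z)⁻¹) ^ k * R) (sing (fun _ => 1) h * N)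
      have e8 : (N : ℝ) / Real.log N ^ (A + 1) + N / Real.log N ^ (A + 1) ≤ N / Real.log N ^ A := by
        calc (N : ℝ) / Real.log N ^ (A + 1) + N / Real.log N ^ (A + 1) = N / Real.log N ^ A * (2 / Real.log N) := by
              rw [pow_succ]
              field_simp
              ring
          _ ≤ N / Real.log N ^ A * 1 := by
              refine mul_le_mul_of_nonneg_left ?_ (by positivity)
              rw [div_le_one hL0]
              linarith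
          _ = _ := mul_one _
      linarith

end Pool.Agent.H579.R
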