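import Pool.Agent.H579.G.WtE
import Pool.Agent.H579.R.PG2R

set_option autoImplicit false

/-! The exceptional integers have a large radical: the version of `G/WtE`. -/

namespace Pool.Agent.H579.R


open Finset
open Pool.Agent.Y883.GJ Pool.Agent.R460.GS
open Pool.Agent.H373R2.T7 (lamz Vz Vz_pos)
open Pool.Agent.Y883.T3 (lsh)
open Pool.Agent.Y614.GJ.Core (P ev_log)
open Pool.Agent.H579.E
open ArithmeticFunction (vonMangoldt)
open Pool.Agent.H579.G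
open Pool.Agent.H567.PP (rad)

/-- the weighted sums over the products of two primes in translates -/
theorem wtER {κ₁ κ₂ ρ : ℝ} (h0 : 0 < κ₁) (h01 : κ₁ ≤ κ₂) (hκ : κ₂ < ρ) (hρ : ρ ≤ 1 / 5) (A : ℕ) :
    ∃ c : ℕ, ∀ A₀ : ℕ, ∃ B : ℕ, ∀ E : ℕ, B ≤ E → ∃ N₀ : ℕ, ∀ N : ℕ, N₀ ≤ N → ∃ D : Finset ℕ,
    (D.card : ℝ) ≤ Real.log N ^ c ∧ (∀ d ∈ D, Real.log N ^ A₀ < (rad d : ℝ)) ∧ ∀ α : ℕ → ℝ, Al N κ₁ κ₂ α →
    ∀ q : ℕ, 1 ≤ q → (q : ℝ) ≤ (N : ℝ) ^ (1 - ρ) → (∀ d ∈ D, ¬ d ∣ q) → ∀ S : Finset ℕ, S ⊆ Icc 1 N →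
    ∀ w : ℕ → ℝ, (∀ n ∈ S, |w n| ≤ 1) → ∀ a : ℤ, ∀ T : Finset ℤ, (∀ h ∈ T, |h| ≤ N ∧ h ≡ a [ZMOD q]) →
    (∀ h ∈ T, N / Real.log N ^ A <
      |∑ s ∈ S, w s * (ex (f2 α) h s - WA N α * ex (lamz ⌈Real.log N ^ E⌉₊) h s)|) →
    (T.card : ℝ) ≤ N / (q * Real.log N ^ A) := by
  classical
  obtain ⟨c, hc⟩ := PG2R (κ₁ := κ₁ / 2) (κ₂ := κ₂) (ρ := ρ) (by positivity) (by linarith) hκ hρ (3 * A + 1) (A + 4)
  obtain ⟨C, nC, hC0, hC⟩ := sup_W (κ₁ := κ₁) (κ₂ := κ₂) h0 h01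
  obtain ⟨C', hC'⟩ := exists_nat_ge C
  refine ⟨2 * c, fun A₀ => ?_⟩
  obtain ⟨B, hB⟩ := hc A₀
  refine ⟨2 * B, fun E hE => ?_⟩
  obtain ⟨n1, h1⟩ := hB (E + 1)
  obtain ⟨n2, h2⟩ := Filter.eventually_atTop.1 (ev_log (A + 3) (s := 1 / 10) (by norm_num) (20 + C'))
  refine ⟨n1 + n2 + nC + 16, fun N hN => ?_⟩
  have hN1 : 1 ≤ N := by omega
  have hN0 : (0 : ℝ) < N := by exact_mod_cast hN1
  obtain ⟨M, hM⟩ : ∃ M, M = 2 * N := ⟨_, rfl⟩
  have hMr : (M : ℝ) = 2 * N := by rw [hM]; push_cast; ring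
  obtain ⟨hL20, -⟩ := h2 N (by omega)
  obtain ⟨-, hLp⟩ := h2 M (by omega)
  obtain ⟨L, hLd⟩ : ∃ L, L = Real.log (N : ℝ) := ⟨_, rfl⟩
  obtain ⟨L', hLd'⟩ : ∃ L', L' = Real.log (M : ℝ) := ⟨_, rfl⟩
  rw [← hLd] at hL20
  have hC'0 : (0 : ℝ) ≤ C' := Nat.cast_nonneg _
  have hCL : C ≤ L := by linarith
  have hL20' : 20 ≤ L := by linarith
  obtain ⟨a1, a2, a3, a4, a5, a6, a7⟩ := par2 hN1 hM hLd hLd' hL20'
  obtain ⟨D, hDc, hDl, c1⟩ := h1 M (by omega)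
  rw [← hLd'] at hDc hDl c1 hLp
  rw [← hLd]
  refine ⟨D, ?_, fun d hd => lt_of_le_of_lt (pow_le_pow_left₀ a4.le a1 _) (hDl d hd), ?_⟩
  · calc (D.card : ℝ) ≤ L' ^ c := hDc
      _ ≤ (L ^ 2) ^ c := pow_le_pow_left₀ a5.le a3 c
      _ = L ^ (2 * c) := by rw [← pow_mul]
  intro α hα q hq1 hqN hqD S hS w hw a T hT hT2
  have : NeZero q := ⟨by omega⟩
  obtain ⟨z, hz⟩ : ∃ z, z = ⌈L ^ E⌉₊ := ⟨_, rfl⟩
  rw [← hz] at hT2
  obtain ⟨b1, b2, b3⟩ := parz hz hL20' a1 a3 hE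
  obtain ⟨r, hPar, hsum, hG⟩ := c1 z b1 b2
  have hαM : Al M (κ₁ / 2) κ₂ α := al_two (by omega) hM h0 (by linarith) hα
  obtain ⟨hBd, hms⟩ := hG α hαM
  have hWA : WA M α = WA N α := WA_two hN1 hM (by linarith) hα
  have hWb : |WA N α| ≤ L := ((hC N (by omega) α hα).2).trans hCL
  have hqM : (q : ℝ) ≤ (M : ℝ) ^ (1 - ρ) := q_pow hN1 (by rw [← hLd]; exact a4) hM hq1 hqN
  have hms' := fun β => hms q hqM hqD β M le_rfl
  obtain ⟨X, hX⟩ : ∃ X : ℝ, X = N / L ^ A := ⟨_, rfl⟩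
  have hX0 : 0 < X := by rw [hX]; positivity
  have hkey := wt_few (q := q) (N := N) (M := M) hN1 (by omega) (fun n => g2 M α z r n)
    (X := (M : ℝ) ^ 2 / (q * L' ^ (3 * A + 1))) (δ := X / 2) (by positivity) (by positivity) ?_ hS w hw a T hT ?_
  · rw [hX] at hkey
    exact cnt_few hN1 hM hq1 hL20' a1 hkey
  · intro β
    exact hms' β
  · intro h hh
    have k1 := hT2 h hh
    rw [← hX] at k1
    have hhN : h ≤ N := by
      have := (hT h hh).1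
      rw [abs_le] at this
      exact this.2
    have e1 : ∑ s ∈ S, w s * (ex (f2 α) h s - WA N α * ex (lamz z) h s) =
        ∑ s ∈ S, w s * ex (fun n => g2 M α z r n) h s -
        ∑ s ∈ S, w s * ex (fun n => e2 α n - f2 α n) h s -
        WA N α * ∑ s ∈ S, w s * ex (fun n => lamz z n - lsh z r n) h s := by
      rw [mul_sum, ← sum_sub_distrib, ← sum_sub_distrib]
      refine sum_congr rfl fun s _ => ?_
      have e0 : ex (fun n => g2 M α z r n) h s = ex (e2 α) h s - WA N α * ex (lsh z r) h s := by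
        unfold ex g2
        rw [hWA]
        split_ifs
        · rfl
        · ring
      rw [e0, ex_sub, ex_sub]
      ring
    have e2' := ex_sum_le (F := fun n => e2 α n - f2 α n) hS hhN (show 2 * N ≤ M by omega) w hw
    have e3 := ex_sum_le (F := fun n => lamz z n - lsh z r n) hS hhN (show 2 * N ≤ M by omega) w hw
    have e4 := f2_err (M := M) (by omega) hαM
    rw [← hLd'] at e4
    have e5 : (M : ℝ) ^ κ₂ * (2 * Real.sqrt M * L') ≤ X / 8 := by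
      have hM0 : (0 : ℝ) < M := by rw [hMr]; positivity
      have hM1 : (1 : ℝ) ≤ M := by exact_mod_cast (show 1 ≤ M by omega)
      have f1 : Real.sqrt M = (M : ℝ) ^ (1 / 2 : ℝ) := Real.sqrt_eq_rpow _
      have f0 : (M : ℝ) ^ κ₂ ≤ (M : ℝ) ^ (1 / 5 : ℝ) := Real.rpow_le_rpow_of_exponent_le hM1 (by linarith)
      have f2' : (M : ℝ) = (M : ℝ) ^ (1 / 5 : ℝ) * (M : ℝ) ^ (1 / 2 : ℝ) * (M : ℝ) ^ (1 / 10 : ℝ) *
          (M : ℝ) ^ (1 / 10 : ℝ) * (M : ℝ) ^ (1 / 10 : ℝ) := by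
        rw [← Real.rpow_add hM0, ← Real.rpow_add hM0, ← Real.rpow_add hM0, ← Real.rpow_add hM0]
        norm_num
      obtain ⟨m, hm⟩ : ∃ m : ℝ, m = (M : ℝ) ^ (1 / 10 : ℝ) := ⟨_, rfl⟩
      obtain ⟨m5, hm5⟩ : ∃ m : ℝ, m = (M : ℝ) ^ (1 / 5 : ℝ) := ⟨_, rfl⟩
      obtain ⟨m2, hm2⟩ : ∃ m : ℝ, m = (M : ℝ) ^ (1 / 2 : ℝ) := ⟨_, rfl⟩
      have hm50 : 0 < m5 := by rw [hm5]; positivity
      have hm20 : 0 < m2 := by rw [hm2]; positivity
      rw [← hm, ← hm5, ← hm2] at f2'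
      rw [← hm] at hLp
      rw [← hm2] at f1
      rw [← hm5] at f0
      rw [f1]
      have hLA : 0 < L ^ A := by positivity
      have hm1 : 1 ≤ m := (one_le_pow₀ a7).trans hLp
      have hm0 : 0 < m := by linarith
      have f3 : X = m5 * m2 * m * m * m / (2 * L ^ A) := by
        rw [hX, ← f2', hMr]
        field_simp
      rw [f3]
      rw [le_div_iff₀ (by norm_num), le_div_iff₀ (by positivity)]
      have f4 : 32 * (L' * L ^ A) ≤ m := by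
        refine le_trans ?_ hLp
        calc 32 * (L' * L ^ A) ≤ L' ^ 2 * (L' * L' ^ A) := by
              have : (32 : ℝ) ≤ L' ^ 2 := by nlinarith
              have g1 : L ^ A ≤ L' ^ A := pow_le_pow_left₀ a4.le a1 A
              gcongr
          _ = L' ^ (A + 3) := by ring
      calc (M : ℝ) ^ κ₂ * (2 * m2 * L') * 8 * (2 * L ^ A) ≤ m5 * (2 * m2 * L') * 8 * (2 * L ^ A) := by gcongr
        _ = (m5 * m2) * (32 * (L' * L ^ A)) := by ring
        _ ≤ (m5 * m2) * m := by gcongr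
        _ ≤ (m5 * m2) * m * (m * m) := le_mul_of_one_le_right (by positivity) (by nlinarith)
        _ = _ := by ring
    have e6 : |WA N α| * ((M : ℝ) / L' ^ (A + 4)) ≤ X / 8 := by
      calc |WA N α| * ((M : ℝ) / L' ^ (A + 4)) ≤ L * (M / L ^ (A + 4)) := by
            refine mul_le_mul hWb ?_ (by positivity) a4.le
            exact div_le_div_of_nonneg_left (Nat.cast_nonneg _) (by positivity) (pow_le_pow_left₀ a4.le a1 _)
        _ = X * (2 / L ^ 3) := by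
            rw [hMr, hX, pow_add]
            field_simp
        _ ≤ X * (1 / 8) := by
            apply mul_le_mul_of_nonneg_left _ hX0.le
            rw [div_le_div_iff₀ (by positivity) (by norm_num)]
            have : (20 : ℝ) ^ 3 ≤ L ^ 3 := pow_le_pow_left₀ (by norm_num) hL20' 3
            linarith
        _ = X / 8 := by ring
    rw [e1] at k1
    have k2 := abs_sub (∑ s ∈ S, w s * ex (fun n => g2 M α z r n) h s -
        ∑ s ∈ S, w s * ex (fun n => e2 α n - f2 α n) h s)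
        (WA N α * ∑ s ∈ S, w s * ex (fun n => lamz z n - lsh z r n) h s)
    have k3 := abs_sub (∑ s ∈ S, w s * ex (fun n => g2 M α z r n) h s)
        (∑ s ∈ S, w s * ex (fun n => e2 α n - f2 α n) h s)
    have k4 : |WA N α * ∑ s ∈ S, w s * ex (fun n => lamz z n - lsh z r n) h s| ≤ X / 8 := by
      rw [abs_mul]
      refine le_trans (mul_le_mul_of_nonneg_left (e3.trans hsum) (abs_nonneg _)) ?_
      exact e6
    linarith

end Pool.Agent.H579.R
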