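import Pool.Agent.H579.G.TupF
import Pool.Agent.H579.R.FormsFR

set_option autoImplicit false

/-! The exceptional integers have a large radical: the version of `G/TupF`. -/

namespace Pool.Agent.H579.R


open Finset
open Pool.Agent.H373R2.T7 (lamz Vz pz Vz_pos Vz_inv_small mem_pz)
open Pool.Agent.Y614.GJ.Core (ev_log)
open Pool.Agent.H579.G
open Pool.Agent.H567.PP (rad)

theorem tupFR (k : ℕ) {ρ : ℝ} (hρ : 0 < ρ) (hρ1 : ρ ≤ 1 / 10) (A : ℕ) :
    ∃ c : ℕ, ∀ A₀ : ℕ, ∃ B : ℕ, ∀ E : ℕ, B ≤ E → ∃ N₀ : ℕ, ∃ D : ℕ → Finset ℕ,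
      (∀ N : ℕ, N₀ ≤ N → ((D N).card : ℝ) ≤ Real.log N ^ c ∧ ∀ d ∈ D N, Real.log N ^ A₀ < (rad d : ℝ)) ∧
      ∀ M : ℕ, N₀ ≤ M →
      ∀ q : Fin k → ℕ, (∀ i, 1 ≤ q i ∧ (q i : ℝ) ^ (1 / 4 + ρ) ≤ M ∧ ∀ d ∈ D (q i * M), ¬ d ∣ q i) →
      ∀ S : Finset ℕ, S ⊆ Icc 1 M → ∀ T : Finset (Fin k → ℤ), (∀ b ∈ T, ∀ i, 1 ≤ b i ∧ b i ≤ q i * M) →
      (∀ b ∈ T, (((S : Set ℕ) ∩ {m | ∀ i, PrF (q i) (b i) m}).ncard : ℝ) <
        (∏ i, (137 / 1000 / (Vz ⌈Real.log M ^ E⌉₊ * Real.log ((q i : ℝ) * M)))) *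
          ((S : Set ℕ) ∩ {m | ∀ i, RoF ⌈Real.log M ^ E⌉₊ (q i) (b i) m}).ncard - M / Real.log M ^ A) →
      (T.card : ℝ) ≤ (∏ i, ((q i : ℝ) * M)) / Real.log M ^ A := by
  classical
  obtain ⟨c, hc⟩ := formsPR (ρ := ρ / 2) (by positivity) (by linarith) (A + 1)
  refine ⟨2 * c, fun A₀ => ?_⟩
  obtain ⟨B, hB⟩ := hc A₀
  refine ⟨2 * B, fun E hE => ?_⟩
  obtain ⟨n1, h1⟩ := hB (E + 1)
  obtain ⟨n2, h2⟩ := Vz_inv_small (E + 1)
  obtain ⟨n3, h3⟩ := Filter.eventually_atTop.1 (ev_log 1 (s := 1) (by norm_num) (k + 200))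
  have hch : ∀ N : ℕ, ∃ D : Finset ℕ, n1 ≤ N → (D.card : ℝ) ≤ Real.log N ^ c ∧ (∀ d ∈ D, Real.log N ^ A₀ < (rad d : ℝ)) ∧
      ∀ z : ℕ, Real.log N ^ B ≤ z → (z : ℝ) ≤ Real.log N ^ (E + 1) →
      ∀ q M : ℕ, 1 ≤ q → 1 ≤ M → N = 2 * q * M → (q : ℝ) ≤ (N : ℝ) ^ (4 / 5 - ρ / 2) → (∀ d ∈ D, ¬ d ∣ q) →
      ∀ S : Finset ℕ, S ⊆ Icc 1 M →
        (((Icc 1 (q * M)).filter (fun b => Real.log N * ((S.filter (fun m => (q * m + b).Prime)).card : ℝ) <
          138 / 1000 * ∑ m ∈ S, lamz z (q * m + b) - M / Real.log N ^ (A + 1))).card : ℝ) ≤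
            ((q * M : ℕ) : ℝ) / Real.log N ^ (A + 1) := by
    intro N
    by_cases hN : n1 ≤ N
    · obtain ⟨D, hD⟩ := h1 N hN
      exact ⟨D, fun _ => hD⟩
    · exact ⟨∅, fun h => absurd h hN⟩
  choose D' hD' using hch
  refine ⟨n1 + n2 + n3 + 2, fun n => D' (2 * n), fun N hN => ?_, ?_⟩
  · obtain ⟨e1, e2, -⟩ := hD' (2 * N) (by omega)
    obtain ⟨hL, -⟩ := h3 N (by omega)
    have hN0 : (0 : ℝ) < N := by exact_mod_cast (by omega : 0 < N)
    have hL2 : 200 ≤ Real.log N := by linarith [show (0 : ℝ) ≤ k from Nat.cast_nonneg _]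
    have hup : Real.log ((2 * N : ℕ) : ℝ) ≤ Real.log N ^ 2 := by
      push_cast
      rw [Real.log_mul (by norm_num) hN0.ne']
      have := Real.log_two_lt_d9
      nlinarith
    have hlo : Real.log N ≤ Real.log ((2 * N : ℕ) : ℝ) :=
      Real.log_le_log hN0 (by push_cast; linarith)
    refine ⟨e1.trans ?_, fun d hd => lt_of_le_of_lt (pow_le_pow_left₀ (by linarith) hlo _) (e2 d hd)⟩
    calc Real.log ((2 * N : ℕ) : ℝ) ^ c ≤ (Real.log N ^ 2) ^ c := pow_le_pow_left₀ (by linarith) hup _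
      _ = _ := by rw [← pow_mul]
  intro M hM q hq S hS T hTH hT
  obtain ⟨hLk, -⟩ := h3 M (by omega)
  have hM1 : 1 ≤ M := by omega
  have hM0 : (0 : ℝ) < M := by exact_mod_cast hM1
  have hMr1 : (1 : ℝ) ≤ M := by exact_mod_cast hM1
  have hk0 : (0 : ℝ) ≤ k := Nat.cast_nonneg _
  obtain ⟨z, hz⟩ : ∃ z, z = ⌈Real.log M ^ E⌉₊ := ⟨_, rfl⟩
  rw [← hz] at hT
  obtain ⟨L, hL⟩ : ∃ L, L = Real.log (M : ℝ) := ⟨_, rfl⟩
  have hL200 : 200 ≤ L := by rw [hL]; linarith
  have hL0 : 0 < L := by linarith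
  have hL1 : 1 ≤ L := by linarith
  have hzlo : L ^ E ≤ z := by rw [hz, hL]; exact Nat.le_ceil _
  have hLE : 1 ≤ L ^ E := one_le_pow₀ hL1
  have hz1 : 1 ≤ z := by
    have : (1 : ℝ) ≤ z := hLE.trans hzlo
    exact_mod_cast this
  have hzhi : (z : ℝ) ≤ L ^ (E + 1) := by
    have := Nat.ceil_lt_add_one (show 0 ≤ Real.log M ^ E by rw [← hL]; positivity)
    rw [← hz, ← hL] at this
    calc (z : ℝ) ≤ L ^ E + 1 := this.le
      _ ≤ L ^ E + L ^ E := by linarith
      _ = 2 * L ^ E := by ring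
      _ ≤ L * L ^ E := mul_le_mul_of_nonneg_right (by linarith) (by positivity)
      _ = L ^ (E + 1) := by ring
  have hV := Vz_pos z
  have hVi := h2 M (by omega) z hz1 (by rw [← hL]; exact hzhi)
  rw [← hL] at hVi hLk hT ⊢
  have hVL : 1 ≤ Vz z * L := by
    rw [inv_le_iff_one_le_mul₀ hV] at hVi
    linarith
  -- the sizes
  have hqM : ∀ i, (q i : ℝ) ≤ (M : ℝ) ^ (4 : ℝ) := by
    intro i
    have hq1 : (1 : ℝ) ≤ q i := by exact_mod_cast (hq i).1
    have e1 : (q i : ℝ) = ((q i : ℝ) ^ (1 / 4 : ℝ)) ^ (4 : ℝ) := by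
      rw [← Real.rpow_mul (by linarith)]
      norm_num
    have e2 : (q i : ℝ) ^ (1 / 4 : ℝ) ≤ M :=
      (Real.rpow_le_rpow_of_exponent_le hq1 (by linarith)).trans (hq i).2.1
    rw [e1]
    exact Real.rpow_le_rpow (by positivity) e2 (by norm_num)
  have hlog1 : ∀ i, L ≤ Real.log ((q i : ℝ) * M) := by
    intro i
    have hq1 : (1 : ℝ) ≤ q i := by exact_mod_cast (hq i).1
    rw [hL]
    exact Real.log_le_log hM0 (by nlinarith)
  have hlog2 : ∀ i, Real.log ((q i : ℝ) * M) ≤ 5 * L := by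
    intro i
    have hq1 : (1 : ℝ) ≤ q i := by exact_mod_cast (hq i).1
    rw [Real.log_mul (by positivity) hM0.ne']
    have := Real.log_le_log (by positivity) (hqM i)
    rw [Real.log_rpow hM0, ← hL] at this
    linarith
  have hlogN : ∀ i, Real.log ((2 * q i * M : ℕ) : ℝ) = Real.log 2 + Real.log ((q i : ℝ) * M) := by
    intro i
    have hq1 : (1 : ℝ) ≤ q i := by exact_mod_cast (hq i).1
    push_cast
    rw [mul_assoc, Real.log_mul (by norm_num) (by positivity)]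
  have l2 := Real.log_two_lt_d9
  have l2' := Real.log_two_gt_d9
  have hN6 : ∀ i, Real.log ((2 * q i * M : ℕ) : ℝ) ≤ L ^ 2 := by
    intro i
    rw [hlogN]
    have := hlog2 i
    nlinarith
  have hNL : ∀ i, L ≤ Real.log ((2 * q i * M : ℕ) : ℝ) := by
    intro i
    rw [hlogN]
    have := hlog1 i
    linarith
  obtain ⟨lam, hlam⟩ : ∃ lam : Fin k → ℝ, lam = fun i => 137 / 1000 / (Vz z * Real.log ((q i : ℝ) * M)) := ⟨_, rfl⟩
  have hlam' : ∀ i, lam i = 137 / 1000 / (Vz z * Real.log ((q i : ℝ) * M)) := fun i => by rw [hlam]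
  have hden : ∀ i, 1 ≤ Vz z * Real.log ((q i : ℝ) * M) := fun i =>
    hVL.trans (mul_le_mul_of_nonneg_left (hlog1 i) hV.le)
  have hlam0 : ∀ i, 0 ≤ lam i := by
    intro i
    rw [hlam']
    have := hden i
    positivity
  have hlam1 : ∀ i, lam i ≤ 1 := by
    intro i
    rw [hlam', div_le_one (by linarith [hden i])]
    linarith [hden i]
  have hq45 : ∀ i, (q i : ℝ) ≤ ((2 * q i * M : ℕ) : ℝ) ^ (4 / 5 - ρ / 2) := by
    intro i
    have hq1 : (1 : ℝ) ≤ q i := by exact_mod_cast (hq i).1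
    have e1 : (q i : ℝ) ^ (5 / 4 + ρ) ≤ ((2 * q i * M : ℕ) : ℝ) := by
      push_cast
      calc (q i : ℝ) ^ (5 / 4 + ρ) = q i * (q i : ℝ) ^ (1 / 4 + ρ) := by
            rw [show (5 / 4 + ρ : ℝ) = 1 + (1 / 4 + ρ) by ring, Real.rpow_add (by linarith), Real.rpow_one]
        _ ≤ q i * M := mul_le_mul_of_nonneg_left (hq i).2.1 (by linarith)
        _ ≤ 2 * q i * M := by nlinarith
    calc (q i : ℝ) = (q i : ℝ) ^ (1 : ℝ) := (Real.rpow_one _).symm
      _ ≤ (q i : ℝ) ^ ((5 / 4 + ρ) * (4 / 5 - ρ / 2)) := Real.rpow_le_rpow_of_exponent_le hq1 (by nlinarith)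
      _ = ((q i : ℝ) ^ (5 / 4 + ρ)) ^ (4 / 5 - ρ / 2) := Real.rpow_mul (by linarith) _ _
      _ ≤ _ := Real.rpow_le_rpow (by positivity) e1 (by linarith)
  have hmul := multi (δ := M / L ^ (A + 1)) (η := 1 / L ^ (A + 1)) (by positivity) (by positivity) k S
    (fun i => Icc 1 ((q i : ℤ) * M)) (fun i => (q i : ℝ) * M)
    lam (fun i b m => PrF (q i) b m) (fun i b m => RoF z (q i) b m) ?_ hlam0 hlam1 ?_ T ?_ ?_
  · refine hmul.trans ?_
    have hPr : 0 ≤ ∏ i : Fin k, ((q i : ℝ) * M) := prod_nonneg fun i _ => by positivity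
    calc (k : ℝ) * (1 / L ^ (A + 1)) * (∏ i : Fin k, ((q i : ℝ) * M)) =
        ((∏ i : Fin k, ((q i : ℝ) * M)) / L ^ A) * (k / L) := by
          rw [pow_succ]
          ring
      _ ≤ ((∏ i : Fin k, ((q i : ℝ) * M)) / L ^ A) * 1 := by
          refine mul_le_mul_of_nonneg_left ?_ (by positivity)
          rw [div_le_one hL0]
          linarith
      _ = _ := mul_one _
  · intro i
    rw [Int.card_Icc]
    have : ((q i : ℤ) * M + 1 - 1).toNat = q i * M := by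
      rw [add_sub_cancel_right]
      exact_mod_cast Int.toNat_natCast _
    rw [this]
    push_cast
    exact le_rfl
  · intro i S' hS' F hF hF2
    obtain ⟨N, hN⟩ : ∃ N, N = 2 * q i * M := ⟨_, rfl⟩
    have hNbig : n1 ≤ N := by
      have : 1 * M ≤ q i * M := Nat.mul_le_mul_right M (hq i).1
      rw [hN]
      nlinarith
    have hLN := hNL i
    have hLN2 := hN6 i
    have hLNe := hlogN i
    have h45 := hq45 i
    rw [← hN] at hLN hLN2 hLNe h45
    obtain ⟨-, -, g3⟩ := hD' N hNbig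
    have hz1' : Real.log N ^ B ≤ z := by
      refine le_trans ?_ hzlo
      calc Real.log N ^ B ≤ (L ^ 2) ^ B := pow_le_pow_left₀ (by linarith) hLN2 _
        _ = L ^ (2 * B) := by rw [← pow_mul]
        _ ≤ L ^ E := pow_le_pow_right₀ hL1 hE
    have hz2' : (z : ℝ) ≤ Real.log N ^ (E + 1) := hzhi.trans (pow_le_pow_left₀ hL0.le hLN _)
    have hDq : ∀ d ∈ D' N, ¬ d ∣ q i := by
      have := (hq i).2.2
      rw [hN, mul_assoc]
      exact this
    have g4 := g3 z hz1' hz2' (q i) M (hq i).1 hM1 hN h45 hDq S' (hS'.trans hS)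
    have hsub : F.image Int.toNat ⊆ (Icc 1 (q i * M)).filter (fun b => Real.log N *
        ((S'.filter (fun m => (q i * m + b).Prime)).card : ℝ) <
          138 / 1000 * ∑ m ∈ S', lamz z (q i * m + b) - M / Real.log N ^ (A + 1)) := by
      intro b hb
      rw [mem_image] at hb
      obtain ⟨b', hb', rfl⟩ := hb
      have e1 := mem_Icc.1 (hF hb')
      have e2 := hF2 b' hb'
      obtain ⟨b, rfl⟩ : ∃ b : ℕ, b' = b := ⟨b'.toNat, by omega⟩
      rw [Int.toNat_natCast, mem_filter, mem_Icc]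
      refine ⟨⟨by exact_mod_cast e1.1, by exact_mod_cast e1.2⟩, ?_⟩
      have e3 : ((S' : Set ℕ) ∩ {m | PrF (q i) (b : ℤ) m}).ncard = (S'.filter (fun m => (q i * m + b).Prime)).card := by
        rw [← Set.ncard_coe_finset]
        congr 1
        ext m
        rw [Set.mem_inter_iff, mem_coe, Set.mem_ofPred_eq, PrF_nat, mem_coe, mem_filter]
      rw [e3] at e2
      rw [sum_lamz]
      obtain ⟨R, hR⟩ : ∃ R : ℝ, R = (((S' : Set ℕ) ∩ {m | RoF z (q i) (b : ℤ) m}).ncard : ℝ) := ⟨_, rfl⟩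
      have hR0 : 0 ≤ R := by rw [hR]; exact Nat.cast_nonneg _
      rw [← hR] at e2 ⊢
      have hLN0 : 0 < Real.log N := by linarith
      have e5 := mul_lt_mul_of_pos_left e2 hLN0
      refine e5.trans_le ?_
      have hli := hlog1 i
      have hli0 : 0 < Real.log ((q i : ℝ) * M) := by linarith
      have e6 : Real.log N * lam i ≤ 138 / 1000 * (Vz z)⁻¹ := by
        rw [hlam', hLNe]
        have e7 : (Real.log 2 + Real.log ((q i : ℝ) * M)) * (137 / 1000) ≤ 138 / 1000 * Real.log ((q i : ℝ) * M) := by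
          linarith
        calc (Real.log 2 + Real.log ((q i : ℝ) * M)) * (137 / 1000 / (Vz z * Real.log ((q i : ℝ) * M))) =
            ((Real.log 2 + Real.log ((q i : ℝ) * M)) * (137 / 1000)) / Real.log ((q i : ℝ) * M) * (Vz z)⁻¹ := by
              field_simp
          _ ≤ (138 / 1000 * Real.log ((q i : ℝ) * M)) / Real.log ((q i : ℝ) * M) * (Vz z)⁻¹ := by
              gcongr
          _ = _ := by
              field_simp
      have e8 : Real.log N * lam i * R ≤ 138 / 1000 * (Vz z)⁻¹ * R := mul_le_mul_of_nonneg_right e6 hR0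
      have e9 : (M : ℝ) / Real.log N ^ (A + 1) ≤ Real.log N * (M / L ^ (A + 1)) := by
        have f1 : (M : ℝ) / Real.log N ^ (A + 1) ≤ M / L ^ (A + 1) :=
          div_le_div_of_nonneg_left hM0.le (by positivity) (pow_le_pow_left₀ hL0.le hLN _)
        have f2 : (M : ℝ) / L ^ (A + 1) ≤ Real.log N * (M / L ^ (A + 1)) :=
          le_mul_of_one_le_left (by positivity) (by linarith)
        linarith
      calc Real.log N * (lam i * R - M / L ^ (A + 1)) = Real.log N * lam i * R - Real.log N * (M / L ^ (A + 1)) := by ring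
        _ ≤ 138 / 1000 * (Vz z)⁻¹ * R - M / Real.log N ^ (A + 1) := by linarith
        _ = _ := by ring
    have hinj : (F.image Int.toNat).card = F.card := by
      refine card_image_of_injOn fun x hx y hy hxy => ?_
      have e1 := mem_Icc.1 (hF hx)
      have e2 := mem_Icc.1 (hF hy)
      omega
    have h6 : (F.card : ℝ) ≤ (((Icc 1 (q i * M)).filter (fun b => Real.log N *
        ((S'.filter (fun m => (q i * m + b).Prime)).card : ℝ) <
          138 / 1000 * ∑ m ∈ S', lamz z (q i * m + b) - M / Real.log N ^ (A + 1))).card : ℝ) := by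
      rw [← hinj]
      exact_mod_cast card_le_card hsub
    refine h6.trans (g4.trans ?_)
    push_cast
    calc (q i : ℝ) * M / Real.log N ^ (A + 1) ≤ (q i : ℝ) * M / L ^ (A + 1) :=
          div_le_div_of_nonneg_left (by positivity) (by positivity) (pow_le_pow_left₀ hL0.le hLN _)
      _ = _ := by ring
  · intro b hb i
    obtain ⟨e1, e2⟩ := hTH b hb i
    exact mem_Icc.2 ⟨e1, e2⟩
  · intro b hb
    have e1 := hT b hb
    have e3 : ∏ i, lam i = ∏ i, (137 / 1000 / (Vz z * Real.log ((q i : ℝ) * M))) := prod_congr rfl fun i _ => hlam' i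
    rw [e3]
    refine e1.trans_le ?_
    have e2 : (k : ℝ) * (M / L ^ (A + 1)) ≤ M / L ^ A := by
      rw [pow_succ]
      calc (k : ℝ) * (M / (L ^ A * L)) = M / L ^ A * (k / L) := by field_simp
        _ ≤ M / L ^ A * 1 := by
            refine mul_le_mul_of_nonneg_left ?_ (by positivity)
            rw [div_le_one hL0]
            linarith
        _ = _ := mul_one _
    linarith

end Pool.Agent.H579.R
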