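import Pool.Agent.H579.G.TupG
import Pool.Agent.H579.R.TupFR

set_option autoImplicit false

/-! The exceptional integers have a large radical: the version of `G/TupG`. -/

namespace Pool.Agent.H579.R


open Finset
open Pool.Agent.H373R2.T7 (lamz Vz pz Vz_pos Vz_inv_small mem_pz)
open Pool.Agent.Y614.GJ.Core (ev_log)
open Pool.Agent.H579.G
open Pool.Agent.H567.PP (rad)

theorem tupGR (k : ℕ) (hk : 1 ≤ k) {ρ : ℝ} (hρ : 0 < ρ) (hρ1 : ρ ≤ 1 / 10) (A : ℕ) :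
    ∃ c : ℕ, ∀ A₀ : ℕ, ∃ B : ℕ, ∀ E : ℕ, B ≤ E → ∃ N₀ : ℕ, ∃ D : ℕ → Finset ℕ,
      (∀ N : ℕ, N₀ ≤ N → ((D N).card : ℝ) ≤ Real.log N ^ c ∧ ∀ d ∈ D N, Real.log N ^ A₀ < (rad d : ℝ)) ∧
      ∀ M : ℕ, N₀ ≤ M →
      ∀ q : Fin k → ℕ, (∀ i, 1 ≤ q i ∧ (q i : ℝ) ^ (1 / 4 + ρ) ≤ M ∧ ∀ d ∈ D (q i * M), ¬ d ∣ q i) →
      (∀ T : Finset (Fin k → ℤ), (∀ b ∈ T, (∀ i j, i ≠ j → (q i : ℤ) * b j ≠ q j * b i) ∧
          ∀ i, 1 ≤ b i ∧ b i ≤ q i * M) →
        (∀ b ∈ T, ((((Icc 1 M : Finset ℕ) : Set ℕ) ∩ {m | ∀ i, PrF (q i) (b i) m}).ncard : ℝ) <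
          (1 / 8) ^ k * sing (fun i => (q i : ℤ)) b * (M / ∏ i, Real.log ((q i : ℝ) * M))) →
        (T.card : ℝ) ≤ (∏ i, ((q i : ℝ) * M)) / Real.log M ^ A) ∧
      ∀ S : Finset ℕ, S ⊆ Icc 1 M → ∀ T : Finset (Fin k → ℤ), (∀ b ∈ T, ∀ i, 1 ≤ b i ∧ b i ≤ q i * M) →
        (∀ b ∈ T, (((S : Set ℕ) ∩ {m | ∀ i, PrF (q i) (b i) m}).ncard : ℝ) <
          (1 / 8) ^ k * (((S : Set ℕ) ∩ {m | ∀ i, RoF ⌈Real.log M ^ E⌉₊ (q i) (b i) m}).ncard /
            ∏ i, (Vz ⌈Real.log M ^ E⌉₊ * Real.log ((q i : ℝ) * M))) - M / Real.log M ^ A) →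
        (T.card : ℝ) ≤ (∏ i, ((q i : ℝ) * M)) / Real.log M ^ A := by
  classical
  obtain ⟨cr, hcr0, hcr⟩ := rough_low k hk
  obtain ⟨c, hc⟩ := tupFR k hρ hρ1 (A + 2 * k + 1)
  refine ⟨c, fun A₀ => ?_⟩
  obtain ⟨B, hB⟩ := hc A₀
  refine ⟨B + 2, fun E hE => ?_⟩
  obtain ⟨n1, D, hD1, hD2⟩ := hB E (by omega)
  obtain ⟨n2, h2⟩ := hcr (E + 1) 5
  obtain ⟨n3, h3⟩ := Filter.eventually_atTop.1 (ev_log 1 (s := 1) (by norm_num) (100 / ((137 / 1000) ^ k * cr) + 10))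
  refine ⟨n1 + n2 + n3 + 2, D, fun N hN => hD1 N (by omega), fun M hM q hq => ?_⟩
  obtain ⟨hLR, -⟩ := h3 M (by omega)
  have hM1 : 1 ≤ M := by omega
  have hM0 : (0 : ℝ) < M := by exact_mod_cast hM1
  have hR0 : 0 < 100 / ((137 / 1000 : ℝ) ^ k * cr) := by positivity
  have hL10 : 10 ≤ Real.log M := by linarith
  have hL1 : 1 ≤ Real.log M := by linarith
  have hL0 : 0 < Real.log M := by linarith
  have hPr : 0 ≤ ∏ i : Fin k, ((q i : ℝ) * M) := prod_nonneg fun i _ => by positivity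
  have hdown : (∏ i : Fin k, ((q i : ℝ) * M)) / Real.log M ^ (A + 2 * k + 1) ≤
      (∏ i : Fin k, ((q i : ℝ) * M)) / Real.log M ^ A :=
    div_le_div_of_nonneg_left hPr (by positivity) (pow_le_pow_right₀ hL1 (by omega))
  have hNdown : (M : ℝ) / Real.log M ^ (A + 2 * k + 1) ≤ M / Real.log M ^ A :=
    div_le_div_of_nonneg_left hM0.le (by positivity) (pow_le_pow_right₀ hL1 (by omega))
  have hD4 := hD2 M (by omega) q hq
  -- the sizes
  have hqM : ∀ i, (q i : ℝ) ≤ (M : ℝ) ^ (4 : ℕ) := by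
    intro i
    have hq1 : (1 : ℝ) ≤ q i := by exact_mod_cast (hq i).1
    have e1 : (q i : ℝ) = ((q i : ℝ) ^ (1 / 4 : ℝ)) ^ (4 : ℕ) := by
      rw [← Real.rpow_natCast, ← Real.rpow_mul (by linarith)]
      norm_num
    have e2 : (q i : ℝ) ^ (1 / 4 : ℝ) ≤ M :=
      (Real.rpow_le_rpow_of_exponent_le hq1 (by linarith)).trans (hq i).2.1
    rw [e1]
    exact pow_le_pow_left₀ (by positivity) e2 4
  have hqMn : ∀ i, q i ≤ M ^ 4 := fun i => by exact_mod_cast hqM i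
  have hlog1 : ∀ i, Real.log M ≤ Real.log ((q i : ℝ) * M) := by
    intro i
    have hq1 : (1 : ℝ) ≤ q i := by exact_mod_cast (hq i).1
    exact Real.log_le_log hM0 (by nlinarith)
  have hlog2 : ∀ i, Real.log ((q i : ℝ) * M) ≤ Real.log M ^ 2 := by
    intro i
    have hq1 : (1 : ℝ) ≤ q i := by exact_mod_cast (hq i).1
    rw [Real.log_mul (by positivity) hM0.ne']
    have := Real.log_le_log (by positivity) (hqM i)
    rw [Real.log_pow] at this
    push_cast at this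
    nlinarith
  obtain ⟨Pi', hPi'⟩ : ∃ Pi' : ℝ, Pi' = ∏ i, Real.log ((q i : ℝ) * M) := ⟨_, rfl⟩
  have hPi0 : 0 < Pi' := by
    rw [hPi']
    exact prod_pos fun i _ => by linarith [hlog1 i]
  have hPiL : Pi' ≤ Real.log M ^ (2 * k) := by
    rw [hPi', pow_mul]
    calc ∏ i : Fin k, Real.log ((q i : ℝ) * M) ≤ ∏ _i : Fin k, Real.log M ^ 2 :=
          prod_le_prod (fun i _ => by linarith [hlog1 i]) fun i _ => hlog2 i
      _ = _ := by rw [prod_const, card_univ, Fintype.card_fin]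
  obtain ⟨z, hz⟩ : ∃ z, z = ⌈Real.log M ^ E⌉₊ := ⟨_, rfl⟩
  rw [← hz] at hD4 ⊢
  have hV := Vz_pos z
  have hlamP : ∏ i : Fin k, (137 / 1000 / (Vz z * Real.log ((q i : ℝ) * M))) = (137 / 1000) ^ k / (Vz z ^ k * Pi') := by
    rw [prod_div_distrib, prod_const, card_univ, Fintype.card_fin, prod_mul_distrib, prod_const, card_univ,
      Fintype.card_fin, hPi']
  have hlamQ : ∏ i : Fin k, (Vz z * Real.log ((q i : ℝ) * M)) = Vz z ^ k * Pi' := by
    rw [prod_mul_distrib, prod_const, card_univ, Fintype.card_fin, hPi']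
  rw [hlamP] at hD4
  rw [hlamQ, ← hPi']
  refine ⟨fun T hT1 hT2 => ?_, fun S hS T hT1 hT2 => ?_⟩
  · refine (hD4 (Icc 1 M) (Subset.refl _) T (fun h hh i => (hT1 h hh).2 i) (fun b hb => ?_)).trans hdown
    obtain ⟨hprop, hb0⟩ := hT1 b hb
    have e1 := hT2 b hb
    have hzlo : Real.log M ^ E ≤ z := by rw [hz]; exact Nat.le_ceil _
    have hzhi : (z : ℝ) ≤ Real.log M ^ (E + 1) := by
      have := Nat.ceil_lt_add_one (show 0 ≤ Real.log M ^ E by positivity)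
      rw [← hz] at this
      have hLE : 1 ≤ Real.log M ^ E := one_le_pow₀ hL1
      calc (z : ℝ) ≤ Real.log M ^ E + 1 := this.le
        _ ≤ Real.log M ^ E + Real.log M ^ E := by linarith
        _ = 2 * Real.log M ^ E := by ring
        _ ≤ Real.log M * Real.log M ^ E := mul_le_mul_of_nonneg_right (by linarith) (by positivity)
        _ = Real.log M ^ (E + 1) := by ring
    have h45 : M ^ 4 ≤ M ^ 5 := Nat.pow_le_pow_right hM1 (by norm_num)
    obtain ⟨r1, r2⟩ := h2 M (by omega) z ((pow_le_pow_right₀ hL1 (by omega)).trans hzlo) hzhi (fun i => (q i : ℤ)) b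
      (fun i => by
        have := (hq i).1
        omega) hprop
      (fun i => by
        rw [Int.natAbs_natCast]
        exact (hqMn i).trans h45)
      (fun i => by
        have f1 := (hb0 i).1
        have f2 := (hb0 i).2
        have f3 : q i * M ≤ M ^ 5 := by
          calc q i * M ≤ M ^ 4 * M := Nat.mul_le_mul_right M (hqMn i)
            _ = M ^ 5 := by ring
        have f4 : ((q i * M : ℕ) : ℤ) = (q i : ℤ) * M := by push_cast; ring
        rw [← f4] at f2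
        omega)
    have e2 : (((Icc 1 M : Finset ℕ) : Set ℕ) ∩ {m | ∀ i, RoF z (q i) (b i) m}).ncard =
        ((Icc 1 M).filter (fun m => ∀ p ∈ pz z, ¬ Qf (fun i => (q i : ℤ)) b p m)).card := by
      rw [rough_forms, ← Set.ncard_coe_finset]
      congr 1
      ext n
      rw [mem_coe, mem_filter]
      rfl
    rw [e2]
    exact to_sing2 (m := 2 * k) hk hcr0 hL1 hM0 hV hPi0 hPiL (by linarith) (by omega) r1 r2 (Nat.cast_nonneg _) e1
  · refine (hD4 S hS T hT1 (fun b hb => ?_)).trans hdown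
    have e1 := hT2 b hb
    refine e1.trans_le ?_
    have e2 : (1 / 8 : ℝ) ^ k * (((S : Set ℕ) ∩ {m | ∀ i, RoF z (q i) (b i) m}).ncard / (Vz z ^ k * Pi')) ≤
        (137 / 1000) ^ k / (Vz z ^ k * Pi') * ((S : Set ℕ) ∩ {m | ∀ i, RoF z (q i) (b i) m}).ncard := by
      have e3 : (1 / 8 : ℝ) ^ k ≤ (137 / 1000) ^ k := pow_le_pow_left₀ (by norm_num) (by norm_num) k
      calc (1 / 8 : ℝ) ^ k * (((S : Set ℕ) ∩ {m | ∀ i, RoF z (q i) (b i) m}).ncard / (Vz z ^ k * Pi')) ≤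
          (137 / 1000) ^ k * (((S : Set ℕ) ∩ {m | ∀ i, RoF z (q i) (b i) m}).ncard / (Vz z ^ k * Pi')) :=
            mul_le_mul_of_nonneg_right e3 (by positivity)
        _ = _ := by ring
    linarith

end Pool.Agent.H579.R
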