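import Pool.Agent.H579.G.TupM
import Pool.Agent.H579.R.TupSR

set_option autoImplicit false

/-! The exceptional integers have a large radical: the version of `G/TupM`. -/

namespace Pool.Agent.H579.R


open Finset
open Pool.Agent.H373R2.T7 (lamz Vz pz Vz_pos Vz_inv_small mem_pz)
open Pool.Agent.Y614.GJ.Core (ev_log)
open Pool.Agent.H579.G
open Pool.Agent.H567.PP (rad)

theorem tupMainR (k : ℕ) (hk : 1 ≤ k) (ρ : ℝ) (hρ : 0 < ρ) (A : ℕ) :
    ∃ c : ℕ, ∀ A₀ : ℕ, ∃ B : ℕ, ∀ E : ℕ, B ≤ E → ∃ N₀ : ℕ, ∀ N : ℕ, N₀ ≤ N →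
      ∃ D : Finset ℕ, (D.card : ℝ) ≤ Real.log N ^ c ∧ (∀ d ∈ D, Real.log N ^ A₀ < (rad d : ℝ)) ∧
      ∀ q : Fin k → ℕ, (∀ i, 1 ≤ q i ∧ (q i : ℝ) ≤ (N : ℝ) ^ (4 / 5 - ρ) ∧ ∀ d ∈ D, ¬ d ∣ q i) → ∀ a : Fin k → ℤ,
      (∀ T : Finset (Fin k → ℤ), (∀ h ∈ T, Function.Injective h ∧ ∀ i, 0 ≤ h i ∧ h i ≤ N ∧ h i ≡ a i [ZMOD q i]) →
        (∀ h ∈ T, ((((Icc 1 N : Finset ℕ) : Set ℕ) ∩ {n | ∀ i, PrP (h i) n}).ncard : ℝ) <
          (1 / 8) ^ k * sing (fun _ => 1) h * (N / Real.log N ^ k)) →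
        (T.card : ℝ) ≤ (∏ i, ((N : ℝ) / q i)) / Real.log N ^ A) ∧
      ∀ S : Finset ℕ, S ⊆ Icc 1 N → ∀ T : Finset (Fin k → ℤ), (∀ h ∈ T, ∀ i, |h i| ≤ N ∧ h i ≡ a i [ZMOD q i]) →
        (∀ h ∈ T, (((S : Set ℕ) ∩ {n | ∀ i, PrP (h i) n}).ncard : ℝ) <
          (1 / 8) ^ k * (((S : Set ℕ) ∩ {n | ∀ i, RoP ⌈Real.log N ^ E⌉₊ (h i) n}).ncard /
            (Vz ⌈Real.log N ^ E⌉₊ * Real.log N) ^ k) - N / Real.log N ^ A) →
        (T.card : ℝ) ≤ (∏ i, ((N : ℝ) / q i)) / Real.log N ^ A := by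
  classical
  obtain ⟨cr, hcr0, hcr⟩ := rough_low k hk
  obtain ⟨c, hc⟩ := tupSR k ρ hρ (A + k + 1)
  refine ⟨c, fun A₀ => ?_⟩
  obtain ⟨B, hB⟩ := hc A₀
  refine ⟨B + 2, fun E hE => ?_⟩
  obtain ⟨n1, h1⟩ := hB E (by omega)
  obtain ⟨n2, h2⟩ := hcr (E + 1) 1
  obtain ⟨n3, h3⟩ := Filter.eventually_atTop.1 (ev_log 1 (s := 1) (by norm_num) (100 / ((138 / 1000) ^ k * cr) + 10))
  refine ⟨n1 + n2 + n3 + 2, fun N hN => ?_⟩
  obtain ⟨D, hD1, hD2, hD3⟩ := h1 N (by omega)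
  obtain ⟨hLR, -⟩ := h3 N (by omega)
  refine ⟨D, hD1, hD2, fun q hq a => ?_⟩
  have hN1 : 1 ≤ N := by omega
  have hN0 : (0 : ℝ) < N := by exact_mod_cast hN1
  have hR0 : 0 < 100 / ((138 / 1000 : ℝ) ^ k * cr) := by positivity
  have hL10 : 10 ≤ Real.log N := by linarith
  have hL1 : 1 ≤ Real.log N := by linarith
  have hL0 : 0 < Real.log N := by linarith
  have hPr : 0 ≤ ∏ i : Fin k, ((N : ℝ) / q i) := prod_nonneg fun i _ => by positivity
  have hdown : (∏ i, ((N : ℝ) / q i)) / Real.log N ^ (A + k + 1) ≤ (∏ i, ((N : ℝ) / q i)) / Real.log N ^ A :=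
    div_le_div_of_nonneg_left hPr (by positivity) (pow_le_pow_right₀ hL1 (by omega))
  have hNdown : (N : ℝ) / Real.log N ^ (A + k + 1) ≤ N / Real.log N ^ A :=
    div_le_div_of_nonneg_left hN0.le (by positivity) (pow_le_pow_right₀ hL1 (by omega))
  have hD4 := hD3 q hq a
  obtain ⟨z, hz⟩ : ∃ z, z = ⌈Real.log N ^ E⌉₊ := ⟨_, rfl⟩
  rw [← hz] at hD4 ⊢
  refine ⟨fun T hT1 hT2 => ?_, fun S hS T hT1 hT2 => ?_⟩
  · refine (hD4 (Icc 1 N) (Subset.refl _) T (fun h hh i => ?_) (fun h hh => ?_)).trans hdown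
    · obtain ⟨e1, e2, e3⟩ := (hT1 h hh).2 i
      exact ⟨abs_le.2 ⟨by linarith, e2⟩, e3⟩
    · obtain ⟨hinj, hh0⟩ := hT1 h hh
      have e1 := hT2 h hh
      have hzlo : Real.log N ^ E ≤ z := by rw [hz]; exact Nat.le_ceil _
      have hzhi : (z : ℝ) ≤ Real.log N ^ (E + 1) := by
        have := Nat.ceil_lt_add_one (show 0 ≤ Real.log N ^ E by positivity)
        rw [← hz] at this
        have hLE : 1 ≤ Real.log N ^ E := one_le_pow₀ hL1
        calc (z : ℝ) ≤ Real.log N ^ E + 1 := this.le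
          _ ≤ Real.log N ^ E + Real.log N ^ E := by linarith
          _ = 2 * Real.log N ^ E := by ring
          _ ≤ Real.log N * Real.log N ^ E := mul_le_mul_of_nonneg_right (by linarith) (by positivity)
          _ = Real.log N ^ (E + 1) := by ring
      obtain ⟨r1, r2⟩ := h2 N (by omega) z ((pow_le_pow_right₀ hL1 (by omega)).trans hzlo) hzhi (fun _ => 1) h
        (fun _ => one_ne_zero) (fun i j hij e => hij (hinj (by linarith)).symm)
        (fun _ => by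
          rw [Int.natAbs_one]
          exact Nat.one_le_pow _ _ hN1)
        (fun i => by
          have := (hh0 i).1
          have := (hh0 i).2.1
          rw [pow_one]
          omega)
      have e2 : (((Icc 1 N : Finset ℕ) : Set ℕ) ∩ {n | ∀ i, RoP z (h i) n}).ncard =
          ((Icc 1 N).filter (fun m => ∀ p ∈ pz z, ¬ Qf (fun _ => 1) h p m)).card := by
        rw [rough_shift (fun i => (hh0 i).1), ← Set.ncard_coe_finset]
        congr 1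
        ext n
        rw [mem_coe, mem_filter]
        rfl
      rw [e2]
      exact to_sing hk hcr0 hL1 hN0 (Vz_pos z) (by linarith) (by omega) r1 r2 (Nat.cast_nonneg _) e1
  · refine (hD4 S hS T hT1 (fun h hh => ?_)).trans hdown
    have e1 := hT2 h hh
    refine e1.trans_le ?_
    have hV := Vz_pos z
    have e2 : (1 / 8 : ℝ) ^ k * (((S : Set ℕ) ∩ {n | ∀ i, RoP z (h i) n}).ncard / (Vz z * Real.log N) ^ k) ≤
        (138 / 1000 / (Vz z * Real.log N)) ^ k * ((S : Set ℕ) ∩ {n | ∀ i, RoP z (h i) n}).ncard := by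
      rw [div_pow (138 / 1000 : ℝ)]
      have e3 : (1 / 8 : ℝ) ^ k ≤ (138 / 1000) ^ k := pow_le_pow_left₀ (by norm_num) (by norm_num) k
      calc (1 / 8 : ℝ) ^ k * (((S : Set ℕ) ∩ {n | ∀ i, RoP z (h i) n}).ncard / (Vz z * Real.log N) ^ k) ≤
          (138 / 1000) ^ k * (((S : Set ℕ) ∩ {n | ∀ i, RoP z (h i) n}).ncard / (Vz z * Real.log N) ^ k) :=
            mul_le_mul_of_nonneg_right e3 (by positivity)
        _ = _ := by ring
    linarith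

end Pool.Agent.H579.R
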