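import Pool.Agent.H579.G.TupP
import Pool.Agent.H579.R.Tup4R

set_option autoImplicit false

/-! The exceptional integers have a large radical: the version of `G/TupP`. -/

namespace Pool.Agent.H579.R


open Finset
open Pool.Agent.H373R2.T7
open Pool.Agent.Y614.GJ.Core (ev_log)
open Pool.Agent.H579.G
open Pool.Agent.H567.PP (rad)

/-- prime tuples with the weights -/
theorem tupPR (k : ℕ) (hk : 1 ≤ k) {ρ : ℝ} (hρ : 0 < ρ) (A : ℕ) :
    ∃ c : ℕ, ∀ A₀ : ℕ, ∃ N₀ : ℕ, ∀ N : ℕ, N₀ ≤ N →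
      ∃ D : Finset ℕ, (D.card : ℝ) ≤ Real.log N ^ c ∧ (∀ d ∈ D, Real.log N ^ A₀ < (rad d : ℝ)) ∧
      ∀ q : Fin k → ℕ, (∀ i, 1 ≤ q i ∧ (q i : ℝ) ≤ (N : ℝ) ^ (2 / 3 - ρ) ∧ ∀ d ∈ D, ¬ d ∣ q i) → ∀ a : Fin k → ℤ,
      ∀ T : Finset (Fin k → ℤ), (∀ h ∈ T, Function.Injective h ∧ ∀ i, 0 < h i ∧ h i ≤ N ∧ h i ≡ a i [ZMOD q i]) →
        (∀ h ∈ T, N / Real.log N ^ A < |wsum N h - sing (fun _ => 1) (cons0 h) * N|) →
        (T.card : ℝ) ≤ (∏ i, ((N : ℝ) / q i)) / Real.log N ^ A := by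
  classical
  obtain ⟨c, hc⟩ := tup4R k hk hρ (A + 2)
  obtain ⟨B₂, hB₂⟩ := prime_main k hk (A + 1)
  refine ⟨c, fun A₀ => ?_⟩
  obtain ⟨B, hB⟩ := hc A₀
  obtain ⟨n1, h1⟩ := hB (B + B₂) (by omega)
  obtain ⟨n2, h2⟩ := hB₂ (B + B₂ + 1)
  obtain ⟨n3, h3⟩ := zpar (B + B₂)
  refine ⟨n1 + n2 + n3 + 1, fun N hN => ?_⟩
  obtain ⟨D, hD1, hD2, -, hD3⟩ := h1 N (by omega)
  obtain ⟨hL10, hzlo, hzhi, hV⟩ := h3 N (by omega)
  have hN1 : 1 ≤ N := by omega
  have hN0 : (0 : ℝ) < N := by exact_mod_cast hN1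
  refine ⟨D, hD1, hD2, fun q hq a T hT hT2 => ?_⟩
  obtain ⟨hD4, -⟩ := hD3 q hq a
  obtain ⟨z, hz⟩ : ∃ z, z = ⌈Real.log N ^ (B + B₂)⌉₊ := ⟨_, rfl⟩
  rw [← hz] at hD4 hzlo hzhi
  have hL0 : 0 < Real.log N := by linarith
  have hL1 : 1 ≤ Real.log N := by linarith
  have hPr : 0 ≤ ∏ i : Fin k, ((N : ℝ) / q i) := prod_nonneg fun i _ => by positivity
  refine (hD4 (Icc 1 N) (Subset.refl _) (fun n => thp n / (2 * Real.log N)) (fun n hn => ?_) T (fun h hh i => ?_)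
    (fun h hh => ?_)).trans (div_le_div_of_nonneg_left hPr (by positivity) (pow_le_pow_right₀ hL1 (by omega)))
  · rw [mem_Icc] at hn
    rw [abs_div, abs_of_pos (show 0 < 2 * Real.log N by linarith), div_le_one (by linarith)]
    exact thp_le (by linarith) (by omega)
  · obtain ⟨e1, e2, e3⟩ := (hT h hh).2 i
    exact ⟨abs_le.2 ⟨by linarith, e2⟩, e3⟩
  · obtain ⟨hinj, hh0⟩ := hT h hh
    have e1 := hT2 h hh
    have e2 := h2 N (by omega) z ((pow_le_pow_right₀ hL1 (by omega)).trans hzlo) hzhi h hinj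
      (fun i => ⟨(hh0 i).1, (hh0 i).2.1⟩)
    unfold wsum at e1
    have e3 : ∑ n ∈ Icc 1 N, thp n / (2 * Real.log N) * (∏ i, ex thp (h i) n - ∏ i, ex (lamz z) (h i) n) =
        (∑ n ∈ Icc 1 N, thp n * ∏ i, ex thp (h i) n - ∑ n ∈ Icc 1 N, thp n * ∏ i, ex (lamz z) (h i) n) /
          (2 * Real.log N) := by
      rw [← sum_sub_distrib, sum_div]
      refine sum_congr rfl fun n _ => ?_
      ring
    rw [e3, abs_div, abs_of_pos (show 0 < 2 * Real.log N by linarith), lt_div_iff₀ (by linarith)]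
    have e4 := abs_sub_le (∑ n ∈ Icc 1 N, thp n * ∏ i, ex thp (h i) n)
      (∑ n ∈ Icc 1 N, thp n * ∏ i, ex (lamz z) (h i) n) (sing (fun _ => 1) (cons0 h) * N)
    have e5 : (N : ℝ) / Real.log N ^ (A + 2) * (2 * Real.log N) + N / Real.log N ^ (A + 1) ≤ N / Real.log N ^ A := by
      calc (N : ℝ) / Real.log N ^ (A + 2) * (2 * Real.log N) + N / Real.log N ^ (A + 1) =
          N / Real.log N ^ A * (3 / Real.log N) := by
            rw [pow_add, pow_add]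
            field_simp
            ring
        _ ≤ N / Real.log N ^ A * 1 := by
            refine mul_le_mul_of_nonneg_left ?_ (by positivity)
            rw [div_le_one hL0]
            linarith
        _ = _ := mul_one _
    linarith

end Pool.Agent.H579.R
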