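import Pool.Agent.H579.G.TupW
import Pool.Agent.H579.R.WtFmR

set_option autoImplicit false

/-! The exceptional integers have a large radical: the version of `G/TupW`. -/

namespace Pool.Agent.H579.R


open Finset
open Pool.Agent.H373R2.T7 (lamz Vz pz Vz_pos Vz_inv_small mem_pz)
open Pool.Agent.Y614.GJ.Core (ev_log)
open Pool.Agent.H579.G
open Pool.Agent.H567.PP (rad)

theorem tupWR (k : ℕ) {ρ : ℝ} (hρ : 0 < ρ) (hρ1 : ρ ≤ 1) (A : ℕ) :
    ∃ c : ℕ, ∀ A₀ : ℕ, ∃ B : ℕ, ∀ E : ℕ, B ≤ E → ∃ N₀ : ℕ, ∃ D : ℕ → Finset ℕ,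
      (∀ N : ℕ, N₀ ≤ N → ((D N).card : ℝ) ≤ Real.log N ^ c ∧ ∀ d ∈ D N, Real.log N ^ A₀ < (rad d : ℝ)) ∧
      ∀ M : ℕ, N₀ ≤ M →
      ∀ q : Fin k → ℕ, (∀ i, 1 ≤ q i ∧ (q i : ℝ) ^ (1 / 2 + ρ) ≤ M ∧ ∀ d ∈ D (q i * M), ¬ d ∣ q i) →
      ∀ S : Finset ℕ, S ⊆ Icc 1 M → ∀ w : ℕ → ℝ, (∀ n ∈ S, |w n| ≤ 1) →
      ∀ T : Finset (Fin k → ℤ), (∀ b ∈ T, ∀ i, 1 ≤ b i ∧ b i ≤ q i * M) →
      (∀ b ∈ T, M / Real.log M ^ A < |∑ m ∈ S, w m * (∏ i, thp (q i * m + (b i).toNat) -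
        ∏ i, lamz ⌈Real.log M ^ E⌉₊ (q i * m + (b i).toNat))|) →
      (T.card : ℝ) ≤ (∏ i, ((q i : ℝ) * M)) / Real.log M ^ A := by
  classical
  obtain ⟨c, hc⟩ := wtFmR hρ hρ1 (A + k + 1)
  refine ⟨c, fun A₀ => ?_⟩
  obtain ⟨B, hB⟩ := hc A₀
  refine ⟨B, fun E hE => ?_⟩
  obtain ⟨n1, D, hD, h1⟩ := hB E hE
  obtain ⟨n2, h2⟩ := zpar E
  obtain ⟨n3, h3⟩ := Filter.eventually_atTop.1 (ev_log 1 (s := 1) (by norm_num) (k * 4 ^ k + 200))
  refine ⟨n1 + n2 + n3 + 1, D, fun N hN => hD N (by omega), fun M hM q hq S hS w hw T hTH hT => ?_⟩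
  obtain ⟨hLk, -⟩ := h3 M (by omega)
  obtain ⟨-, -, -, hV⟩ := h2 M (by omega)
  have hM1 : 1 ≤ M := by omega
  have hM0 : (0 : ℝ) < M := by exact_mod_cast hM1
  obtain ⟨z, hz⟩ : ∃ z, z = ⌈Real.log M ^ E⌉₊ := ⟨_, rfl⟩
  obtain ⟨L, hL⟩ : ∃ L, L = Real.log (M : ℝ) := ⟨_, rfl⟩
  have hkk : (0 : ℝ) ≤ (k : ℝ) * 4 ^ k := by positivity
  have h1' := h1 M (by omega)
  rw [← hz] at hT h1' hV
  rw [← hL] at hLk hT h1' hV ⊢
  have hL200 : 200 ≤ L := by linarith
  have hL0 : 0 < L := by linarith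
  have hL1 : 1 ≤ L := by linarith
  have hVp := Vz_pos z
  obtain ⟨K, hK⟩ : ∃ K : ℝ, K = 4 * L := ⟨_, rfl⟩
  have hK0 : 0 < K := by rw [hK]; positivity
  have hK1 : 1 ≤ K := by rw [hK]; linarith
  obtain ⟨A', hA'⟩ : ∃ A', A' = A + k + 1 := ⟨_, rfl⟩
  rw [← hA'] at h1'
  have hLA : 0 < L ^ A' := by positivity
  have hsz : ∀ i, ∀ b : ℤ, 1 ≤ b → b ≤ q i * M → ∀ m ∈ S, q i * m + b.toNat ≤ 2 * q i * M := by
    intro i b hb1 hb2 m hm
    have hmI := mem_Icc.1 (hS hm)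
    have e1 : q i * m ≤ q i * M := Nat.mul_le_mul_left _ hmI.2
    have e2 : b.toNat ≤ q i * M := by
      have : b ≤ ((q i * M : ℕ) : ℤ) := by push_cast; exact hb2
      omega
    have e3 : 2 * q i * M = q i * M + q i * M := by ring
    omega
  have hmul := multi2 (δ := M / L ^ A' / K) (η := 1 / L ^ A') (by positivity) k S
    (fun i => Icc 1 ((q i : ℤ) * M)) (fun i => (q i : ℝ) * M)
    (fun i b m => thp (q i * m + b.toNat) / K) (fun i b m => lamz z (q i * m + b.toNat) / K) ?_ ?_ ?_ ?_ w hw T ?_ ?_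
  · refine hmul.trans ?_
    have hPr' : 0 ≤ ∏ i : Fin k, ((q i : ℝ) * M) := prod_nonneg fun i _ => by positivity
    obtain ⟨Pr, hPr⟩ : ∃ Pr : ℝ, Pr = ∏ i : Fin k, ((q i : ℝ) * M) := ⟨_, rfl⟩
    rw [← hPr] at hPr' ⊢
    calc (k : ℝ) * (1 / L ^ A') * Pr = (Pr / L ^ A) * (k / L ^ (k + 1)) := by
          rw [hA', add_assoc, pow_add L A]
          field_simp
      _ ≤ (Pr / L ^ A) * 1 := by
          refine mul_le_mul_of_nonneg_left ?_ (by positivity)
          rw [div_le_one (by positivity)]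
          have e1 : (1 : ℝ) ≤ 4 ^ k := one_le_pow₀ (by norm_num)
          have e2 : (k : ℝ) ≤ k * 4 ^ k := le_mul_of_one_le_right (Nat.cast_nonneg _) e1
          have e3 : L ≤ L ^ (k + 1) := le_self_pow₀ hL1 (by omega)
          linarith
      _ = _ := mul_one _
  · intro i
    rw [Int.card_Icc]
    have : ((q i : ℤ) * M + 1 - 1).toNat = q i * M := by
      rw [add_sub_cancel_right]
      exact_mod_cast Int.toNat_natCast _
    rw [this]
    push_cast
    exact le_rfl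
  · intro i b hb m hm
    rw [mem_Icc] at hb
    rw [abs_div, abs_of_pos hK0, div_le_one hK0]
    refine thp_le' (hsz i b hb.1 hb.2 m hm) ?_ hK0.le
    rw [hK]
    exact (slope_log hρ hL (by linarith) hM1 (hq i).1 (hq i).2.1).1
  · intro i b _ m _
    rw [abs_div, abs_of_pos hK0, div_le_one hK0]
    unfold lamz
    split_ifs
    · rw [abs_of_pos (inv_pos.2 hVp), hK]
      linarith
    · rw [abs_zero]
      exact hK0.le
  · intro i w' hw' F hF hF2
    have hinj : (F.image Int.toNat).card = F.card := by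
      refine card_image_of_injOn fun x hx y hy hxy => ?_
      have e1 := mem_Icc.1 (hF hx)
      have e2 := mem_Icc.1 (hF hy)
      omega
    rw [← hinj]
    refine (h1' (q i) (hq i).1 (hq i).2.1 (hq i).2.2 S hS w' hw' (F.image Int.toNat) (fun b hb => ?_)
      (fun b hb => ?_)).trans (le_of_eq ?_)
    · rw [mem_image] at hb
      obtain ⟨b', hb', rfl⟩ := hb
      have e1 := mem_Icc.1 (hF hb')
      rw [mem_Icc]
      have : b' ≤ ((q i * M : ℕ) : ℤ) := by push_cast; exact e1.2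
      constructor <;> omega
    · rw [mem_image] at hb
      obtain ⟨b', hb', rfl⟩ := hb
      have e1 := hF2 b' hb'
      have e2 : ∑ m ∈ S, w' m * (thp (q i * m + b'.toNat) / K - lamz z (q i * m + b'.toNat) / K) =
          (∑ m ∈ S, w' m * (thp (q i * m + b'.toNat) - lamz z (q i * m + b'.toNat))) / K := by
        rw [sum_div]
        refine sum_congr rfl fun m _ => ?_
        ring
      rw [e2, abs_div, abs_of_pos hK0, div_lt_div_iff_of_pos_right hK0] at e1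
      exact e1
    · ring
  · intro b hb i
    obtain ⟨e1, e2⟩ := hTH b hb i
    exact mem_Icc.2 ⟨e1, e2⟩
  · intro b hb
    have e1 := hT b hb
    have e2 : ∑ m ∈ S, w m * (∏ i, thp (q i * m + (b i).toNat) / K - ∏ i, lamz z (q i * m + (b i).toNat) / K) =
        (∑ m ∈ S, w m * (∏ i, thp (q i * m + (b i).toNat) - ∏ i, lamz z (q i * m + (b i).toNat))) / K ^ k := by
      rw [sum_div]
      refine sum_congr rfl fun n _ => ?_
      rw [prod_div_distrib, prod_div_distrib, prod_const, card_univ, Fintype.card_fin]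
      ring
    rw [e2, abs_div, abs_of_pos (pow_pos hK0 k), lt_div_iff₀ (pow_pos hK0 k)]
    refine lt_of_le_of_lt ?_ e1
    have e3 : (k : ℝ) * (M / L ^ A' / K) * K ^ k ≤ k * (M / L ^ A') * K ^ k := by
      have : (M : ℝ) / L ^ A' / K ≤ M / L ^ A' := div_le_self (by positivity) hK1
      gcongr
    refine e3.trans ?_
    calc (k : ℝ) * (M / L ^ A') * K ^ k = (M / L ^ A) * ((k * 4 ^ k) / L) := by
          rw [hA', hK, mul_pow, pow_add, pow_add]
          field_simp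
      _ ≤ (M / L ^ A) * 1 := by
          refine mul_le_mul_of_nonneg_left ?_ (by positivity)
          rw [div_le_one hL0]
          linarith
      _ = _ := mul_one _

end Pool.Agent.H579.R
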