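import Pool.Agent.H579.G.TupX
import Pool.Agent.H579.R.TupWR

set_option autoImplicit false

/-! The exceptional integers have a large radical: the version of `G/TupX`. -/

namespace Pool.Agent.H579.R


open Finset
open Pool.Agent.H373R2.T7
open Pool.Agent.Y614.GJ.Core (ev_log)
open Pool.Agent.H579.G
open Pool.Agent.H567.PP (rad)

theorem tupXR (k : ℕ) (hk : 1 ≤ k) {ρ : ℝ} (hρ : 0 < ρ) (hρ1 : ρ ≤ 1) (A : ℕ) :
    ∃ c : ℕ, ∀ A₀ : ℕ, ∃ N₀ : ℕ, ∃ D : ℕ → Finset ℕ,
      (∀ N : ℕ, N₀ ≤ N → ((D N).card : ℝ) ≤ Real.log N ^ c ∧ ∀ d ∈ D N, Real.log N ^ A₀ < (rad d : ℝ)) ∧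
      ∀ M : ℕ, N₀ ≤ M →
      ∀ q : Fin k → ℕ, (∀ i, 1 ≤ q i ∧ (q i : ℝ) ^ (1 / 2 + ρ) ≤ M ∧ ∀ d ∈ D (q i * M), ¬ d ∣ q i) →
      ∀ T : Finset (Fin k → ℤ), (∀ b ∈ T, (∀ i j, i ≠ j → (q i : ℤ) * b j ≠ q j * b i) ∧
        ∀ i, 1 ≤ b i ∧ b i ≤ q i * M) →
      (∀ b ∈ T, ∃ y : ℕ, y ≤ M ∧ M / Real.log M ^ A <
        |fsum q b y - sing (cons1 fun i => (q i : ℤ)) (cons0 b) * y|) →
      (T.card : ℝ) ≤ (∏ i, ((q i : ℝ) * M)) / Real.log M ^ A := by
  classical
  obtain ⟨A₂, hA₂⟩ : ∃ A₂, A₂ = 2 * A + k + 6 := ⟨_, rfl⟩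
  obtain ⟨c, hc⟩ := tupWR k hρ hρ1 A₂
  obtain ⟨B₂, hB₂⟩ := main_y k hk (A + 2) 4
  refine ⟨c, fun A₀ => ?_⟩
  obtain ⟨B, hB⟩ := hc A₀
  obtain ⟨n1, D, hD, h1⟩ := hB (B + B₂) (by omega)
  obtain ⟨n2, h2⟩ := hB₂ (B + B₂ + 1)
  obtain ⟨n3, h3⟩ := zpar (B + B₂)
  obtain ⟨n4, h4⟩ := Filter.eventually_atTop.1 (ev_log (A + k + 4) (s := 1) (by norm_num) 20)
  refine ⟨n1 + n2 + n3 + n4 + 2, D, fun N hN => hD N (by omega), fun M hM q hq T hTH hT => ?_⟩
  obtain ⟨hL10, hzlo, hzhi, hV⟩ := h3 M (by omega)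
  obtain ⟨hL20, hLp⟩ := h4 M (by omega)
  have hM1 : 1 ≤ M := by omega
  have hM0 : (0 : ℝ) < M := by exact_mod_cast hM1
  obtain ⟨z, hz⟩ : ∃ z, z = ⌈Real.log M ^ (B + B₂)⌉₊ := ⟨_, rfl⟩
  have h1' := h1 M (by omega) q hq
  have h2' := h2 M (by omega) z
  rw [← hz] at h1' hzlo hzhi hV
  obtain ⟨L, hL⟩ : ∃ L, L = Real.log (M : ℝ) := ⟨_, rfl⟩
  rw [← hL] at h1' h2' hzlo hzhi hV hL10 hL20 hLp hT ⊢
  rw [Real.rpow_one] at hLp
  have hL0 : 0 < L := by linarith
  have hL1 : 1 ≤ L := by linarith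
  have hs0 := fun b : Fin k → ℤ => sing_nn' (cons1 fun i => (q i : ℤ)) (cons0 b)
  -- the sizes
  have hqM : ∀ i, (q i : ℤ).natAbs ≤ M ^ 4 := by
    intro i
    have e1 := (slope_log hρ hL (by linarith) hM1 (hq i).1 (hq i).2.1).2
    have e2 : (q i : ℝ) ≤ ((M ^ 2 : ℕ) : ℝ) := by
      push_cast
      rw [← Real.rpow_natCast]
      exact_mod_cast e1
    have e3 : q i ≤ M ^ 2 := by exact_mod_cast e2
    rw [Int.natAbs_natCast]
    exact e3.trans (Nat.pow_le_pow_right hM1 (by norm_num))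
  have hbM : ∀ b ∈ T, ∀ i, (b i).natAbs ≤ M ^ 4 := by
    intro b hb i
    obtain ⟨e1, e2⟩ := (hTH b hb).2 i
    have e3 := (slope_log hρ hL (by linarith) hM1 (hq i).1 (hq i).2.1).2
    have e4 : (q i : ℝ) ≤ ((M ^ 2 : ℕ) : ℝ) := by
      push_cast
      rw [← Real.rpow_natCast]
      exact_mod_cast e3
    have e5 : q i ≤ M ^ 2 := by exact_mod_cast e4
    have e6 : (b i).natAbs ≤ q i * M := by
      have : b i ≤ ((q i * M : ℕ) : ℤ) := by push_cast; exact e2
      omega
    calc (b i).natAbs ≤ q i * M := e6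
      _ ≤ M ^ 2 * M := Nat.mul_le_mul_right M e5
      _ = M ^ 3 := by ring
      _ ≤ M ^ 4 := Nat.pow_le_pow_right hM1 (by norm_num)
  -- no common prime factors
  have hcop : ∀ b ∈ T, ∀ p : ℕ, p.Prime → ∀ i, ¬ ((p : ℤ) ∣ q i ∧ (p : ℤ) ∣ b i) := by
    intro b hb p hp i hpi
    obtain ⟨y, -, hy⟩ := hT b hb
    have e1 := fsum_zero (q := q) (b := b) hp (hq i).1 ((hTH b hb).2 i).1 hpi.1 hpi.2 y
    have e2 : sing (cons1 fun i => (q i : ℤ)) (cons0 b) = 0 := by
      refine sing_zero hp (nu_all i.succ ?_ ?_)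
      · unfold cons1
        rw [Fin.cons_succ]
        exact hpi.1
      · unfold cons0
        rw [Fin.cons_succ]
        exact hpi.2
    rw [e1, e2, zero_mul, sub_zero, abs_zero] at hy
    have : (0 : ℝ) ≤ M / L ^ A := by positivity
    linarith
  have hmain : ∀ b ∈ T, (∀ y : ℕ, y ≤ M → |∑ n ∈ Icc 1 y, thp n * ∏ i, mF z (q i : ℤ) (b i) n -
      sing (cons1 fun i => (q i : ℤ)) (cons0 b) * y| ≤ M / L ^ (A + 2)) ∧
      sing (cons1 fun i => (q i : ℤ)) (cons0 b) ≤ 2 * L ^ (k + 1) := by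
    intro b hb
    refine h2' ((pow_le_pow_right₀ hL1 (by omega)).trans hzlo) hzhi (fun i => (q i : ℤ)) b (fun i => ?_) (fun i => ?_)
      (hTH b hb).1 hqM (hbM b hb) (fun p hp _ i => hcop b hb p hp i)
    · have := (hq i).1
      omega
    · have := ((hTH b hb).2 i).1
      omega
  -- the grid
  obtain ⟨K, hK⟩ : ∃ K, K = ⌈L ^ (A + k + 3)⌉₊ := ⟨_, rfl⟩
  have hLK : L ^ (A + k + 3) ≤ K := by rw [hK]; exact Nat.le_ceil _
  have hLK1 : 1 ≤ L ^ (A + k + 3) := one_le_pow₀ hL1
  have hK1 : 1 ≤ K := by exact_mod_cast hLK1.trans hLK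
  have hK0 : (0 : ℝ) < K := by exact_mod_cast hK1
  have hKhi : (K : ℝ) ≤ 2 * L ^ (A + k + 3) := by
    have := Nat.ceil_lt_add_one (show 0 ≤ L ^ (A + k + 3) by positivity)
    rw [← hK] at this
    linarith
  obtain ⟨Y, hY⟩ : ∃ Y : ℕ → ℕ, Y = fun j => min M (j * M / K) := ⟨_, rfl⟩
  have hYM : ∀ j, Y j ≤ M := fun j => by rw [hY]; exact min_le_left _ _
  obtain ⟨Tj, hTj⟩ : ∃ Tj : ℕ → Finset (Fin k → ℤ), Tj = fun j => T.filter (fun b => M / L ^ (A + 1) <
    |fsum q b (Y j) - sing (cons1 fun i => (q i : ℤ)) (cons0 b) * Y j|) := ⟨_, rfl⟩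
  obtain ⟨Pr, hPr⟩ : ∃ Pr : ℝ, Pr = ∏ i, ((q i : ℝ) * M) := ⟨_, rfl⟩
  have hPr0 : 0 ≤ Pr := by
    rw [hPr]
    exact prod_nonneg fun i _ => by positivity
  rw [← hPr] at h1' ⊢
  have hfew : ∀ j, ((Tj j).card : ℝ) ≤ Pr / L ^ A₂ := by
    intro j
    refine h1' (Icc 1 (Y j)) (Icc_subset_Icc_right (hYM j)) (fun m => thp m / L) (fun m hm => ?_) (Tj j)
      (fun b hb => ?_) (fun b hb => ?_)
    · rw [mem_Icc] at hm
      rw [abs_div, abs_of_pos hL0, div_le_one hL0]
      exact thp_le' (hm.2.trans (hYM j)) (le_of_eq hL.symm) hL0.le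
    · rw [hTj] at hb
      simp only [mem_filter] at hb
      exact (hTH b hb.1).2
    · rw [hTj] at hb
      simp only [mem_filter] at hb
      have e1 := (hmain b hb.1).1 (Y j) (hYM j)
      have e2 : ∑ m ∈ Icc 1 (Y j), thp m / L * (∏ i, thp (q i * m + (b i).toNat) -
          ∏ i, lamz z (q i * m + (b i).toNat)) =
          (fsum q b (Y j) - ∑ n ∈ Icc 1 (Y j), thp n * ∏ i, mF z (q i : ℤ) (b i) n) / L := by
        unfold fsum
        rw [← sum_sub_distrib, sum_div]
        refine sum_congr rfl fun m _ => ?_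
        rw [prod_congr rfl fun i _ => lamz_mF (z := z) (q := q i) (m := m)
          (b := b i) (by have := ((hTH b hb.1).2 i).1; omega)]
        ring
      rw [e2, abs_div, abs_of_pos hL0, lt_div_iff₀ hL0]
      have e3 := abs_sub_le (fsum q b (Y j)) (∑ n ∈ Icc 1 (Y j), thp n * ∏ i, mF z (q i : ℤ) (b i) n)
        (sing (cons1 fun i => (q i : ℤ)) (cons0 b) * Y j)
      have e4 : (M : ℝ) / L ^ A₂ * L + M / L ^ (A + 2) ≤ M / L ^ (A + 1) := by
        have f1 : (M : ℝ) / L ^ A₂ * L ≤ M / L ^ (A + 2) := by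
          have : (M : ℝ) / L ^ A₂ * L = M / L ^ (2 * A + k + 5) := by
            rw [hA₂, show 2 * A + k + 6 = (2 * A + k + 5) + 1 by ring, pow_succ]
            field_simp
          rw [this]
          exact div_le_div_of_nonneg_left hM0.le (by positivity) (pow_le_pow_right₀ hL1 (by omega))
        have f2 : (M : ℝ) / L ^ (A + 2) * 2 ≤ M / L ^ (A + 1) := by
          rw [show A + 2 = (A + 1) + 1 by ring, pow_succ L (A + 1)]
          calc (M : ℝ) / (L ^ (A + 1) * L) * 2 = M / L ^ (A + 1) * (2 / L) := by field_simp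
            _ ≤ M / L ^ (A + 1) * 1 := by
                refine mul_le_mul_of_nonneg_left ?_ (by positivity)
                rw [div_le_one hL0]
                linarith
            _ = _ := mul_one _
        linarith
      linarith [hb.2]
  have hcov : T ⊆ (range (K + 2)).biUnion Tj := by
    intro b hb
    by_contra hcon
    rw [mem_biUnion] at hcon
    push Not at hcon
    have hgrid : ∀ j ∈ range (K + 2), |fsum q b (Y j) - sing (cons1 fun i => (q i : ℤ)) (cons0 b) * Y j| ≤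
        M / L ^ (A + 1) := by
      intro j hj
      have := hcon j hj
      rw [hTj] at this
      simp only [mem_filter, not_and, not_lt] at this
      exact this hb
    obtain ⟨y, hyM, hy⟩ := hT b hb
    obtain ⟨s, hs⟩ : ∃ s, s = sing (cons1 fun i => (q i : ℤ)) (cons0 b) := ⟨_, rfl⟩
    have hsing := (hmain b hb).2
    have hs0' := hs0 b
    rw [← hs] at hgrid hy hsing hs0'
    obtain ⟨j, hj⟩ : ∃ j, j = y * K / M := ⟨_, rfl⟩
    have hjK : j ≤ K := by
      rw [hj]
      refine Nat.div_le_of_le_mul ?_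
      exact Nat.mul_le_mul_right K hyM
    have hjlo : j * M ≤ y * K := by
      rw [hj]
      exact Nat.div_mul_le_self _ _
    have hjhi : y * K < (j + 1) * M := by
      rw [hj]
      have := Nat.lt_div_mul_add (a := y * K) (b := M) (by omega)
      linarith
    have hY1 : Y j ≤ y := by
      rw [hY]
      refine (min_le_right _ _).trans ?_
      refine Nat.div_le_of_le_mul ?_
      rw [mul_comm K y]
      exact hjlo
    have hY2 : y ≤ Y (j + 1) := by
      rw [hY]
      refine le_min hyM ?_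
      rw [Nat.le_div_iff_mul_le (by omega)]
      exact hjhi.le
    have hY3 : (Y (j + 1) : ℝ) - Y j ≤ M / K + 1 := by
      have f1 : (Y (j + 1) : ℝ) ≤ min (M : ℝ) ((j + 1) * M / K) := by
        rw [hY]
        simp only [Nat.cast_min]
        refine min_le_min le_rfl ?_
        refine Nat.cast_div_le.trans (le_of_eq ?_)
        push_cast
        ring
      have f2 : min (M : ℝ) (j * M / K) - 1 ≤ Y j := by
        rw [hY]
        simp only [Nat.cast_min]
        have g1 : (j : ℝ) * M / K - 1 ≤ ((j * M / K : ℕ) : ℝ) := by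
          have g2 := Nat.lt_floor_add_one (((j * M : ℕ) : ℝ) / K)
          rw [Nat.floor_div_natCast, Nat.floor_natCast] at g2
          push_cast at g2
          linarith
        rcases le_total (M : ℝ) (j * M / K) with g3 | g3
        · rw [min_eq_left g3]
          refine le_min (by linarith) ?_
          linarith
        · rw [min_eq_right g3]
          refine le_min ?_ g1
          linarith
      have f3 : ((j : ℝ) + 1) * M / K = j * M / K + M / K := by ring
      rw [f3] at f1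
      have f4 : min (M : ℝ) (j * M / K + M / K) ≤ min (M : ℝ) (j * M / K) + M / K := by
        have f5 : (0 : ℝ) ≤ M / K := by positivity
        rcases le_total (M : ℝ) (j * M / K) with g3 | g3
        · rw [min_eq_left g3]
          exact (min_le_left _ _).trans (by linarith)
        · rw [min_eq_right g3]
          exact min_le_right _ _
      linarith
    have g1 := hgrid j (mem_range.2 (by omega))
    have g2 := hgrid (j + 1) (mem_range.2 (by omega))
    have m1 := fsum_mono q b hY1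
    have m2 := fsum_mono q b hY2
    have hY1r : (Y j : ℝ) ≤ y := by exact_mod_cast hY1
    have hY2r : (y : ℝ) ≤ Y (j + 1) := by exact_mod_cast hY2
    have hMK : (M : ℝ) / K + 1 ≤ 2 * (M / L ^ (A + k + 3)) := by
      have k1 : (M : ℝ) / K ≤ M / L ^ (A + k + 3) := div_le_div_of_nonneg_left hM0.le (by positivity) hLK
      have k2 : (1 : ℝ) ≤ M / L ^ (A + k + 3) := by
        rw [one_le_div (by positivity)]
        exact (pow_le_pow_right₀ hL1 (by omega)).trans hLp
      linarith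
    have hgap : s * ((Y (j + 1) : ℝ) - Y j) ≤ 4 * (M / L ^ (A + 2)) := by
      calc s * ((Y (j + 1) : ℝ) - Y j) ≤ (2 * L ^ (k + 1)) * (2 * (M / L ^ (A + k + 3))) := by
            refine mul_le_mul hsing (hY3.trans hMK) ?_ (by positivity)
            linarith
        _ = 4 * (M / L ^ (A + 2)) := by
            rw [show A + k + 3 = (k + 1) + (A + 2) by ring, pow_add]
            field_simp
            ring
    have hfin : M / L ^ (A + 1) + 4 * (M / L ^ (A + 2)) ≤ M / L ^ A := by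
      calc M / L ^ (A + 1) + 4 * (M / L ^ (A + 2)) = M / L ^ A * (1 / L + 4 / L ^ 2) := by
            rw [pow_add, pow_add]
            field_simp
        _ ≤ M / L ^ A * 1 := by
            refine mul_le_mul_of_nonneg_left ?_ (by positivity)
            have k1 : 1 / L ≤ 1 / 20 := one_div_le_one_div_of_le (by norm_num) hL20
            have k2 : 4 / L ^ 2 ≤ 4 / 20 ^ 2 :=
              div_le_div_of_nonneg_left (by norm_num) (by norm_num) (pow_le_pow_left₀ (by norm_num) hL20 2)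
            norm_num at k2
            linarith
        _ = _ := mul_one _
    rw [abs_le] at g1 g2
    have hsy1 : s * (Y j : ℝ) ≤ s * y := mul_le_mul_of_nonneg_left hY1r hs0'
    have hsy2 : s * (y : ℝ) ≤ s * Y (j + 1) := mul_le_mul_of_nonneg_left hY2r hs0'
    have hcontra : |fsum q b y - s * y| ≤ M / L ^ A := by
      rw [abs_le]
      constructor
      · have : s * (Y (j + 1) : ℝ) - s * Y j ≤ 4 * (M / L ^ (A + 2)) := by
          rw [← mul_sub]
          exact hgap
        linarith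
      · have : s * (Y (j + 1) : ℝ) - s * Y j ≤ 4 * (M / L ^ (A + 2)) := by
          rw [← mul_sub]
          exact hgap
        linarith
    linarith
  calc (T.card : ℝ) ≤ (((range (K + 2)).biUnion Tj).card : ℝ) := Nat.cast_le.2 (card_le_card hcov)
    _ ≤ ∑ j ∈ range (K + 2), ((Tj j).card : ℝ) := by exact_mod_cast card_biUnion_le
    _ ≤ ∑ _j ∈ range (K + 2), Pr / L ^ A₂ := sum_le_sum fun j _ => hfew j
    _ = (K + 2) * (Pr / L ^ A₂) := by rw [sum_const, card_range, nsmul_eq_mul]; push_cast; ring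
    _ ≤ (4 * L ^ (A + k + 3)) * (Pr / L ^ A₂) := by
        refine mul_le_mul_of_nonneg_right ?_ (by positivity)
        linarith
    _ = Pr / L ^ A * (4 / L ^ 3) := by
        obtain ⟨e, he⟩ : ∃ e, e = A + k + 3 := ⟨_, rfl⟩
        rw [hA₂, show 2 * A + k + 6 = (A + k + 3) + (A + 3) by ring, ← he, pow_add, pow_add L A 3]
        field_simp
    _ ≤ Pr / L ^ A * 1 := by
        refine mul_le_mul_of_nonneg_left ?_ (by positivity)
        rw [div_le_one (by positivity)]
        have : (20 : ℝ) ^ 3 ≤ L ^ 3 := pow_le_pow_left₀ (by norm_num) hL20 3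
        linarith
    _ = _ := mul_one _

end Pool.Agent.H579.R
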